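import Mathlib

set_option autoImplicit false

namespace Pool.MP_d56194_co

open Finset

/-- proper colouring of a set of cells -/
def ProperOn (U : Finset (ℕ × ℕ)) (c : ℕ × ℕ → ℕ) : Prop :=
  ∀ x ∈ U, ∀ y ∈ U, x ≠ y → (x.1 = y.1 ∨ x.2 = y.2) → c x ≠ c y

/-- columns reached by the alternating path which starts at the column `v` -/
inductive Reach (U : Finset (ℕ × ℕ)) (c : ℕ × ℕ → ℕ) (α β v : ℕ) : ℕ → Prop
  | base : Reach U c α β v v
  | step (i r r' : ℕ) : Reach U c α β v r → (i, r) ∈ U → c (i, r) = α → (i, r') ∈ U →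
      c (i, r') = β → Reach U c α β v r'

theorem reach_cases (U : Finset (ℕ × ℕ)) (c : ℕ × ℕ → ℕ) (α β v s : ℕ)
    (hr : Reach U c α β v s) : s = v ∨ ∃ i, (i, s) ∈ U ∧ c (i, s) = β := by
  cases hr with
  | base => exact Or.inl rfl
  | step i r _ h1 h2 h3 h4 h5 => exact Or.inr ⟨i, h4, h5⟩

theorem reach_beta (U : Finset (ℕ × ℕ)) (c : ℕ × ℕ → ℕ) (hc : ProperOn U c) (α β v : ℕ)
    (hv : ∀ x ∈ U, x.2 = v → c x ≠ β) (x : ℕ × ℕ) (hx : x ∈ U) (hxb : c x = β)
    (hr : Reach U c α β v x.2) :
    ∃ r, Reach U c α β v r ∧ (x.1, r) ∈ U ∧ c (x.1, r) = α := by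
  obtain ⟨i, s⟩ := x
  simp only at hr ⊢
  cases hr with
  | base => exact absurd hxb (hv _ hx rfl)
  | step i' r _ h1 h2 h3 h4 h5 =>
    have hii : i = i' := by
      by_contra hne
      exact hc _ hx _ h4 (by intro h; exact hne (congrArg Prod.fst h)) (Or.inr rfl)
        (by rw [hxb, h5])
    subst hii
    exact ⟨r, h1, h2, h3⟩

theorem exists_missing (V : Finset (ℕ × ℕ)) (c : ℕ × ℕ → ℕ) (d : ℕ) (h : V.card < d) :
    ∃ α, α < d ∧ ∀ x ∈ V, c x ≠ α := by
  have h1 : (V.image c).card < (range d).card := by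
    rw [Finset.card_range]
    exact lt_of_le_of_lt Finset.card_image_le h
  obtain ⟨α, h2, h3⟩ := Finset.exists_mem_notMem_of_card_lt_card h1
  refine ⟨α, Finset.mem_range.mp h2, ?_⟩
  intro x hx hxa
  exact h3 (Finset.mem_image.mpr ⟨x, hx, hxa⟩)

/-- Insertion of a cell: no colour class becomes smaller. -/
theorem insert_cell (U : Finset (ℕ × ℕ)) (e : ℕ × ℕ) (he : e ∉ U) (d : ℕ) (c : ℕ × ℕ → ℕ)
    (hc : ProperOn U c) (hd : ∀ x ∈ U, c x < d)
    (hrow : (U.filter (fun x => x.1 = e.1)).card < d)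
    (hcol : (U.filter (fun x => x.2 = e.2)).card < d) :
    ∃ c' : ℕ × ℕ → ℕ, ProperOn (insert e U) c' ∧ (∀ x ∈ insert e U, c' x < d) ∧
      ∀ j, (U.filter (fun x => c x = j)).card ≤
        ((insert e U).filter (fun x => c' x = j)).card := by
  classical
  obtain ⟨α, hαd, hα⟩ := exists_missing _ c d hrow
  obtain ⟨β, hβd, hβ⟩ := exists_missing _ c d hcol
  have hα' : ∀ x ∈ U, x.1 = e.1 → c x ≠ α := fun x hx h =>
    hα x (Finset.mem_filter.mpr ⟨hx, h⟩)
  have hβ' : ∀ x ∈ U, x.2 = e.2 → c x ≠ β := fun x hx h =>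
    hβ x (Finset.mem_filter.mpr ⟨hx, h⟩)
  set O : ℕ → Prop := Reach U c α β e.2 with hO
  have hOv : O e.2 := Reach.base
  have hOstep : ∀ i r r', O r → (i, r) ∈ U → c (i, r) = α → (i, r') ∈ U →
      c (i, r') = β → O r' := fun i r r' h1 h2 h3 h4 h5 => Reach.step i r r' h1 h2 h3 h4 h5
  have hOb : ∀ x ∈ U, c x = β → O x.2 → ∃ r, O r ∧ (x.1, r) ∈ U ∧ c (x.1, r) = α :=
    fun x hx h1 h2 => reach_beta U c hc α β e.2 hβ' x hx h1 h2
  set c' : ℕ × ℕ → ℕ := fun x => if x = e then α else
    if O x.2 then Equiv.swap α β (c x) else c x with hc'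
  have hce : c' e = α := by simp [hc']
  have hcU : ∀ x ∈ U, c' x = if O x.2 then Equiv.swap α β (c x) else c x := by
    intro x hx
    have hne : x ≠ e := fun h => he (h ▸ hx)
    simp [hc', hne]
  have swapd : ∀ z, z < d → Equiv.swap α β z < d := by
    intro z hz
    rw [Equiv.swap_apply_def]
    split_ifs <;> assumption
  have key1 : ∀ x ∈ U, ∀ y ∈ U, x ≠ y → (x.1 = y.1 ∨ x.2 = y.2) → O x.2 → ¬ O y.2 →
      Equiv.swap α β (c x) ≠ c y := by
    intro x hx y hy hne hxy hox hoy heq
    have hrow' : x.1 = y.1 := by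
      rcases hxy with h | h
      · exact h
      · exact absurd (h ▸ hox) hoy
    have hcne := hc x hx y hy hne hxy
    by_cases h1 : c x = α
    · rw [h1, Equiv.swap_apply_left] at heq
      apply hoy
      exact hOstep x.1 x.2 y.2 hox hx h1 (by rw [hrow']; exact hy)
        (by rw [hrow']; exact heq.symm)
    · by_cases h2 : c x = β
      · rw [h2, Equiv.swap_apply_right] at heq
        obtain ⟨r, hr1, hr2, hr3⟩ := hOb x hx h2 hox
        have : y = (x.1, r) := by
          by_contra hcon
          refine hc y hy _ hr2 hcon (Or.inl hrow'.symm) ?_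
          rw [hr3, heq]
        apply hoy
        rw [this]
        exact hr1
      · rw [Equiv.swap_apply_of_ne_of_ne h1 h2] at heq
        exact hcne heq
  have key2 : ∀ y ∈ U, (e.1 = y.1 ∨ e.2 = y.2) → c' y ≠ α := by
    intro y hy hey heq
    rw [hcU y hy] at heq
    by_cases hoy : O y.2
    · rw [if_pos hoy] at heq
      have h1 : c y = β := by
        have := congrArg (Equiv.swap α β) heq
        rw [Equiv.swap_apply_self, Equiv.swap_apply_left] at this
        exact this
      rcases hey with h | h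
      · obtain ⟨r, hr1, hr2, hr3⟩ := hOb y hy h1 hoy
        exact hα' _ hr2 h.symm hr3
      · exact hβ' y hy h.symm h1
    · rw [if_neg hoy] at heq
      rcases hey with h | h
      · exact hα' y hy h.symm heq
      · exact hoy (h ▸ hOv)
  refine ⟨c', ?_, ?_, ?_⟩
  · intro x hx y hy hne hxy
    rw [Finset.mem_insert] at hx hy
    rcases hx with rfl | hx
    · rcases hy with rfl | hy
      · exact absurd rfl hne
      · rw [hce]
        exact fun h => key2 y hy hxy h.symm
    · rcases hy with rfl | hy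
      · rw [hce]
        exact key2 x hx (hxy.imp Eq.symm Eq.symm)
      · rw [hcU x hx, hcU y hy]
        by_cases h1 : O x.2
        · by_cases h2 : O y.2
          · rw [if_pos h1, if_pos h2]
            intro h
            exact hc x hx y hy hne hxy ((Equiv.swap α β).injective h)
          · rw [if_pos h1, if_neg h2]
            exact key1 x hx y hy hne hxy h1 h2
        · by_cases h2 : O y.2
          · rw [if_neg h1, if_pos h2]
            exact fun h => key1 y hy x hx (Ne.symm hne) (hxy.imp Eq.symm Eq.symm) h2 h1 h.symm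
          · rw [if_neg h1, if_neg h2]
            exact hc x hx y hy hne hxy
  · intro x hx
    rw [Finset.mem_insert] at hx
    rcases hx with rfl | hx
    · rw [hce]; exact hαd
    · rw [hcU x hx]
      split_ifs
      · exact swapd _ (hd x hx)
      · exact hd x hx
  · intro j
    have hinj2 : Set.InjOn Prod.snd (U.filter (fun x => c x = j) : Set (ℕ × ℕ)) := by
      intro x hx y hy hxy
      rw [Finset.mem_coe, Finset.mem_filter] at hx hy
      by_contra hne
      exact hc x hx.1 y hy.1 hne (Or.inr hxy) (by rw [hx.2, hy.2])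
    have hinj1 : Set.InjOn Prod.fst (U.filter (fun x => c x = j) : Set (ℕ × ℕ)) := by
      intro x hx y hy hxy
      rw [Finset.mem_coe, Finset.mem_filter] at hx hy
      by_contra hne
      exact hc x hx.1 y hy.1 hne (Or.inl hxy) (by rw [hx.2, hy.2])
    by_cases hj1 : j = α
    · subst hj1
      rw [← Finset.card_image_of_injOn hinj2]
      refine le_trans (Finset.card_le_card ?_) (Finset.card_image_le (f := Prod.snd))
      intro s hs
      rw [Finset.mem_image] at hs ⊢
      obtain ⟨x, hx, rfl⟩ := hs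
      rw [Finset.mem_filter] at hx
      by_cases hox : O x.2
      · rcases reach_cases U c _ β e.2 x.2 hox with h | ⟨i, h4, h5⟩
        · exact ⟨e, Finset.mem_filter.mpr ⟨Finset.mem_insert_self _ _, hce⟩, h.symm⟩
        · refine ⟨(i, x.2), Finset.mem_filter.mpr ⟨Finset.mem_insert_of_mem h4, ?_⟩, rfl⟩
          rw [hcU _ h4, if_pos hox, h5, Equiv.swap_apply_right]
      · refine ⟨x, Finset.mem_filter.mpr ⟨Finset.mem_insert_of_mem hx.1, ?_⟩, rfl⟩
        rw [hcU _ hx.1, if_neg hox]
        exact hx.2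
    · by_cases hj2 : j = β
      · subst hj2
        rw [← Finset.card_image_of_injOn hinj1]
        refine le_trans (Finset.card_le_card ?_) (Finset.card_image_le (f := Prod.fst))
        intro s hs
        rw [Finset.mem_image] at hs ⊢
        obtain ⟨x, hx, rfl⟩ := hs
        rw [Finset.mem_filter] at hx
        by_cases hox : O x.2
        · obtain ⟨r, hr1, hr2, hr3⟩ := hOb x hx.1 hx.2 hox
          refine ⟨(x.1, r), Finset.mem_filter.mpr ⟨Finset.mem_insert_of_mem hr2, ?_⟩, rfl⟩
          rw [hcU _ hr2, if_pos hr1, hr3, Equiv.swap_apply_left]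
        · refine ⟨x, Finset.mem_filter.mpr ⟨Finset.mem_insert_of_mem hx.1, ?_⟩, rfl⟩
          rw [hcU _ hx.1, if_neg hox]
          exact hx.2
      · apply Finset.card_le_card
        intro x hx
        rw [Finset.mem_filter] at hx ⊢
        refine ⟨Finset.mem_insert_of_mem hx.1, ?_⟩
        rw [hcU _ hx.1, hx.2, Equiv.swap_apply_of_ne_of_ne hj1 hj2, ite_self]

/-- Extension of a proper colouring to a larger set of cells whose rows and columns have at
most `d` cells: no colour class becomes smaller. -/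
theorem extend_col (V : Finset (ℕ × ℕ)) (d : ℕ)
    (hrow : ∀ i, (V.filter (fun x => x.1 = i)).card ≤ d)
    (hcol : ∀ i, (V.filter (fun x => x.2 = i)).card ≤ d) (n : ℕ) :
    ∀ (U : Finset (ℕ × ℕ)) (c : ℕ × ℕ → ℕ), (V \ U).card ≤ n → U ⊆ V → ProperOn U c →
      (∀ x ∈ U, c x < d) →
      ∃ c' : ℕ × ℕ → ℕ, ProperOn V c' ∧ (∀ x ∈ V, c' x < d) ∧
        ∀ j, (U.filter (fun x => c x = j)).card ≤ (V.filter (fun x => c' x = j)).card := by
  classical
  induction n with
  | zero =>
    intro U c hn hUV hc hd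
    have h1 : V \ U = ∅ := Finset.card_eq_zero.mp (Nat.le_zero.mp hn)
    have h2 : V ⊆ U := Finset.sdiff_eq_empty_iff_subset.mp h1
    have h3 : U = V := Finset.Subset.antisymm hUV h2
    subst h3
    exact ⟨c, hc, hd, fun j => le_rfl⟩
  | succ n ih =>
    intro U c hn hUV hc hd
    by_cases hz : V \ U = ∅
    · have h2 : V ⊆ U := Finset.sdiff_eq_empty_iff_subset.mp hz
      have h3 : U = V := Finset.Subset.antisymm hUV h2
      subst h3
      exact ⟨c, hc, hd, fun j => le_rfl⟩
    · obtain ⟨e, he⟩ := Finset.nonempty_iff_ne_empty.mpr hz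
      rw [Finset.mem_sdiff] at he
      have hiV : insert e U ⊆ V := Finset.insert_subset he.1 hUV
      have hr : (U.filter (fun x => x.1 = e.1)).card < d := by
        refine lt_of_lt_of_le ?_ (hrow e.1)
        apply Finset.card_lt_card
        rw [Finset.ssubset_iff_of_subset (Finset.filter_subset_filter _ hUV)]
        exact ⟨e, Finset.mem_filter.mpr ⟨he.1, rfl⟩, fun h => he.2 (Finset.mem_filter.mp h).1⟩
      have hcl : (U.filter (fun x => x.2 = e.2)).card < d := by
        refine lt_of_lt_of_le ?_ (hcol e.2)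
        apply Finset.card_lt_card
        rw [Finset.ssubset_iff_of_subset (Finset.filter_subset_filter _ hUV)]
        exact ⟨e, Finset.mem_filter.mpr ⟨he.1, rfl⟩, fun h => he.2 (Finset.mem_filter.mp h).1⟩
      obtain ⟨c1, h1, h2, h3⟩ := insert_cell U e he.2 d c hc hd hr hcl
      have hlt : (V \ insert e U).card ≤ n := by
        have h4 : (V \ insert e U).card < (V \ U).card := by
          apply Finset.card_lt_card
          rw [Finset.ssubset_iff_of_subset
            (Finset.sdiff_subset_sdiff le_rfl (Finset.subset_insert e U))]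
          refine ⟨e, Finset.mem_sdiff.mpr ⟨he.1, he.2⟩, ?_⟩
          intro h
          exact (Finset.mem_sdiff.mp h).2 (Finset.mem_insert_self _ _)
        omega
      obtain ⟨c2, h4, h5, h6⟩ := ih (insert e U) c1 hlt hiV h1 h2
      exact ⟨c2, h4, h5, fun j => le_trans (h3 j) (h6 j)⟩

theorem card_lt_eq_sum (V : Finset (ℕ × ℕ)) (c : ℕ × ℕ → ℕ) (s : ℕ) :
    (V.filter (fun x => c x < s)).card =
      ∑ j ∈ range s, (V.filter (fun x => c x = j)).card := by
  classical
  rw [Finset.card_eq_sum_card_fiberwise (f := c) (t := range s)]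
  · apply Finset.sum_congr rfl
    intro j hj
    rw [Finset.mem_range] at hj
    congr 1
    ext x
    simp only [Finset.mem_filter]
    constructor
    · rintro ⟨⟨h1, _⟩, h3⟩
      exact ⟨h1, h3⟩
    · rintro ⟨h1, h2⟩
      exact ⟨⟨h1, by omega⟩, h2⟩
  · intro x hx
    simp only [Finset.coe_filter, Set.mem_ofPred_eq] at hx
    simp only [Finset.coe_range, Set.mem_Iio]
    exact hx.2

/-- A chain of sets of cells with rows and columns of at most `t + R` cells at time `t` gives
one proper colouring which is at least as good at every time. -/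
theorem chain_col (U : ℕ → Finset (ℕ × ℕ)) (hU : ∀ t, U t ⊆ U (t + 1)) (R : ℕ)
    (hrow : ∀ t i, ((U t).filter (fun x => x.1 = i)).card ≤ t + R)
    (hcol : ∀ t i, ((U t).filter (fun x => x.2 = i)).card ≤ t + R) (T : ℕ) :
    ∃ c : ℕ × ℕ → ℕ, ProperOn (U T) c ∧ (∀ x ∈ U T, c x < T + R) ∧
      ∀ t, t ≤ T → (U t).card ≤ ((U T).filter (fun x => c x < t + R)).card := by
  classical
  induction T with
  | zero =>
    obtain ⟨c, h1, h2, _⟩ := extend_col (U 0) (0 + R) (hrow 0) (hcol 0) _ ∅ (fun _ => 0)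
      le_rfl (Finset.empty_subset _) (by intro x hx; simp at hx) (by intro x hx; simp at hx)
    refine ⟨c, h1, h2, ?_⟩
    intro t ht
    have ht0 : t = 0 := by omega
    subst ht0
    rw [Finset.filter_true_of_mem h2]
  | succ T ih =>
    obtain ⟨c, h1, h2, h3⟩ := ih
    obtain ⟨c', h4, h5, h6⟩ := extend_col (U (T + 1)) (T + 1 + R) (hrow _) (hcol _) _ (U T) c
      le_rfl (hU T) h1 (fun x hx => lt_of_lt_of_le (h2 x hx) (by omega))
    refine ⟨c', h4, h5, ?_⟩
    intro t ht
    rcases Nat.lt_or_ge T t with h | h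
    · have ht1 : t = T + 1 := by omega
      subst ht1
      rw [Finset.filter_true_of_mem h5]
    · refine le_trans (h3 t h) ?_
      rw [card_lt_eq_sum, card_lt_eq_sum]
      exact Finset.sum_le_sum (fun j _ => h6 j)

end Pool.MP_d56194_co
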