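import Mathlib
import Pool.Agent.Lib.MP_d56194_co.G.G1

set_option autoImplicit false

namespace Pool.MP_d56194_co

open Finset

/-- the coordinates with a value strictly between 0 and 1 -/
noncomputable def frac {P : Type} [Fintype P] (y : P → ℝ) : Finset P := by
  classical exact univ.filter (fun p => 0 < y p ∧ y p < 1)

theorem mem_frac {P : Type} [Fintype P] (y : P → ℝ) (p : P) :
    p ∈ frac y ↔ 0 < y p ∧ y p < 1 := by
  classical
  simp [frac]

/-- A point of the cube can be moved, without changing finitely many linear forms, to a point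
which has at most as many fractional coordinates as there are forms. -/
theorem exists_vertex {P C : Type} [Fintype P] [DecidableEq P] (cons : Finset C)
    (L : C → P → ℝ) (n : ℕ) :
    ∀ y : P → ℝ, (frac y).card ≤ n → (∀ p, 0 ≤ y p) → (∀ p, y p ≤ 1) →
      ∃ y' : P → ℝ, (∀ p, 0 ≤ y' p) ∧ (∀ p, y' p ≤ 1) ∧ (∀ p, p ∉ frac y → y' p = y p) ∧
        (∀ c ∈ cons, ∑ p, L c p * y' p = ∑ p, L c p * y p) ∧ (frac y').card ≤ cons.card := by
  classical
  induction n with
  | zero =>
    intro y hn h0 h1
    exact ⟨y, h0, h1, fun _ _ => rfl, fun _ _ => rfl, by omega⟩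
  | succ n ih =>
    intro y hn h0 h1
    by_cases hle : (frac y).card ≤ cons.card
    · exact ⟨y, h0, h1, fun _ _ => rfl, fun _ _ => rfl, hle⟩
    · push Not at hle
      obtain ⟨δ, hδ0, ⟨p1, hp1, hp1'⟩, hδ⟩ := exists_direction (frac y) cons L hle
      set st : P → ℝ := fun p => if 0 < δ p then (1 - y p) / δ p else y p / (-δ p) with hst
      set F' : Finset P := (frac y).filter (fun p => δ p ≠ 0) with hF'
      have hne : F'.Nonempty := ⟨p1, Finset.mem_filter.mpr ⟨hp1, hp1'⟩⟩
      obtain ⟨q, hq, hqmin⟩ := Finset.exists_min_image F' st hne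
      rw [hF', Finset.mem_filter] at hq
      have hqf := (mem_frac y q).mp hq.1
      have hst0 : ∀ p ∈ F', 0 < st p := by
        intro p hp
        rw [hF', Finset.mem_filter] at hp
        have h3 := (mem_frac y p).mp hp.1
        simp only [hst]
        split_ifs with h4
        · exact div_pos (by linarith) h4
        · have h5 : δ p < 0 := lt_of_le_of_ne (not_lt.mp h4) hp.2
          exact div_pos h3.1 (by linarith)
      have htq : 0 < st q := hst0 q (Finset.mem_filter.mpr hq)
      set y1 : P → ℝ := fun p => y p + st q * δ p with hy1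
      have hb : ∀ p, 0 ≤ y1 p ∧ y1 p ≤ 1 := by
        intro p
        simp only [hy1]
        by_cases hz : δ p = 0
        · rw [hz, mul_zero, add_zero]
          exact ⟨h0 p, h1 p⟩
        · have hpf : p ∈ frac y := by
            by_contra hcon
            exact hz (hδ0 p hcon)
          have hm := hqmin p (Finset.mem_filter.mpr ⟨hpf, hz⟩)
          rcases lt_or_gt_of_ne hz with h4 | h4
          · have h5 : st p = y p / (-δ p) := by
              simp only [hst]
              rw [if_neg (by linarith)]
            rw [h5, le_div_iff₀ (by linarith)] at hm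
            constructor
            · linarith
            · have : st q * δ p ≤ 0 := mul_nonpos_of_nonneg_of_nonpos htq.le h4.le
              linarith [h1 p]
          · have h5 : st p = (1 - y p) / δ p := by
              simp only [hst]
              rw [if_pos h4]
            rw [h5, le_div_iff₀ h4] at hm
            constructor
            · have : 0 ≤ st q * δ p := mul_nonneg htq.le h4.le
              linarith [h0 p]
            · linarith
      have hyq : q ∉ frac y1 := by
        rw [mem_frac]
        rintro ⟨h4, h5⟩
        simp only [hy1] at h4 h5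
        rcases lt_or_gt_of_ne hq.2 with h6 | h6
        · have h7 : st q = y q / (-δ q) := by
            simp only [hst]
            rw [if_neg (by linarith)]
          have h8 : st q * δ q = - y q := by
            rw [h7, div_mul_eq_mul_div, div_eq_iff (by linarith)]
            ring
          linarith
        · have h7 : st q = (1 - y q) / δ q := by
            simp only [hst]
            rw [if_pos h6]
          have h8 : st q * δ q = 1 - y q := by
            rw [h7, div_mul_eq_mul_div, div_eq_iff (by linarith)]
          linarith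
      have hoff : ∀ p, p ∉ frac y → y1 p = y p := by
        intro p hp
        simp only [hy1]
        rw [hδ0 p hp, mul_zero, add_zero]
      have hsub : frac y1 ⊆ frac y := by
        intro p hp
        by_contra hcon
        have h4 := hoff p hcon
        rw [mem_frac] at hp hcon
        rw [h4] at hp
        exact hcon hp
      have hlt : (frac y1).card < (frac y).card := by
        apply Finset.card_lt_card
        rw [Finset.ssubset_iff_of_subset hsub]
        exact ⟨q, hq.1, hyq⟩
      obtain ⟨y', g0, g1, g2, g3, g4⟩ := ih y1 (by omega) (fun p => (hb p).1)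
        (fun p => (hb p).2)
      refine ⟨y', g0, g1, ?_, ?_, g4⟩
      · intro p hp
        rw [g2 p (fun h => hp (hsub h)), hoff p hp]
      · intro c hc
        rw [g3 c hc]
        have h9 : ∀ p, L c p * y1 p = L c p * y p + st q * (L c p * δ p) := by
          intro p
          simp only [hy1]
          ring
        rw [Finset.sum_congr rfl (fun p _ => h9 p), Finset.sum_add_distrib,
          ← Finset.mul_sum, hδ c hc, mul_zero, add_zero]

/-- position of `p` among the fractional members of a chain -/
noncomputable def rnk {P : Type} [Fintype P] (y : P → ℝ) (key : P → ℕ) (T : Finset P)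
    (κ : ℕ) : ℕ := by
  classical exact ((T ∩ frac y).filter (fun q => key q < κ)).card

theorem rnk_mono {P : Type} [Fintype P] (y : P → ℝ) (key : P → ℕ) (T : Finset P) (a b : ℕ)
    (h : a ≤ b) : rnk y key T a ≤ rnk y key T b := by
  classical
  unfold rnk
  apply Finset.card_le_card
  intro q hq
  rw [Finset.mem_filter] at hq ⊢
  exact ⟨hq.1, by omega⟩

theorem rnk_lt {P : Type} [Fintype P] (y : P → ℝ) (key : P → ℕ) (T : Finset P) (p : P)
    (hp : p ∈ T) (hf : p ∈ frac y) (b : ℕ) (h : key p < b) :
    rnk y key T (key p) < rnk y key T b := by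
  classical
  unfold rnk
  apply Finset.card_lt_card
  rw [Finset.ssubset_iff_of_subset]
  · refine ⟨p, Finset.mem_filter.mpr ⟨Finset.mem_inter.mpr ⟨hp, hf⟩, h⟩, ?_⟩
    intro hq
    exact absurd (Finset.mem_filter.mp hq).2 (lt_irrefl _)
  · intro q hq
    rw [Finset.mem_filter] at hq ⊢
    exact ⟨hq.1, by omega⟩

theorem rnk_iff {P : Type} [Fintype P] (y : P → ℝ) (key : P → ℕ) (T : Finset P) (p : P)
    (hp : p ∈ T) (hf : p ∈ frac y) (b : ℕ) :
    rnk y key T (key p) < rnk y key T b ↔ key p < b := by
  constructor
  · intro h
    by_contra hcon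
    have := rnk_mono y key T b (key p) (by omega)
    omega
  · exact rnk_lt y key T p hp hf b

theorem rnk_le {P : Type} [Fintype P] [DecidableEq P] (y : P → ℝ) (key : P → ℕ)
    (T : Finset P) (b : ℕ) : rnk y key T b ≤ (T ∩ frac y).card := by
  unfold rnk
  refine le_trans (Finset.card_le_card (Finset.filter_subset _ _)) ?_
  apply Finset.card_le_card
  intro q hq
  simp only [Finset.mem_inter] at hq ⊢
  exact hq

/-- One phase of the rounding. -/
theorem phase {P E C : Type} [Fintype P] [Fintype E] [Fintype C] [DecidableEq P]
    [DecidableEq E] [DecidableEq C] (cell : P → E) (key : P → ℕ)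
    (hkey : Function.Injective key) (S : C → Finset P)
    (hS : ∀ p, (univ.filter (fun c => p ∈ S c)).card ≤ 3) (y : P → ℝ) (h0 : ∀ p, 0 ≤ y p)
    (h1 : ∀ e, ∑ p ∈ univ.filter (fun p => cell p = e), y p = 1) :
    ∃ y' : P → ℝ, (∀ p, 0 ≤ y' p) ∧ (∀ e, ∑ p ∈ univ.filter (fun p => cell p = e), y' p = 1) ∧
      (∀ p, p ∉ frac y → y' p = y p) ∧ 4 * (frac y').card ≤ 3 * (frac y).card ∧
      ∀ c κ, |∑ p ∈ (S c).filter (fun p => key p < κ), (y' p - y p)| ≤ 11 := by
  classical
  have hy1 : ∀ p, y p ≤ 1 := by
    intro p
    rw [← h1 (cell p)]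
    exact Finset.single_le_sum (f := y) (fun q _ => h0 q)
      (Finset.mem_filter.mpr ⟨Finset.mem_univ p, rfl⟩)
  set F := frac y with hF
  set Ec : Finset E := F.image cell with hEc
  set Nc : C → ℕ := fun c => (S c ∩ F).card with hNc
  set cons : Finset (E ⊕ (C × ℕ)) := Ec.image Sum.inl ∪
    (univ : Finset C).biUnion (fun c => (range (Nc c / 12)).image (fun q => Sum.inr (c, q)))
    with hcons
  set L : E ⊕ (C × ℕ) → P → ℝ := fun r p => match r with
    | Sum.inl e => if cell p = e then 1 else 0
    | Sum.inr (c, q) => if p ∈ S c ∧ p ∈ F ∧ rnk y key (S c) (key p) / 12 = q then 1 else 0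
    with hL
  have hN : ∑ c, Nc c ≤ 3 * F.card := by
    have h2 : ∀ c, Nc c = ∑ p ∈ F, if p ∈ S c then 1 else 0 := by
      intro c
      simp only [hNc]
      rw [Finset.sum_boole, Nat.cast_id]
      congr 1
      ext p
      simp only [Finset.mem_inter, Finset.mem_filter]
      exact and_comm
    rw [Finset.sum_congr rfl (fun c _ => h2 c), Finset.sum_comm]
    have h3 : ∀ p ∈ F, ∑ c, (if p ∈ S c then 1 else 0) ≤ 3 := by
      intro p _
      rw [Finset.sum_boole, Nat.cast_id]
      exact hS p
    refine le_trans (Finset.sum_le_sum h3) ?_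
    rw [Finset.sum_const, smul_eq_mul, mul_comm]
  have hE : 2 * Ec.card ≤ F.card := by
    have h2 : F.card = ∑ e ∈ Ec, (F.filter (fun p => cell p = e)).card :=
      Finset.card_eq_sum_card_image cell F
    rw [h2, mul_comm, ← smul_eq_mul, ← Finset.sum_const]
    apply Finset.sum_le_sum
    intro e he
    rw [hEc, Finset.mem_image] at he
    obtain ⟨p, hp, rfl⟩ := he
    by_contra hcon
    have h3 : (F.filter (fun q => cell q = cell p)).card ≤ 1 := by omega
    have hpf := (mem_frac y p).mp hp
    have h4 : ∀ q ∈ univ.filter (fun q => cell q = cell p), q ≠ p → y q = 0 ∨ y q = 1 := by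
      intro q hq hqp
      rw [Finset.mem_filter] at hq
      by_contra hc2
      push Not at hc2
      have h5 : q ∈ F := (mem_frac y q).mpr ⟨lt_of_le_of_ne (h0 q) (Ne.symm hc2.1),
        lt_of_le_of_ne (hy1 q) hc2.2⟩
      exact hqp (Finset.card_le_one.mp h3 q (Finset.mem_filter.mpr ⟨h5, hq.2⟩) p
        (Finset.mem_filter.mpr ⟨hp, rfl⟩))
    have h5 := h1 (cell p)
    have h6 : p ∈ univ.filter (fun q => cell q = cell p) :=
      Finset.mem_filter.mpr ⟨Finset.mem_univ p, rfl⟩
    rw [← Finset.add_sum_erase _ _ h6] at h5
    by_cases h7 : ∃ q ∈ (univ.filter (fun q => cell q = cell p)).erase p, y q = 1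
    · obtain ⟨q, hq, hq1⟩ := h7
      have h8 := Finset.single_le_sum (f := y) (fun q _ => h0 q) hq
      rw [hq1] at h8
      linarith [hpf.1]
    · push Not at h7
      have h8 : ∑ q ∈ (univ.filter (fun q => cell q = cell p)).erase p, y q = 0 := by
        apply Finset.sum_eq_zero
        intro q hq
        rcases h4 q (Finset.mem_of_mem_erase hq) (Finset.ne_of_mem_erase hq) with h | h
        · exact h
        · exact absurd h (h7 q hq)
      rw [h8, add_zero] at h5
      linarith [hpf.2]
  have hcc : 4 * cons.card ≤ 3 * F.card := by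
    have h2 : cons.card ≤ Ec.card + ∑ c, Nc c / 12 := by
      refine le_trans (Finset.card_union_le _ _) ?_
      apply Nat.add_le_add
      · exact Finset.card_image_le
      · refine le_trans Finset.card_biUnion_le ?_
        apply Finset.sum_le_sum
        intro c _
        refine le_trans Finset.card_image_le ?_
        rw [Finset.card_range]
    have h3 : 12 * ∑ c, Nc c / 12 ≤ ∑ c, Nc c := by
      rw [Finset.mul_sum]
      apply Finset.sum_le_sum
      intro c _
      exact Nat.mul_div_le _ _
    omega
  obtain ⟨y', g0, g1, g2, g3, g4⟩ := exists_vertex cons L _ y le_rfl h0 hy1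
  refine ⟨y', g0, ?_, g2, by omega, ?_⟩
  · intro e
    rw [← h1 e]
    by_cases he : e ∈ Ec
    · have h2 := g3 (Sum.inl e) (Finset.mem_union_left _ (Finset.mem_image_of_mem _ he))
      simp only [hL, ite_mul, one_mul, zero_mul] at h2
      rw [Finset.sum_filter, Finset.sum_filter]
      exact h2
    · apply Finset.sum_congr rfl
      intro p hp
      apply g2
      intro hpF
      rw [Finset.mem_filter] at hp
      exact he (hp.2 ▸ Finset.mem_image_of_mem cell hpF)
  · intro c κ
    set r0 := rnk y key (S c) κ with hr0
    set D : Finset P := (S c ∩ F) with hD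
    have hd1 : ∑ p ∈ (S c).filter (fun p => key p < κ), (y' p - y p) =
        ∑ p ∈ D.filter (fun p => rnk y key (S c) (key p) < r0), (y' p - y p) := by
      symm
      apply Finset.sum_subset_zero_on_sdiff
      · intro p hp
        rw [Finset.mem_filter, hD, Finset.mem_inter] at hp
        exact Finset.mem_filter.mpr ⟨hp.1.1,
          (rnk_iff y key (S c) p hp.1.1 hp.1.2 κ).mp hp.2⟩
      · intro p hp
        rw [Finset.mem_sdiff, Finset.mem_filter] at hp
        have hpF : p ∉ F := by
          intro hpF
          apply hp.2
          rw [Finset.mem_filter, hD, Finset.mem_inter]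
          exact ⟨⟨hp.1.1, hpF⟩, (rnk_iff y key (S c) p hp.1.1 hpF κ).mpr hp.1.2⟩
        rw [g2 p hpF, sub_self]
      · intro p _
        rfl
    rw [hd1]
    have hd2 : D.filter (fun p => rnk y key (S c) (key p) < r0) =
        D.filter (fun p => rnk y key (S c) (key p) / 12 < r0 / 12) ∪
          D.filter (fun p => rnk y key (S c) (key p) / 12 = r0 / 12 ∧
            rnk y key (S c) (key p) < r0) := by
      ext p
      simp only [Finset.mem_filter, Finset.mem_union]
      constructor
      · rintro ⟨h2, h3⟩
        by_cases h4 : rnk y key (S c) (key p) / 12 < r0 / 12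
        · exact Or.inl ⟨h2, h4⟩
        · exact Or.inr ⟨h2, by omega, h3⟩
      · rintro (⟨h2, h3⟩ | ⟨h2, h3, h4⟩)
        · exact ⟨h2, by omega⟩
        · exact ⟨h2, h4⟩
    rw [hd2, Finset.sum_union]
    · have hz : ∑ p ∈ D.filter (fun p => rnk y key (S c) (key p) / 12 < r0 / 12),
          (y' p - y p) = 0 := by
        have h2 : ∑ p ∈ D.filter (fun p => rnk y key (S c) (key p) / 12 < r0 / 12),
            (y' p - y p) = ∑ q ∈ range (r0 / 12),
              ∑ p ∈ D.filter (fun p => rnk y key (S c) (key p) / 12 = q), (y' p - y p) := by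
          rw [← Finset.sum_fiberwise_of_maps_to (t := range (r0 / 12))
            (g := fun p => rnk y key (S c) (key p) / 12)]
          · apply Finset.sum_congr rfl
            intro q hq
            rw [Finset.mem_range] at hq
            apply Finset.sum_congr _ (fun _ _ => rfl)
            ext p
            simp only [Finset.mem_filter]
            constructor
            · rintro ⟨⟨h2, _⟩, h4⟩
              exact ⟨h2, h4⟩
            · rintro ⟨h2, h3⟩
              exact ⟨⟨h2, by omega⟩, h3⟩
          · intro p hp
            rw [Finset.mem_filter] at hp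
            exact Finset.mem_range.mpr hp.2
        rw [h2]
        apply Finset.sum_eq_zero
        intro q hq
        rw [Finset.mem_range] at hq
        have h3 : q < Nc c / 12 := by
          have h4 : r0 ≤ Nc c := rnk_le y key (S c) κ
          have h5 : r0 / 12 ≤ Nc c / 12 := Nat.div_le_div_right h4
          omega
        have h4 := g3 (Sum.inr (c, q)) (Finset.mem_union_right _
          (Finset.mem_biUnion.mpr ⟨c, Finset.mem_univ c,
            Finset.mem_image.mpr ⟨q, Finset.mem_range.mpr h3, rfl⟩⟩))
        simp only [hL, ite_mul, one_mul, zero_mul] at h4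
        have h5 : D.filter (fun p => rnk y key (S c) (key p) / 12 = q) =
            univ.filter (fun p => p ∈ S c ∧ p ∈ F ∧ rnk y key (S c) (key p) / 12 = q) := by
          ext p
          simp only [hD, Finset.mem_filter, Finset.mem_inter, Finset.mem_univ, true_and]
          exact and_assoc
        rw [h5, Finset.sum_sub_distrib, Finset.sum_filter, Finset.sum_filter, h4, sub_self]
      rw [hz, zero_add]
      refine le_trans (Finset.abs_sum_le_sum_abs _ _) ?_
      have h2 : ∀ p ∈ D.filter (fun p => rnk y key (S c) (key p) / 12 = r0 / 12 ∧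
            rnk y key (S c) (key p) < r0), |y' p - y p| ≤ 1 := by
        intro p _
        rw [abs_le]
        constructor
        · linarith [g0 p, hy1 p]
        · linarith [g1 p, h0 p]
      refine le_trans (Finset.sum_le_card_nsmul _ _ 1 h2) ?_
      rw [nsmul_eq_mul, mul_one]
      have h3 : (D.filter (fun p => rnk y key (S c) (key p) / 12 = r0 / 12 ∧
            rnk y key (S c) (key p) < r0)).card ≤ 11 := by
        have h4 : (Finset.Ico (12 * (r0 / 12)) r0).card ≤ 11 := by
          rw [Nat.card_Ico]
          omega
        refine le_trans ?_ h4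
        apply Finset.card_le_card_of_injOn (fun p => rnk y key (S c) (key p))
        · intro p hp
          rw [Finset.mem_coe, Finset.mem_filter] at hp
          have h5 := hp.2
          refine Finset.mem_coe.mpr (Finset.mem_Ico.mpr ⟨?_, ?_⟩)
          · show 12 * (r0 / 12) ≤ rnk y key (S c) (key p)
            omega
          · show rnk y key (S c) (key p) < r0
            omega
        · intro p hp q hq hpq
          rw [Finset.mem_coe, Finset.mem_filter, hD, Finset.mem_inter] at hp hq
          simp only at hpq
          apply hkey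
          rcases lt_trichotomy (key p) (key q) with h | h | h
          · have := rnk_lt y key (S c) p hp.1.1 hp.1.2 _ h
            omega
          · exact h
          · have := rnk_lt y key (S c) q hq.1.1 hq.1.2 _ h
            omega
      exact_mod_cast h3
    · rw [Finset.disjoint_left]
      intro p hp hq
      rw [Finset.mem_filter] at hp hq
      omega

/-- Rounding of a fractional assignment: for all chains and all initial segments of a chain
the error is at most `11 L`, `L` being logarithmic in the number of fractional entries. -/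
theorem chain_round {P E C : Type} [Fintype P] [Fintype E] [Fintype C] [DecidableEq P]
    [DecidableEq E] [DecidableEq C] (cell : P → E) (key : P → ℕ)
    (hkey : Function.Injective key) (S : C → Finset P)
    (hS : ∀ p, (univ.filter (fun c => p ∈ S c)).card ≤ 3) (L : ℕ) :
    ∀ (y : P → ℝ), (∀ p, 0 ≤ y p) →
      (∀ e, ∑ p ∈ univ.filter (fun p => cell p = e), y p = 1) →
      (frac y).card * 3 ^ L < 4 ^ L →
      ∃ φ : E → P, (∀ e, cell (φ e) = e) ∧ (∀ e, 0 < y (φ e)) ∧
        ∀ c κ, |((univ.filter (fun e => φ e ∈ S c ∧ key (φ e) < κ)).card : ℝ) -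
          ∑ p ∈ (S c).filter (fun p => key p < κ), y p| ≤ 11 * L := by
  classical
  induction L with
  | zero =>
    intro y h0 h1 hL
    have hF : frac y = ∅ := by
      rw [← Finset.card_eq_zero]
      simp only [pow_zero, mul_one] at hL
      omega
    have hy1 : ∀ p, y p ≤ 1 := by
      intro p
      rw [← h1 (cell p)]
      exact Finset.single_le_sum (f := y) (fun q _ => h0 q)
        (Finset.mem_filter.mpr ⟨Finset.mem_univ p, rfl⟩)
    have h01 : ∀ p, y p = 0 ∨ y p = 1 := by
      intro p
      by_contra hcon
      push Not at hcon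
      have h2 : p ∈ frac y := (mem_frac y p).mpr ⟨lt_of_le_of_ne (h0 p) (Ne.symm hcon.1),
        lt_of_le_of_ne (hy1 p) hcon.2⟩
      rw [hF] at h2
      exact absurd h2 (Finset.notMem_empty p)
    have hex : ∀ e, ∃ p, cell p = e ∧ y p = 1 := by
      intro e
      by_contra hcon
      push Not at hcon
      have h2 := h1 e
      rw [Finset.sum_eq_zero] at h2
      · exact zero_ne_one h2
      · intro p hp
        rw [Finset.mem_filter] at hp
        rcases h01 p with h | h
        · exact h
        · exact absurd h (hcon p hp.2)
    choose φ hφ1 hφ2 using hex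
    have huniq : ∀ p, y p = 1 → p = φ (cell p) := by
      intro p hp
      by_contra hne
      have h2 := h1 (cell p)
      have h3 : p ∈ univ.filter (fun q => cell q = cell p) :=
        Finset.mem_filter.mpr ⟨Finset.mem_univ p, rfl⟩
      have h4 : φ (cell p) ∈ (univ.filter (fun q => cell q = cell p)).erase p :=
        Finset.mem_erase.mpr ⟨Ne.symm hne,
          Finset.mem_filter.mpr ⟨Finset.mem_univ _, hφ1 _⟩⟩
      rw [← Finset.add_sum_erase _ _ h3] at h2
      have h5 := Finset.single_le_sum (f := y) (fun q _ => h0 q) h4
      rw [hφ2] at h5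
      linarith
    refine ⟨φ, hφ1, fun e => by rw [hφ2]; exact one_pos, ?_⟩
    intro c κ
    have hsum : ∑ p ∈ (S c).filter (fun p => key p < κ), y p =
        ((univ.filter (fun e => φ e ∈ S c ∧ key (φ e) < κ)).card : ℝ) := by
      have h2 : ∀ p, y p = if y p = 1 then (1 : ℝ) else 0 := by
        intro p
        rcases h01 p with h | h
        · rw [h, if_neg zero_ne_one]
        · rw [if_pos h, h]
      rw [Finset.sum_congr rfl (fun p _ => h2 p), Finset.sum_boole]
      congr 1
      symm
      apply Finset.card_bij (fun e _ => φ e)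
      · intro e he
        rw [Finset.mem_filter] at he
        rw [Finset.mem_filter, Finset.mem_filter]
        exact ⟨⟨he.2.1, he.2.2⟩, hφ2 e⟩
      · intro e _ e' _ h
        rw [← hφ1 e, ← hφ1 e', h]
      · intro p hp
        rw [Finset.mem_filter, Finset.mem_filter] at hp
        refine ⟨cell p, ?_, (huniq p hp.2).symm⟩
        rw [Finset.mem_filter, ← huniq p hp.2]
        exact ⟨Finset.mem_univ _, hp.1⟩
    rw [hsum, sub_self, abs_zero]
    simp
  | succ L ih =>
    intro y h0 h1 hL
    obtain ⟨y', g0, g1, g2, g3, g4⟩ := phase cell key hkey S hS y h0 h1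
    have h5 : (frac y').card * 3 ^ L < 4 ^ L := by
      have h6 : 4 * ((frac y').card * 3 ^ L) < 4 * 4 ^ L := by
        calc 4 * ((frac y').card * 3 ^ L) = (4 * (frac y').card) * 3 ^ L := by ring
          _ ≤ (3 * (frac y).card) * 3 ^ L := Nat.mul_le_mul_right _ g3
          _ = (frac y).card * 3 ^ (L + 1) := by ring
          _ < 4 ^ (L + 1) := hL
          _ = 4 * 4 ^ L := by ring
      omega
    obtain ⟨φ, f1, f2, f3⟩ := ih y' g0 g1 h5
    refine ⟨φ, f1, ?_, ?_⟩
    · intro e
      by_contra hcon
      have h6 : y (φ e) = 0 := le_antisymm (not_lt.mp hcon) (h0 _)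
      have h7 : φ e ∉ frac y := by
        rw [mem_frac, h6]
        exact fun h => lt_irrefl _ h.1
      have h8 := f2 e
      rw [g2 _ h7, h6] at h8
      exact lt_irrefl _ h8
    · intro c κ
      have h6 := f3 c κ
      have h7 := g4 c κ
      rw [Finset.sum_sub_distrib] at h7
      have h8 : ((univ.filter (fun e => φ e ∈ S c ∧ key (φ e) < κ)).card : ℝ) -
          ∑ p ∈ (S c).filter (fun p => key p < κ), y p =
          (((univ.filter (fun e => φ e ∈ S c ∧ key (φ e) < κ)).card : ℝ) -
          ∑ p ∈ (S c).filter (fun p => key p < κ), y' p) +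
          (∑ p ∈ (S c).filter (fun p => key p < κ), y' p -
            ∑ p ∈ (S c).filter (fun p => key p < κ), y p) := by ring
      rw [h8]
      refine le_trans (abs_add_le _ _) ?_
      push_cast
      linarith

end Pool.MP_d56194_co
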