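import Mathlib
import Pool.Agent.Lib.MP_d56194_co.G.G8
import Pool.Agent.Lib.MP_d56194_co.H.H1
import Pool.Agent.Lib.MP_d56194_co.H.H2

set_option autoImplicit false

namespace Pool.MP_d56194_co

open Finset

theorem phases_enough (n a : ℕ) (ha : a ≤ n * n) :
    a * 3 ^ (5 * (Nat.log 2 n + 1)) < 4 ^ (5 * (Nat.log 2 n + 1)) := by
  set l := Nat.log 2 n + 1 with hl
  have h1 : n < 2 ^ l := Nat.lt_pow_succ_log_self (by norm_num) n
  have h2 : n * n < 4 ^ l := by
    have h3 : n * n < 2 ^ l * 2 ^ l := Nat.mul_self_lt_mul_self h1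
    have h4 : (4 : ℕ) ^ l = 2 ^ l * 2 ^ l := by
      rw [← Nat.mul_pow]
    omega
  have h5 : a < 4 ^ l := lt_of_le_of_lt ha h2
  calc a * 3 ^ (5 * l) < 4 ^ l * 3 ^ (5 * l) :=
        Nat.mul_lt_mul_of_pos_right h5 (pow_pos (by norm_num) _)
    _ = 972 ^ l := by
        rw [pow_mul, ← Nat.mul_pow]
        norm_num
    _ ≤ 1024 ^ l := Nat.pow_le_pow_left (by norm_num) l
    _ = 4 ^ (5 * l) := by
        rw [pow_mul]
        norm_num

theorem gcut_shift (m : ℕ) (lam : ℕ → ℕ) (k d : ℕ) :
    (∑ i ∈ range m, lam i ≤ gcut m lam (k + d)) ∨ gcut m lam k + d ≤ gcut m lam (k + d) := by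
  obtain ⟨a, b, hab⟩ := gcut_attained m lam (k + d)
  by_cases h0 : a + b = 0
  · left
    have ha : a = 0 := by omega
    have hb : b = 0 := by omega
    subst ha hb
    rw [hab]
    unfold ct
    simp
  · right
    rw [hab, ct_add]
    have h1 := gcut_le m lam k a b
    have h2 : d * 1 ≤ d * (a + b) := Nat.mul_le_mul_left _ (by omega)
    omega

/-- The Latin tableau conjecture up to a logarithmic shift. -/
theorem log_shift (μ : YoungDiagram) :
    ∃ c : ℕ × ℕ → ℕ, ProperOn μ.cells c ∧
      ∀ k, gcut (μ.colLen 0) μ.rowLen k ≤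
        (μ.cells.filter (fun x => c x < k + 110 * (Nat.log 2 μ.cells.card + 1))).card := by
  classical
  set m := μ.colLen 0 with hmdef
  set N := μ.rowLen 0 with hNdef
  set lam := μ.rowLen with hlam
  set n := μ.cells.card with hn
  set ℓ := Nat.log 2 n + 1 with hℓ
  have hm : ∀ i, m ≤ i → lam i = 0 := by
    intro i hi
    by_contra hne
    have h1 : (i, 0) ∈ μ := YoungDiagram.mem_iff_lt_rowLen.mpr (Nat.pos_of_ne_zero hne)
    have h2 := YoungDiagram.mem_iff_lt_colLen.mp h1
    omega
  have hanti : Antitone lam := fun i j hij => μ.rowLen_anti i j hij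
  have hN : ∀ i, lam i ≤ N := fun i => hanti (Nat.zero_le i)
  have hcardR : (n : ℝ) = ((∑ i ∈ range m, lam i : ℕ) : ℝ) := by
    have h1 := cell_sum μ (fun _ => (1 : ℝ))
    rw [Finset.sum_const, nsmul_eq_mul, mul_one] at h1
    rw [h1, Nat.cast_sum]
    apply Finset.sum_congr rfl
    intro i _
    have h9 : (range N).filter (fun x => x < lam i) = range (lam i) := by
      ext x
      have := hN i
      simp only [Finset.mem_filter, Finset.mem_range]
      omega
    rw [← Finset.sum_filter, Finset.sum_const, nsmul_eq_mul, h9, Finset.card_range, mul_one]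
  have hcard : n = ∑ i ∈ range m, lam i := by exact_mod_cast hcardR
  obtain ⟨T, Y, hY0, hY1, hYr, hYc, hYt⟩ := real_groups m N lam hanti hm hN (fun _ => 1)
    (fun _ => le_rfl)
  have hYz : ∀ i x j, i < m → x < N → ¬ x < lam i → j < T → Y i x j = 0 := by
    intro i x j hi hx hxl hj
    have h1 := hY1 i x hi hx
    rw [if_neg hxl, Finset.sum_eq_zero_iff_of_nonneg (fun j _ => hY0 i x j)] at h1
    exact h1 j (Finset.mem_range.mpr hj)
  set y : μ.cells × Fin T → ℝ := fun p => Y p.1.1.1 p.1.1.2 p.2.1 with hy
  have hy0 : ∀ p, 0 ≤ y p := fun p => hY0 _ _ _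
  -- partial sums
  have hpart : ∀ (cond : μ.cells → Prop) [DecidablePred cond] (t : ℕ),
      ∑ p ∈ univ.filter (fun p : μ.cells × Fin T => cond p.1 ∧ p.2.1 < t), y p =
        ∑ j : Fin T, if j.1 < t then (∑ e : μ.cells, if cond e then y (e, j) else 0) else 0 := by
    intro cond _ t
    rw [Finset.sum_filter, Fintype.sum_prod_type, Finset.sum_comm]
    apply Finset.sum_congr rfl
    intro j _
    split_ifs with h1
    · apply Finset.sum_congr rfl
      intro e _
      by_cases h2 : cond e
      · simp [h1, h2]
      · simp [h2]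
    · apply Finset.sum_eq_zero
      intro e _
      simp [h1]
  have hrow1 : ∀ (i : ℕ) (j : Fin T), i < m →
      (∑ e : μ.cells, if e.1.1 = i then y (e, j) else 0) ≤ 1 := by
    intro i j hi
    have e2 : (∑ e : μ.cells, if e.1.1 = i then y (e, j) else 0) =
        ∑ v ∈ μ.cells, if v.1 = i then Y v.1 v.2 j.1 else 0 :=
      Finset.sum_coe_sort μ.cells (fun v => if v.1 = i then Y v.1 v.2 j.1 else 0)
    rw [e2, cell_sum, Finset.sum_eq_single i]
    · have h1 := hYr i j.1 hi
      simp only [Nat.cast_one] at h1
      refine le_trans ?_ h1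
      apply Finset.sum_le_sum
      intro x _
      have := hY0 i x j.1
      split_ifs <;> first | exact le_rfl | exact this
    · intro i' _ hne
      apply Finset.sum_eq_zero
      intro x _
      simp [hne]
    · intro h
      exact absurd (Finset.mem_range.mpr hi) h
  have hcol1 : ∀ (x : ℕ) (j : Fin T), x < N →
      (∑ e : μ.cells, if e.1.2 = x then y (e, j) else 0) ≤ 1 := by
    intro x j hx
    have e2 : (∑ e : μ.cells, if e.1.2 = x then y (e, j) else 0) =
        ∑ v ∈ μ.cells, if v.2 = x then Y v.1 v.2 j.1 else 0 :=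
      Finset.sum_coe_sort μ.cells (fun v => if v.2 = x then Y v.1 v.2 j.1 else 0)
    rw [e2, cell_sum, Finset.sum_comm, Finset.sum_eq_single x]
    · have h1 := hYc x j.1 hx
      simp only [Nat.cast_one] at h1
      refine le_trans ?_ h1
      apply Finset.sum_le_sum
      intro i _
      have := hY0 i x j.1
      split_ifs <;> first | exact le_rfl | exact this
    · intro x' _ hne
      apply Finset.sum_eq_zero
      intro i _
      simp [hne]
    · intro h
      exact absurd (Finset.mem_range.mpr hx) h
  have htot1 : ∀ (j : Fin T), (∑ e : μ.cells, if True then y (e, j) else 0) =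
      ∑ i ∈ range m, ∑ x ∈ range N, Y i x j.1 := by
    intro j
    simp only [if_true]
    have e2 : (∑ e : μ.cells, y (e, j)) = ∑ v ∈ μ.cells, Y v.1 v.2 j.1 :=
      Finset.sum_coe_sort μ.cells (fun v => Y v.1 v.2 j.1)
    rw [e2, cell_sum]
    apply Finset.sum_congr rfl
    intro i hi
    rw [Finset.mem_range] at hi
    apply Finset.sum_congr rfl
    intro x hx
    rw [Finset.mem_range] at hx
    split_ifs with h
    · rfl
    · exact (hYz i x j.1 hi hx h j.2).symm
  have hcount : ∀ t : ℕ, (∑ j : Fin T, if j.1 < t then (1 : ℝ) else 0) ≤ t := by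
    intro t
    rw [Finset.sum_boole]
    have h1 : (univ.filter (fun j : Fin T => j.1 < t)).card ≤ (range t).card := by
      apply Finset.card_le_card_of_injOn (fun j => j.1)
      · intro j hj
        rw [Finset.mem_coe, Finset.mem_filter] at hj
        exact Finset.mem_coe.mpr (Finset.mem_range.mpr hj.2)
      · intro j _ j' _ h
        exact Fin.ext h
    rw [Finset.card_range] at h1
    exact_mod_cast h1
  have hrowt : ∀ (i t : ℕ), i < m → ∑ p ∈ univ.filter
      (fun p : μ.cells × Fin T => p.1.1.1 = i ∧ p.2.1 < t), y p ≤ t := by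
    intro i t hi
    rw [hpart (fun e => e.1.1 = i) t]
    refine le_trans (Finset.sum_le_sum ?_) (hcount t)
    intro j _
    split_ifs
    · exact hrow1 i j hi
    · exact le_rfl
  have hcolt : ∀ (x t : ℕ), x < N → ∑ p ∈ univ.filter
      (fun p : μ.cells × Fin T => p.1.1.2 = x ∧ p.2.1 < t), y p ≤ t := by
    intro x t hx
    rw [hpart (fun e => e.1.2 = x) t]
    refine le_trans (Finset.sum_le_sum ?_) (hcount t)
    intro j _
    split_ifs
    · exact hcol1 x j hx
    · exact le_rfl
  have hcell1 : ∀ e : μ.cells, ∑ j : Fin T, y (e, j) = 1 := by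
    intro e
    obtain ⟨a, b, c⟩ := cell_lt μ e.1 e.2
    simp only [hy]
    rw [Fin.sum_univ_eq_sum_range (fun j => Y e.1.1 e.1.2 j) T, hY1 _ _ a b]
    rw [if_pos c]
  have htot : ∑ p, y p = n := by
    rw [Fintype.sum_prod_type, Finset.sum_congr rfl (fun e _ => hcell1 e), Finset.sum_const,
      Finset.card_univ, Fintype.card_coe, nsmul_eq_mul, mul_one]
  have htott : ∀ t : ℕ, (gcut m lam t : ℝ) ≤ ∑ p ∈ univ.filter
      (fun p : μ.cells × Fin T => True ∧ p.2.1 < t), y p := by
    intro t
    rcases Nat.lt_or_ge T t with h | h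
    · have h1 : univ.filter (fun p : μ.cells × Fin T => True ∧ p.2.1 < t) = univ := by
        apply Finset.filter_true_of_mem
        intro p _
        exact ⟨trivial, lt_trans p.2.2 h⟩
      rw [h1, htot, hcard]
      exact_mod_cast gcut_le_total m lam t
    · rw [hpart (fun _ => True) t]
      have h1 := hYt t
      rw [Finset.sum_const, Finset.card_range, smul_eq_mul, mul_one] at h1
      refine le_trans h1 (le_of_eq ?_)
      rw [Fin.sum_univ_eq_sum_range (fun j => if j < t then
        (∑ e : μ.cells, if True then Y e.1.1 e.1.2 j else 0) else 0) T]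
      rw [← Finset.sum_filter]
      have h2 : (range T).filter (fun j => j < t) = range t := by
        ext j
        simp only [Finset.mem_filter, Finset.mem_range]
        omega
      rw [h2]
      apply Finset.sum_congr rfl
      intro j hj
      rw [Finset.mem_range] at hj
      exact (htot1 ⟨j, by omega⟩).symm
  -- late entries vanish
  have hlate : ∀ (t : ℕ) (p : μ.cells × Fin T), n ≤ gcut m lam t → t ≤ p.2.1 → y p = 0 := by
    intro t p ht hp
    have h1 := htott t
    have h2 : (n : ℝ) ≤ ∑ p ∈ univ.filter
        (fun p : μ.cells × Fin T => True ∧ p.2.1 < t), y p :=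
      le_trans (by exact_mod_cast ht) h1
    have h3 := Finset.sum_filter_add_sum_filter_not univ
      (fun p : μ.cells × Fin T => True ∧ p.2.1 < t) y
    rw [htot] at h3
    have h4 : p ∈ univ.filter (fun p : μ.cells × Fin T => ¬ (True ∧ p.2.1 < t)) :=
      Finset.mem_filter.mpr ⟨Finset.mem_univ p, by
        rintro ⟨_, h⟩
        omega⟩
    have h5 := Finset.single_le_sum (f := y) (fun q _ => hy0 q) h4
    exact le_antisymm (by linarith) (hy0 p)
  have hgn : n ≤ gcut m lam n := gcut_ge m lam n (le_of_eq hcard)
  -- the number of fractional entries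
  have hfrac : (frac y).card ≤ n * n := by
    have h1 : frac y ⊆ (univ : Finset μ.cells) ×ˢ (univ.filter (fun j : Fin T => j.1 < n)) := by
      intro p hp
      rw [mem_frac] at hp
      rw [Finset.mem_product, Finset.mem_filter]
      refine ⟨Finset.mem_univ _, Finset.mem_univ _, ?_⟩
      by_contra hcon
      have h2 := hlate n p hgn (not_lt.mp hcon)
      rw [h2] at hp
      exact lt_irrefl _ hp.1
    refine le_trans (Finset.card_le_card h1) ?_
    rw [Finset.card_product, Finset.card_univ, Fintype.card_coe]
    apply Nat.mul_le_mul_left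
    have h2 : (univ.filter (fun j : Fin T => j.1 < n)).card ≤ (range n).card := by
      apply Finset.card_le_card_of_injOn (fun j => j.1)
      · intro j hj
        rw [Finset.mem_coe, Finset.mem_filter] at hj
        exact Finset.mem_coe.mpr (Finset.mem_range.mpr hj.2)
      · intro j _ j' _ h
        exact Fin.ext h
    rwa [Finset.card_range] at h2
  have hfuel := phases_enough n (frac y).card hfrac
  -- chains
  set M := Fintype.card μ.cells with hM
  set idx : μ.cells ≃ Fin M := Fintype.equivFin μ.cells with hidx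
  set key : μ.cells × Fin T → ℕ := fun p => p.2.1 * M + (idx p.1).1 with hkeydef
  have hkeylt : ∀ (p : μ.cells × Fin T) (t : ℕ), key p < t * M ↔ p.2.1 < t := by
    intro p t
    have h1 := (idx p.1).2
    simp only [hkeydef]
    constructor
    · intro h
      by_contra hcon
      have h2 : t * M ≤ p.2.1 * M := Nat.mul_le_mul_right _ (by omega)
      omega
    · intro h
      have h2 : (p.2.1 + 1) * M ≤ t * M := Nat.mul_le_mul_right _ (by omega)
      rw [Nat.add_mul, one_mul] at h2
      omega
  have hkey : Function.Injective key := by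
    intro p q h
    have h1 : p.2.1 = q.2.1 := by
      have h2 := (hkeylt p (q.2.1 + 1)).mp (by
        rw [h]
        exact (hkeylt q (q.2.1 + 1)).mpr (by omega))
      have h3 := (hkeylt q (p.2.1 + 1)).mp (by
        rw [← h]
        exact (hkeylt p (p.2.1 + 1)).mpr (by omega))
      omega
    have h2 : (idx p.1).1 = (idx q.1).1 := by
      simp only [hkeydef] at h
      rw [h1] at h
      omega
    exact Prod.ext (idx.injective (Fin.ext h2)) (Fin.ext h1)
  set S : (Fin m ⊕ (Fin N ⊕ Unit)) → Finset (μ.cells × Fin T) :=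
    fun r => match r with
    | Sum.inl i => univ.filter (fun p => p.1.1.1 = i.1)
    | Sum.inr (Sum.inl x) => univ.filter (fun p => p.1.1.2 = x.1)
    | Sum.inr (Sum.inr _) => univ.filter (fun _ => True) with hS
  have hS3 : ∀ p, (univ.filter (fun r => p ∈ S r)).card ≤ 3 := by
    rintro ⟨e, j⟩
    obtain ⟨a, b, c⟩ := cell_lt μ e.1 e.2
    refine le_trans (Finset.card_le_card (t := {Sum.inl ⟨e.1.1, a⟩,
      Sum.inr (Sum.inl ⟨e.1.2, b⟩), Sum.inr (Sum.inr ())}) ?_) Finset.card_le_three
    intro r hr
    rw [Finset.mem_filter] at hr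
    have hr2 := hr.2
    rcases r with i | x | u
    · simp only [hS, Finset.mem_filter, Finset.mem_univ, true_and] at hr2
      simp only [Finset.mem_insert, Sum.inl.injEq, Finset.mem_singleton,
        reduceCtorEq, or_false]
      exact Fin.ext hr2.symm
    · simp only [hS, Finset.mem_filter, Finset.mem_univ, true_and] at hr2
      simp only [Finset.mem_insert, Sum.inr.injEq, Sum.inl.injEq,
        Finset.mem_singleton, reduceCtorEq, or_false, false_or]
      exact Fin.ext hr2.symm
    · simp
  obtain ⟨φ, hφ1, hφ2, hφ3⟩ := chain_round (fun p : μ.cells × Fin T => p.1) key hkey S hS3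
    (5 * ℓ) y hy0 (by
      intro e
      rw [← hcell1 e]
      symm
      apply Finset.sum_bij (fun (j : Fin T) _ => ((e, j) : μ.cells × Fin T))
      · intro j _
        exact Finset.mem_filter.mpr ⟨Finset.mem_univ _, rfl⟩
      · intro j _ j' _ h
        exact (Prod.mk.inj h).2
      · intro p hp
        rw [Finset.mem_filter] at hp
        exact ⟨p.2, Finset.mem_univ _, Prod.ext hp.2.symm rfl⟩
      · intro j _
        rfl) hfuel
  set R := 55 * ℓ with hR
  have hRR : (11 : ℝ) * ((5 * ℓ : ℕ) : ℝ) = (R : ℝ) := by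
    rw [hR]
    push_cast
    ring
  set tm : μ.cells → ℕ := fun e => (φ e).2.1 with htm
  have hφfst : ∀ e, (φ e).1 = e := hφ1
  -- generic comparison
  have hcomp : ∀ (c : Fin m ⊕ (Fin N ⊕ Unit)) (cond : μ.cells → Prop) [DecidablePred cond]
      (t : ℕ), (∀ p, p ∈ S c ↔ cond p.1) →
      |((univ.filter (fun e : μ.cells => cond e ∧ tm e < t)).card : ℝ) -
        ∑ p ∈ univ.filter (fun p : μ.cells × Fin T => cond p.1 ∧ p.2.1 < t), y p| ≤ R := by
    intro c cond _ t hc
    have h1 := hφ3 c (t * M)
    rw [hRR] at h1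
    have h2 : univ.filter (fun e => φ e ∈ S c ∧ key (φ e) < t * M) =
        univ.filter (fun e : μ.cells => cond e ∧ tm e < t) := by
      apply Finset.filter_congr
      intro e _
      rw [hc, hkeylt, hφfst]
    have h3 : (S c).filter (fun p => key p < t * M) =
        univ.filter (fun p : μ.cells × Fin T => cond p.1 ∧ p.2.1 < t) := by
      ext p
      rw [Finset.mem_filter, Finset.mem_filter, hc, hkeylt]
      simp
    rw [h2, h3] at h1
    exact h1
  set tm' : ℕ × ℕ → ℕ := fun v => if h : v ∈ μ.cells then tm ⟨v, h⟩ else 0 with htm'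
  have htmeq : ∀ e : μ.cells, tm' e.1 = tm e := by
    intro e
    simp [htm', e.2]
  set U : ℕ → Finset (ℕ × ℕ) := fun t => μ.cells.filter (fun v => tm' v < t) with hU
  have hUmono : ∀ t, U t ⊆ U (t + 1) := by
    intro t v hv
    simp only [hU, Finset.mem_filter] at hv ⊢
    exact ⟨hv.1, by omega⟩
  have hUcard : ∀ (cond : ℕ × ℕ → Prop) [DecidablePred cond] (t : ℕ),
      ((U t).filter cond).card =
        (univ.filter (fun e : μ.cells => cond e.1 ∧ tm e < t)).card := by
    intro cond _ t
    simp only [hU]
    rw [Finset.filter_filter, card_filter_coe]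
    congr 1
    apply Finset.filter_congr
    intro e _
    rw [htmeq]
    exact and_comm
  have hUrow : ∀ t i, ((U t).filter (fun x => x.1 = i)).card ≤ t + R := by
    intro t i
    by_cases hi : i < m
    · rw [hUcard (fun x => x.1 = i) t]
      have h1 := hcomp (Sum.inl ⟨i, hi⟩) (fun e => e.1.1 = i) t (by
        intro p
        simp [hS])
      have h2 := hrowt i t hi
      have h3 := (abs_le.mp h1).2
      have h4 : ((univ.filter (fun e : μ.cells => e.1.1 = i ∧ tm e < t)).card : ℝ) ≤
          t + R := by linarith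
      exact_mod_cast h4
    · have h1 : (U t).filter (fun x => x.1 = i) = ∅ := by
        apply Finset.filter_eq_empty_iff.mpr
        intro v hv hvi
        have h2 := (cell_lt μ v (Finset.mem_filter.mp hv).1).1
        omega
      rw [h1]
      simp
  have hUcol : ∀ t i, ((U t).filter (fun x => x.2 = i)).card ≤ t + R := by
    intro t i
    by_cases hi : i < N
    · rw [hUcard (fun x => x.2 = i) t]
      have h1 := hcomp (Sum.inr (Sum.inl ⟨i, hi⟩)) (fun e => e.1.2 = i) t (by
        intro p
        simp [hS])
      have h2 := hcolt i t hi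
      have h3 := (abs_le.mp h1).2
      have h4 : ((univ.filter (fun e : μ.cells => e.1.2 = i ∧ tm e < t)).card : ℝ) ≤
          t + R := by linarith
      exact_mod_cast h4
    · have h1 : (U t).filter (fun x => x.2 = i) = ∅ := by
        apply Finset.filter_eq_empty_iff.mpr
        intro v hv hvi
        have h2 := (cell_lt μ v (Finset.mem_filter.mp hv).1).2.1
        omega
      rw [h1]
      simp
  have hUtot : ∀ t, gcut m lam t ≤ (U t).card + R := by
    intro t
    have h1 := hcomp (Sum.inr (Sum.inr ())) (fun _ => True) t (by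
      intro p
      simp [hS])
    have h2 := htott t
    have h3 := (abs_le.mp h1).1
    have h5 := hUcard (fun _ => True) t
    rw [Finset.filter_true_of_mem (fun _ _ => trivial)] at h5
    rw [← h5] at h3
    have h4 : (gcut m lam t : ℝ) ≤ (U t).card + R := by linarith
    exact_mod_cast h4
  have hUT : U T = μ.cells := by
    simp only [hU]
    apply Finset.filter_true_of_mem
    intro v hv
    have h1 := htmeq ⟨v, hv⟩
    simp only at h1
    rw [h1]
    exact (φ ⟨v, hv⟩).2.2
  obtain ⟨c, hc1, hc2, hc3⟩ := chain_col U hUmono R hUrow hUcol T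
  rw [hUT] at hc1 hc2 hc3
  refine ⟨c, hc1, ?_⟩
  intro k
  have hsum : k + 110 * ℓ = (k + R) + R := by rw [hR]; ring
  have hshow : k + 110 * (Nat.log 2 n + 1) = (k + R) + R := hsum
  rw [hshow]
  have hgk : gcut m lam k ≤ n := by
    rw [hcard]
    exact gcut_le_total m lam k
  rcases Nat.lt_or_ge T (k + R) with h | h
  · have h1 : μ.cells.filter (fun x => c x < k + R + R) = μ.cells := by
      apply Finset.filter_true_of_mem
      intro v hv
      have := hc2 v hv
      omega
    rw [h1]
    exact hgk
  · refine le_trans ?_ (hc3 (k + R) h)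
    rcases gcut_shift m lam k R with h1 | h1
    · rw [← hcard] at h1
      have h2 : U (k + R) = μ.cells := by
        simp only [hU]
        apply Finset.filter_true_of_mem
        intro v hv
        have h3 := htmeq ⟨v, hv⟩
        simp only at h3
        rw [h3]
        by_contra hcon
        have h4 := hlate (k + R) (φ ⟨v, hv⟩) h1 (not_lt.mp hcon)
        have h5 := hφ2 ⟨v, hv⟩
        rw [h4] at h5
        exact lt_irrefl _ h5
      rw [h2]
      exact hgk
    · have h2 := hUtot (k + R)
      omega

end Pool.MP_d56194_co
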