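import Mathlib
import Pool.Agent.Lib.MP_d56194_co.H.H2

set_option autoImplicit false

namespace Pool.MP_d56194_co

open Finset

/-- One phase of the rounding, for integral cell sums. -/
theorem phase_int {P E C : Type} [Fintype P] [Fintype E] [Fintype C] [DecidableEq P]
    [DecidableEq E] [DecidableEq C] (cell : P → E) (key : P → ℕ)
    (hkey : Function.Injective key) (S : C → Finset P)
    (hS : ∀ p, (univ.filter (fun c => p ∈ S c)).card ≤ 3) (y : P → ℝ) (h0 : ∀ p, 0 ≤ y p)
    (hy1 : ∀ p, y p ≤ 1)
    (h1 : ∀ e, ∃ k : ℤ, ∑ p ∈ univ.filter (fun p => cell p = e), y p = k) :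
    ∃ y' : P → ℝ, (∀ p, 0 ≤ y' p) ∧ (∀ p, y' p ≤ 1) ∧
      (∀ e, ∑ p ∈ univ.filter (fun p => cell p = e), y' p =
        ∑ p ∈ univ.filter (fun p => cell p = e), y p) ∧
      (∀ p, p ∉ frac y → y' p = y p) ∧ 4 * (frac y').card ≤ 3 * (frac y).card ∧
      ∀ c κ, |∑ p ∈ (S c).filter (fun p => key p < κ), (y' p - y p)| ≤ 11 := by
  classical
  set F := frac y with hF
  set Ec : Finset E := F.image cell with hEc
  set Nc : C → ℕ := fun c => (S c ∩ F).card with hNc
  set cons : Finset (E ⊕ (C × ℕ)) := Ec.image Sum.inl ∪
    (univ : Finset C).biUnion (fun c => (range (Nc c / 12)).image (fun q => Sum.inr (c, q)))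
    with hcons
  set L : E ⊕ (C × ℕ) → P → ℝ := fun r p => match r with
    | Sum.inl e => if cell p = e then 1 else 0
    | Sum.inr (c, q) => if p ∈ S c ∧ p ∈ F ∧ rnk y key (S c) (key p) / 12 = q then 1 else 0
    with hL
  have hN : ∑ c, Nc c ≤ 3 * F.card := by
    have h2 : ∀ c, Nc c = ∑ p ∈ F, if p ∈ S c then 1 else 0 := by
      intro c
      simp only [hNc]
      rw [Finset.sum_boole, Nat.cast_id]
      congr 1
      ext p
      simp only [Finset.mem_inter, Finset.mem_filter]
      exact and_comm
    rw [Finset.sum_congr rfl (fun c _ => h2 c), Finset.sum_comm]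
    have h3 : ∀ p ∈ F, ∑ c, (if p ∈ S c then 1 else 0) ≤ 3 := by
      intro p _
      rw [Finset.sum_boole, Nat.cast_id]
      exact hS p
    refine le_trans (Finset.sum_le_sum h3) ?_
    rw [Finset.sum_const, smul_eq_mul, mul_comm]
  have hE : 2 * Ec.card ≤ F.card := by
    have h2 : F.card = ∑ e ∈ Ec, (F.filter (fun p => cell p = e)).card :=
      Finset.card_eq_sum_card_image cell F
    rw [h2, mul_comm, ← smul_eq_mul, ← Finset.sum_const]
    apply Finset.sum_le_sum
    intro e he
    rw [hEc, Finset.mem_image] at he
    obtain ⟨p, hp, rfl⟩ := he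
    by_contra hcon
    have h3 : (F.filter (fun q => cell q = cell p)).card ≤ 1 := by omega
    have hpf := (mem_frac y p).mp hp
    have h4 : ∀ q ∈ univ.filter (fun q => cell q = cell p), q ≠ p → y q = 0 ∨ y q = 1 := by
      intro q hq hqp
      rw [Finset.mem_filter] at hq
      by_contra hc2
      push Not at hc2
      have h5 : q ∈ F := (mem_frac y q).mpr ⟨lt_of_le_of_ne (h0 q) (Ne.symm hc2.1),
        lt_of_le_of_ne (hy1 q) hc2.2⟩
      exact hqp (Finset.card_le_one.mp h3 q (Finset.mem_filter.mpr ⟨h5, hq.2⟩) p
        (Finset.mem_filter.mpr ⟨hp, rfl⟩))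
    obtain ⟨k, h5⟩ := h1 (cell p)
    have h6 : p ∈ univ.filter (fun q => cell q = cell p) :=
      Finset.mem_filter.mpr ⟨Finset.mem_univ p, rfl⟩
    rw [← Finset.add_sum_erase _ _ h6] at h5
    have h7 : ∑ q ∈ (univ.filter (fun q => cell q = cell p)).erase p, y q =
        ((((univ.filter (fun q => cell q = cell p)).erase p).filter
          (fun q => y q = 1)).card : ℝ) := by
      rw [Finset.card_filter, Nat.cast_sum]
      apply Finset.sum_congr rfl
      intro q hq
      rcases h4 q (Finset.mem_of_mem_erase hq) (Finset.ne_of_mem_erase hq) with h | h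
      · rw [h, if_neg (by norm_num)]
        simp
      · rw [if_pos h, h]
        simp
    rw [h7] at h5
    have h8 : y p = ((k - ((((univ.filter (fun q => cell q = cell p)).erase p).filter
          (fun q => y q = 1)).card : ℤ) : ℤ) : ℝ) := by
      push_cast
      linarith
    have h9 := hpf.1
    have h10 := hpf.2
    rw [h8] at h9 h10
    have h11 : (0 : ℤ) < k - ((((univ.filter (fun q => cell q = cell p)).erase p).filter
          (fun q => y q = 1)).card : ℤ) := by exact_mod_cast h9
    have h12 : k - ((((univ.filter (fun q => cell q = cell p)).erase p).filter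
          (fun q => y q = 1)).card : ℤ) < (1 : ℤ) := by exact_mod_cast h10
    omega
  have hcc : 4 * cons.card ≤ 3 * F.card := by
    have h2 : cons.card ≤ Ec.card + ∑ c, Nc c / 12 := by
      refine le_trans (Finset.card_union_le _ _) ?_
      apply Nat.add_le_add
      · exact Finset.card_image_le
      · refine le_trans Finset.card_biUnion_le ?_
        apply Finset.sum_le_sum
        intro c _
        refine le_trans Finset.card_image_le ?_
        rw [Finset.card_range]
    have h3 : 12 * ∑ c, Nc c / 12 ≤ ∑ c, Nc c := by
      rw [Finset.mul_sum]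
      apply Finset.sum_le_sum
      intro c _
      exact Nat.mul_div_le _ _
    omega
  obtain ⟨y', g0, g1, g2, g3, g4⟩ := exists_vertex cons L _ y le_rfl h0 hy1
  refine ⟨y', g0, g1, ?_, g2, by omega, ?_⟩
  · intro e
    by_cases he : e ∈ Ec
    · have h2 := g3 (Sum.inl e) (Finset.mem_union_left _ (Finset.mem_image_of_mem _ he))
      simp only [hL, ite_mul, one_mul, zero_mul] at h2
      rw [Finset.sum_filter, Finset.sum_filter]
      exact h2
    · apply Finset.sum_congr rfl
      intro p hp
      apply g2
      intro hpF
      rw [Finset.mem_filter] at hp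
      exact he (hp.2 ▸ Finset.mem_image_of_mem cell hpF)
  · intro c κ
    set r0 := rnk y key (S c) κ with hr0
    set D : Finset P := (S c ∩ F) with hD
    have hd1 : ∑ p ∈ (S c).filter (fun p => key p < κ), (y' p - y p) =
        ∑ p ∈ D.filter (fun p => rnk y key (S c) (key p) < r0), (y' p - y p) := by
      symm
      apply Finset.sum_subset_zero_on_sdiff
      · intro p hp
        rw [Finset.mem_filter, hD, Finset.mem_inter] at hp
        exact Finset.mem_filter.mpr ⟨hp.1.1,
          (rnk_iff y key (S c) p hp.1.1 hp.1.2 κ).mp hp.2⟩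
      · intro p hp
        rw [Finset.mem_sdiff, Finset.mem_filter] at hp
        have hpF : p ∉ F := by
          intro hpF
          apply hp.2
          rw [Finset.mem_filter, hD, Finset.mem_inter]
          exact ⟨⟨hp.1.1, hpF⟩, (rnk_iff y key (S c) p hp.1.1 hpF κ).mpr hp.1.2⟩
        rw [g2 p hpF, sub_self]
      · intro p _
        rfl
    rw [hd1]
    have hd2 : D.filter (fun p => rnk y key (S c) (key p) < r0) =
        D.filter (fun p => rnk y key (S c) (key p) / 12 < r0 / 12) ∪
          D.filter (fun p => rnk y key (S c) (key p) / 12 = r0 / 12 ∧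
            rnk y key (S c) (key p) < r0) := by
      ext p
      simp only [Finset.mem_filter, Finset.mem_union]
      constructor
      · rintro ⟨h2, h3⟩
        by_cases h4 : rnk y key (S c) (key p) / 12 < r0 / 12
        · exact Or.inl ⟨h2, h4⟩
        · exact Or.inr ⟨h2, by omega, h3⟩
      · rintro (⟨h2, h3⟩ | ⟨h2, h3, h4⟩)
        · exact ⟨h2, by omega⟩
        · exact ⟨h2, h4⟩
    rw [hd2, Finset.sum_union]
    · have hz : ∑ p ∈ D.filter (fun p => rnk y key (S c) (key p) / 12 < r0 / 12),
          (y' p - y p) = 0 := by
        have h2 : ∑ p ∈ D.filter (fun p => rnk y key (S c) (key p) / 12 < r0 / 12),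
            (y' p - y p) = ∑ q ∈ range (r0 / 12),
              ∑ p ∈ D.filter (fun p => rnk y key (S c) (key p) / 12 = q), (y' p - y p) := by
          rw [← Finset.sum_fiberwise_of_maps_to (t := range (r0 / 12))
            (g := fun p => rnk y key (S c) (key p) / 12)]
          · apply Finset.sum_congr rfl
            intro q hq
            rw [Finset.mem_range] at hq
            apply Finset.sum_congr _ (fun _ _ => rfl)
            ext p
            simp only [Finset.mem_filter]
            constructor
            · rintro ⟨⟨h2, _⟩, h4⟩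
              exact ⟨h2, h4⟩
            · rintro ⟨h2, h3⟩
              exact ⟨⟨h2, by omega⟩, h3⟩
          · intro p hp
            rw [Finset.mem_filter] at hp
            exact Finset.mem_range.mpr hp.2
        rw [h2]
        apply Finset.sum_eq_zero
        intro q hq
        rw [Finset.mem_range] at hq
        have h3 : q < Nc c / 12 := by
          have h4 : r0 ≤ Nc c := rnk_le y key (S c) κ
          have h5 : r0 / 12 ≤ Nc c / 12 := Nat.div_le_div_right h4
          omega
        have h4 := g3 (Sum.inr (c, q)) (Finset.mem_union_right _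
          (Finset.mem_biUnion.mpr ⟨c, Finset.mem_univ c,
            Finset.mem_image.mpr ⟨q, Finset.mem_range.mpr h3, rfl⟩⟩))
        simp only [hL, ite_mul, one_mul, zero_mul] at h4
        have h5 : D.filter (fun p => rnk y key (S c) (key p) / 12 = q) =
            univ.filter (fun p => p ∈ S c ∧ p ∈ F ∧ rnk y key (S c) (key p) / 12 = q) := by
          ext p
          simp only [hD, Finset.mem_filter, Finset.mem_inter, Finset.mem_univ, true_and]
          exact and_assoc
        rw [h5, Finset.sum_sub_distrib, Finset.sum_filter, Finset.sum_filter, h4, sub_self]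
      rw [hz, zero_add]
      refine le_trans (Finset.abs_sum_le_sum_abs _ _) ?_
      have h2 : ∀ p ∈ D.filter (fun p => rnk y key (S c) (key p) / 12 = r0 / 12 ∧
            rnk y key (S c) (key p) < r0), |y' p - y p| ≤ 1 := by
        intro p _
        rw [abs_le]
        constructor
        · linarith [g0 p, hy1 p]
        · linarith [g1 p, h0 p]
      refine le_trans (Finset.sum_le_card_nsmul _ _ 1 h2) ?_
      rw [nsmul_eq_mul, mul_one]
      have h3 : (D.filter (fun p => rnk y key (S c) (key p) / 12 = r0 / 12 ∧
            rnk y key (S c) (key p) < r0)).card ≤ 11 := by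
        have h4 : (Finset.Ico (12 * (r0 / 12)) r0).card ≤ 11 := by
          rw [Nat.card_Ico]
          omega
        refine le_trans ?_ h4
        apply Finset.card_le_card_of_injOn (fun p => rnk y key (S c) (key p))
        · intro p hp
          rw [Finset.mem_coe, Finset.mem_filter] at hp
          have h5 := hp.2
          refine Finset.mem_coe.mpr (Finset.mem_Ico.mpr ⟨?_, ?_⟩)
          · show 12 * (r0 / 12) ≤ rnk y key (S c) (key p)
            omega
          · show rnk y key (S c) (key p) < r0
            omega
        · intro p hp q hq hpq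
          rw [Finset.mem_coe, Finset.mem_filter, hD, Finset.mem_inter] at hp hq
          simp only at hpq
          apply hkey
          rcases lt_trichotomy (key p) (key q) with h | h | h
          · have := rnk_lt y key (S c) p hp.1.1 hp.1.2 _ h
            omega
          · exact h
          · have := rnk_lt y key (S c) q hq.1.1 hq.1.2 _ h
            omega
      exact_mod_cast h3
    · rw [Finset.disjoint_left]
      intro p hp hq
      rw [Finset.mem_filter] at hp hq
      omega

/-- Rounding with integral cell sums: for all chains and all initial segments of a chain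
the error is at most `11 L`, `L` being logarithmic in the number of fractional entries. -/
theorem chain_round_int {P E C : Type} [Fintype P] [Fintype E] [Fintype C] [DecidableEq P]
    [DecidableEq E] [DecidableEq C] (cell : P → E) (key : P → ℕ)
    (hkey : Function.Injective key) (S : C → Finset P)
    (hS : ∀ p, (univ.filter (fun c => p ∈ S c)).card ≤ 3) (L : ℕ) :
    ∀ (y : P → ℝ), (∀ p, 0 ≤ y p) → (∀ p, y p ≤ 1) →
      (∀ e, ∃ k : ℤ, ∑ p ∈ univ.filter (fun p => cell p = e), y p = k) →
      (frac y).card * 3 ^ L < 4 ^ L →
      ∃ z : P → ℕ, (∀ e, ∑ p ∈ univ.filter (fun p => cell p = e), (z p : ℝ) =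
        ∑ p ∈ univ.filter (fun p => cell p = e), y p) ∧
        ∀ c κ, |∑ p ∈ (S c).filter (fun p => key p < κ), ((z p : ℝ) - y p)| ≤ 11 * L := by
  classical
  induction L with
  | zero =>
    intro y h0 hy1 h1 hL
    have hF : frac y = ∅ := by
      rw [← Finset.card_eq_zero]
      simp only [pow_zero, mul_one] at hL
      omega
    have h01 : ∀ p, y p = 0 ∨ y p = 1 := by
      intro p
      by_contra hcon
      push Not at hcon
      have h2 : p ∈ frac y := (mem_frac y p).mpr ⟨lt_of_le_of_ne (h0 p) (Ne.symm hcon.1),
        lt_of_le_of_ne (hy1 p) hcon.2⟩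
      rw [hF] at h2
      exact absurd h2 (Finset.notMem_empty p)
    have hz : ∀ p, (((if y p = 1 then 1 else 0 : ℕ)) : ℝ) = y p := by
      intro p
      rcases h01 p with h | h
      · rw [h, if_neg (by norm_num)]
        simp
      · rw [if_pos h, h]
        simp
    refine ⟨fun p => if y p = 1 then 1 else 0, ?_, ?_⟩
    · intro e
      exact Finset.sum_congr rfl (fun p _ => hz p)
    · intro c κ
      have h2 : ∑ p ∈ (S c).filter (fun p => key p < κ),
          ((((fun p => if y p = 1 then 1 else 0 : P → ℕ) p : ℕ) : ℝ) - y p) = 0 := by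
        apply Finset.sum_eq_zero
        intro p _
        rw [hz p, sub_self]
      rw [h2, abs_zero]
      simp
  | succ L ih =>
    intro y h0 hy1 h1 hL
    obtain ⟨y', g0, g01, g1, g2, g3, g4⟩ := phase_int cell key hkey S hS y h0 hy1 h1
    have h5 : (frac y').card * 3 ^ L < 4 ^ L := by
      have h6 : 4 * ((frac y').card * 3 ^ L) < 4 * 4 ^ L := by
        calc 4 * ((frac y').card * 3 ^ L) = (4 * (frac y').card) * 3 ^ L := by ring
          _ ≤ (3 * (frac y).card) * 3 ^ L := Nat.mul_le_mul_right _ g3
          _ = (frac y).card * 3 ^ (L + 1) := by ring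
          _ < 4 ^ (L + 1) := hL
          _ = 4 * 4 ^ L := by ring
      omega
    obtain ⟨z, f1, f2⟩ := ih y' g0 g01 (fun e => by rw [g1 e]; exact h1 e) h5
    refine ⟨z, ?_, ?_⟩
    · intro e
      rw [f1 e, g1 e]
    · intro c κ
      have h6 := f2 c κ
      have h7 := g4 c κ
      have h8 : ∑ p ∈ (S c).filter (fun p => key p < κ), ((z p : ℝ) - y p) =
          ∑ p ∈ (S c).filter (fun p => key p < κ), ((z p : ℝ) - y' p) +
          ∑ p ∈ (S c).filter (fun p => key p < κ), (y' p - y p) := by
        rw [← Finset.sum_add_distrib]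
        apply Finset.sum_congr rfl
        intro p _
        ring
      rw [h8]
      refine le_trans (abs_add_le _ _) ?_
      push_cast
      linarith

end Pool.MP_d56194_co
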