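import Mathlib
import Pool.Agent.Lib.MP_d56194_co.D1

set_option autoImplicit false

namespace Pool.MP_d56194_co

open Finset

theorem koenig' {E A B : Type} [Fintype E] [DecidableEq E] [DecidableEq A] [DecidableEq B]
    (f : E → A) (g : E → B) (q : ℕ)
    (hf : ∀ a, (univ.filter (fun e => f e = a)).card ≤ q)
    (hg : ∀ b, (univ.filter (fun e => g e = b)).card ≤ q) :
    ∃ κ : E → ℕ, (∀ e, κ e < q) ∧ (∀ e e', f e = f e' → κ e = κ e' → e = e') ∧
      (∀ e e', g e = g e' → κ e = κ e' → e = e') := by
  classical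
  obtain ⟨κ, h1, h2, h3⟩ := koenig
    (fun e => (⟨f e, Finset.mem_image_of_mem f (Finset.mem_univ e)⟩ : ↥(univ.image f)))
    (fun e => (⟨g e, Finset.mem_image_of_mem g (Finset.mem_univ e)⟩ : ↥(univ.image g))) q
    (by
      intro a
      refine le_trans (Finset.card_le_card ?_) (hf a.1)
      intro e he
      rw [Finset.mem_filter] at he ⊢
      exact ⟨he.1, congrArg Subtype.val he.2⟩)
    (by
      intro a
      refine le_trans (Finset.card_le_card ?_) (hg a.1)
      intro e he
      rw [Finset.mem_filter] at he ⊢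
      exact ⟨he.1, congrArg Subtype.val he.2⟩)
  exact ⟨κ, h1, fun e e' h => h2 e e' (Subtype.ext h), fun e e' h => h3 e e' (Subtype.ext h)⟩

/-- rank of `e` among the elements with the same value of `f`, ordered by `key` -/
def rkey {E A : Type} [Fintype E] [DecidableEq A] (f : E → A) (key : E → ℕ) (e : E) : ℕ :=
  (univ.filter (fun e' => f e' = f e ∧ key e' < key e)).card

theorem rkey_lt {E A : Type} [Fintype E] [DecidableEq A] (f : E → A) (key : E → ℕ) (e : E)
    (t : ℕ) (h : key e < t) :
    rkey f key e < (univ.filter (fun e' => f e' = f e ∧ key e' < t)).card := by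
  classical
  apply Finset.card_lt_card
  rw [Finset.ssubset_iff_of_subset]
  · refine ⟨e, Finset.mem_filter.mpr ⟨Finset.mem_univ e, rfl, h⟩, ?_⟩
    intro hq
    exact absurd (Finset.mem_filter.mp hq).2.2 (lt_irrefl _)
  · intro q hq
    rw [Finset.mem_filter] at hq ⊢
    exact ⟨hq.1, hq.2.1, by omega⟩

theorem rkey_inj {E A : Type} [Fintype E] [DecidableEq A] (f : E → A) (key : E → ℕ)
    (hkey : Function.Injective key) (e e' : E) (hf : f e = f e')
    (h : rkey f key e = rkey f key e') : e = e' := by
  classical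
  apply hkey
  rcases lt_trichotomy (key e) (key e') with hlt | heq | hlt
  · have h1 := rkey_lt f key e (key e') hlt
    rw [hf] at h1
    unfold rkey at h h1
    omega
  · exact heq
  · have h1 := rkey_lt f key e' (key e) hlt
    rw [← hf] at h1
    unfold rkey at h h1
    omega

theorem group_card {E A : Type} [Fintype E] [DecidableEq E] [DecidableEq A] (f : E → A)
    (key : E → ℕ) (hkey : Function.Injective key) (q : ℕ) (hq : 0 < q) (p : A × ℕ) :
    (univ.filter (fun e => (f e, rkey f key e / q) = p)).card ≤ q := by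
  classical
  obtain ⟨a, k⟩ := p
  have h1 : (Finset.Ico (k * q) (k * q + q)).card = q := by
    rw [Nat.card_Ico]
    omega
  refine le_trans ?_ (le_of_eq h1)
  apply Finset.card_le_card_of_injOn (fun e => rkey f key e)
  · intro e he
    rw [Finset.mem_coe, Finset.mem_filter, Prod.mk.injEq] at he
    refine Finset.mem_coe.mpr (Finset.mem_Ico.mpr ?_)
    have h2 := he.2.2
    have h3 := Nat.div_add_mod (rkey f key e) q
    have h4 := Nat.mod_lt (rkey f key e) hq
    rw [h2] at h3
    have h5 : q * k = k * q := Nat.mul_comm _ _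
    constructor
    · show k * q ≤ rkey f key e
      omega
    · show rkey f key e < k * q + q
      omega
  · intro e he e' he' hee
    rw [Finset.mem_coe, Finset.mem_filter, Prod.mk.injEq] at he he'
    exact rkey_inj f key hkey e e' (by rw [he.2.1, he'.2.1]) hee

theorem class_card {E A : Type} [Fintype E] [DecidableEq E] [DecidableEq A] (f : E → A)
    (key : E → ℕ) (q : ℕ) (hq : 0 < q) (κ : E → ℕ)
    (hκ : ∀ e e', (f e, rkey f key e / q) = (f e', rkey f key e' / q) → κ e = κ e' → e = e')
    (a : A) (t c : ℕ) :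
    (univ.filter (fun e => f e = a ∧ key e < t ∧ κ e = c)).card * q ≤
      (univ.filter (fun e => f e = a ∧ key e < t)).card + (q - 1) := by
  classical
  set p := (univ.filter (fun e => f e = a ∧ key e < t)).card with hp
  have h1 : (univ.filter (fun e => f e = a ∧ key e < t ∧ κ e = c)).card ≤
      (range ((p + (q - 1)) / q)).card := by
    apply Finset.card_le_card_of_injOn (fun e => rkey f key e / q)
    · intro e he
      rw [Finset.mem_coe, Finset.mem_filter] at he
      refine Finset.mem_coe.mpr (Finset.mem_range.mpr ?_)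
      show rkey f key e / q < (p + (q - 1)) / q
      have h2 := rkey_lt f key e t he.2.2.1
      rw [he.2.1] at h2
      have h3 : rkey f key e + 1 ≤ p := h2
      have h4 : (rkey f key e + q) / q ≤ (p + (q - 1)) / q :=
        Nat.div_le_div_right (by omega)
      rw [Nat.add_div_right _ hq] at h4
      omega
    · intro e he e' he' hee
      rw [Finset.mem_coe, Finset.mem_filter] at he he'
      refine hκ e e' ?_ (by rw [he.2.2.2, he'.2.2.2])
      rw [Prod.mk.injEq]
      exact ⟨by rw [he.2.1, he'.2.1], hee⟩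
  rw [Finset.card_range] at h1
  exact le_trans (Nat.mul_le_mul_right q h1) (Nat.div_mul_le_self _ _)

/-- Splitting into `q` parts which is balanced for all initial segments of the given order. -/
theorem split_chain {E A B : Type} [Fintype E] [DecidableEq E] [DecidableEq A] [DecidableEq B]
    (f : E → A) (g : E → B) (key : E → ℕ) (hkey : Function.Injective key) (q : ℕ)
    (hq : 0 < q) :
    ∃ κ : E → ℕ, (∀ e, κ e < q) ∧
      (∀ a t c, (univ.filter (fun e => f e = a ∧ key e < t ∧ κ e = c)).card * q ≤
        (univ.filter (fun e => f e = a ∧ key e < t)).card + (q - 1)) ∧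
      (∀ b t c, (univ.filter (fun e => g e = b ∧ key e < t ∧ κ e = c)).card * q ≤
        (univ.filter (fun e => g e = b ∧ key e < t)).card + (q - 1)) := by
  classical
  obtain ⟨κ, h1, h2, h3⟩ := koenig' (fun e => (f e, rkey f key e / q))
    (fun e => (g e, rkey g key e / q)) q (group_card f key hkey q hq)
    (group_card g key hkey q hq)
  exact ⟨κ, h1, class_card f key q hq κ h2, class_card g key q hq κ h3⟩

/-- The same with a number of parts which depends on the vertex; the parts at the vertex `l`
are named by the elements of `Rws l`. -/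
theorem balance {E : Type} [Fintype E] [DecidableEq E] (a b : E → ℕ) (key : E → ℕ)
    (hkey : Function.Injective key) (Rws : ℕ → Finset ℕ) (hR : ∀ e, (Rws (a e)).Nonempty) :
    ∃ ρ : E → ℕ, (∀ e, ρ e ∈ Rws (a e)) ∧
      (∀ l t i, i ∈ Rws l →
        (univ.filter (fun e => a e = l ∧ key e < t ∧ ρ e = i)).card * (Rws l).card ≤
        (univ.filter (fun e => a e = l ∧ key e < t)).card + ((Rws l).card - 1)) ∧
      (∀ l h t i, i ∈ Rws l →
        (univ.filter (fun e => (a e = l ∧ b e = h) ∧ key e < t ∧ ρ e = i)).card *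
          (Rws l).card ≤
        (univ.filter (fun e => (a e = l ∧ b e = h) ∧ key e < t)).card +
          ((Rws l).card - 1)) := by
  classical
  have hex : ∀ l : ℕ, ∃ κ : E → ℕ, (∀ e, a e = l → κ e < (Rws l).card) ∧
      (0 < (Rws l).card →
      (∀ t c, (univ.filter (fun e => a e = l ∧ key e < t ∧ κ e = c)).card * (Rws l).card ≤
        (univ.filter (fun e => a e = l ∧ key e < t)).card + ((Rws l).card - 1)) ∧
      (∀ h t c, (univ.filter (fun e => (a e = l ∧ b e = h) ∧ key e < t ∧ κ e = c)).card *
          (Rws l).card ≤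
        (univ.filter (fun e => (a e = l ∧ b e = h) ∧ key e < t)).card +
          ((Rws l).card - 1))) := by
    intro l
    rcases Nat.eq_zero_or_pos (Rws l).card with h0 | h0
    · refine ⟨fun _ => 0, ?_, fun h => absurd h (by omega)⟩
      intro e he
      have := hR e
      rw [he] at this
      exact Finset.card_pos.mpr this
    · obtain ⟨κ, h1, h2, h3⟩ := split_chain a (fun e => (a e, b e)) key hkey (Rws l).card h0
      refine ⟨κ, fun e _ => h1 e, fun _ => ⟨h2 l, ?_⟩⟩
      intro h t c
      have h4 := h3 (l, h) t c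
      simp only [Prod.mk.injEq] at h4
      exact h4
  choose κ hκ1 hκ2 using hex
  have hlt : ∀ e, κ (a e) e < (Rws (a e)).card := fun e => hκ1 (a e) e rfl
  set ρ : E → ℕ := fun e => ((Rws (a e)).equivFin.symm ⟨κ (a e) e, hlt e⟩).1 with hρ
  have hρmem : ∀ e, ρ e ∈ Rws (a e) := fun e =>
    ((Rws (a e)).equivFin.symm ⟨κ (a e) e, hlt e⟩).2
  have hidx : ∀ l i (hi : i ∈ Rws l) e, a e = l → ρ e = i →
      κ l e = ((Rws l).equivFin ⟨i, hi⟩).1 := by
    intro l i hi e hal hρi
    subst hal
    have h1 : (Rws (a e)).equivFin.symm ⟨κ (a e) e, hlt e⟩ = ⟨i, hi⟩ := Subtype.ext hρi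
    rw [Equiv.symm_apply_eq] at h1
    rw [← h1]
  refine ⟨ρ, hρmem, ?_, ?_⟩
  · intro l t i hi
    have hpos : 0 < (Rws l).card := Finset.card_pos.mpr ⟨i, hi⟩
    refine le_trans (Nat.mul_le_mul_right _ ?_)
      ((hκ2 l hpos).1 t ((Rws l).equivFin ⟨i, hi⟩).1)
    apply Finset.card_le_card
    intro e he
    rw [Finset.mem_filter] at he ⊢
    exact ⟨he.1, he.2.1, he.2.2.1, hidx l i hi e he.2.1 he.2.2.2⟩
  · intro l h t i hi
    have hpos : 0 < (Rws l).card := Finset.card_pos.mpr ⟨i, hi⟩
    refine le_trans (Nat.mul_le_mul_right _ ?_)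
      ((hκ2 l hpos).2 h t ((Rws l).equivFin ⟨i, hi⟩).1)
    apply Finset.card_le_card
    intro e he
    rw [Finset.mem_filter] at he ⊢
    exact ⟨he.1, he.2.1, he.2.2.1, hidx l i hi e he.2.1.1 he.2.2.2⟩

end Pool.MP_d56194_co
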