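import Mathlib
import Pool.Agent.Lib.MP_d56194_co.G.G8
import Pool.Agent.Lib.MP_d56194_co.H.H6

set_option autoImplicit false

namespace Pool.MP_d56194_co

open Finset

/-- for a fixed `a` the cut value is piecewise linear in `b`; the breakpoints are values of
`lam` -/
theorem grid_one (m : ℕ) (lam : ℕ → ℕ) (k a b : ℕ) :
    ∃ b', (b' = 0 ∨ ∃ i, i < m ∧ lam i = b') ∧ ct m lam 1 k a b' ≤ ct m lam 1 k a b := by
  classical
  set V : Finset ℕ := insert 0 ((range m).image lam) with hV
  have hV0 : (0 : ℕ) ∈ V := Finset.mem_insert_self _ _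
  have hVi : ∀ i, i < m → lam i ∈ V := fun i hi =>
    Finset.mem_insert_of_mem (Finset.mem_image_of_mem _ (Finset.mem_range.mpr hi))
  have hVmem : ∀ v ∈ V, v = 0 ∨ ∃ i, i < m ∧ lam i = v := by
    intro v hv
    rw [hV, Finset.mem_insert, Finset.mem_image] at hv
    rcases hv with h | ⟨i, hi, h⟩
    · exact Or.inl h
    · exact Or.inr ⟨i, Finset.mem_range.mp hi, h⟩
  obtain ⟨bm, hbm, hbmax⟩ := Finset.exists_max_image (V.filter (fun v => v ≤ b)) id
    ⟨0, Finset.mem_filter.mpr ⟨hV0, Nat.zero_le _⟩⟩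
  rw [Finset.mem_filter] at hbm
  have hlow : ∀ v ∈ V, v ≤ b → v ≤ bm := fun v hv h =>
    hbmax v (Finset.mem_filter.mpr ⟨hv, h⟩)
  by_cases hex : ∃ v ∈ V, b < v
  · obtain ⟨v0, hv0, hv0b⟩ := hex
    obtain ⟨bp, hbp, hbmin⟩ := Finset.exists_min_image (V.filter (fun v => b < v)) id
      ⟨v0, Finset.mem_filter.mpr ⟨hv0, hv0b⟩⟩
    rw [Finset.mem_filter] at hbp
    have hhigh : ∀ v ∈ V, b < v → bp ≤ v := fun v hv h =>
      hbmin v (Finset.mem_filter.mpr ⟨hv, h⟩)
    set p := ((Ico a m).filter (fun i => b < lam i)).card with hp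
    set G := ∑ i ∈ (Ico a m).filter (fun i => b < lam i), lam i with hG
    have hD : ∀ v, bm ≤ v → v ≤ bp → ∑ i ∈ Ico a m, 1 * (lam i - v) + p * v = G := by
      intro v h1 h2
      have h3 : ∑ i ∈ Ico a m, 1 * (lam i - v) =
          ∑ i ∈ (Ico a m).filter (fun i => b < lam i), (lam i - v) := by
        rw [Finset.sum_filter]
        apply Finset.sum_congr rfl
        intro i hi
        rw [Finset.mem_Ico] at hi
        split_ifs with h4
        · rw [one_mul]
        · have := hlow (lam i) (hVi i hi.2) (by omega)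
          omega
      rw [h3, hp, Finset.card_eq_sum_ones, Finset.sum_mul, ← Finset.sum_add_distrib, hG]
      apply Finset.sum_congr rfl
      intro i hi
      rw [Finset.mem_filter, Finset.mem_Ico] at hi
      have := hhigh (lam i) (hVi i hi.1.2) hi.2
      omega
    have d1 := hD bm le_rfl (by omega)
    have d2 := hD b hbm.2 (by omega)
    have d3 := hD bp (by omega) le_rfl
    rcases Nat.le_total p k with h | h
    · refine ⟨bm, hVmem bm hbm.1, ?_⟩
      obtain ⟨δ, rfl⟩ := Nat.exists_eq_add_of_le h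
      unfold ct
      have h5 : δ * bm ≤ δ * b := Nat.mul_le_mul_left _ hbm.2
      have e1 : (p + δ) * (a + bm) = (p + δ) * a + p * bm + δ * bm := by ring
      have e2 : (p + δ) * (a + b) = (p + δ) * a + p * b + δ * b := by ring
      rw [e1, e2]
      omega
    · refine ⟨bp, hVmem bp hbp.1, ?_⟩
      obtain ⟨δ, hδ⟩ := Nat.exists_eq_add_of_le h
      rw [hδ] at d2 d3
      unfold ct
      have h5 : δ * b ≤ δ * bp := Nat.mul_le_mul_left _ hbp.2.le
      have e1 : k * (a + bp) = k * a + k * bp := by ring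
      have e2 : k * (a + b) = k * a + k * b := by ring
      have e3 : (k + δ) * b = k * b + δ * b := by ring
      have e4 : (k + δ) * bp = k * bp + δ * bp := by ring
      rw [e3] at d2
      rw [e4] at d3
      rw [e1, e2]
      omega
  · push Not at hex
    refine ⟨bm, hVmem bm hbm.1, ?_⟩
    unfold ct
    have h1 : ∑ i ∈ Ico a m, 1 * (lam i - bm) = 0 := by
      apply Finset.sum_eq_zero
      intro i hi
      rw [Finset.mem_Ico] at hi
      have := hlow (lam i) (hVi i hi.2) (hex _ (hVi i hi.2))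
      omega
    rw [h1]
    have h2 : k * (a + bm) ≤ k * (a + b) := Nat.mul_le_mul_left _ (by omega)
    omega

theorem outside_card (μ : YoungDiagram) (a b : ℕ) :
    (μ.cells.filter (fun v => a ≤ v.1 ∧ b ≤ v.2)).card =
      ∑ i ∈ Ico a (μ.colLen 0), 1 * (μ.rowLen i - b) := by
  classical
  rw [card_cells μ (fun R X => a ≤ R ∧ b ≤ X) (μ.colLen 0) (μ.rowLen 0)
    (fun R X h => (cell_lt μ (R, X) ((YoungDiagram.mem_cells _).mpr h)).1)
    (fun R X h => (cell_lt μ (R, X) ((YoungDiagram.mem_cells _).mpr h)).2.1)]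
  have e1 : ∀ R ∈ range (μ.colLen 0), ∑ X ∈ range (μ.rowLen 0),
      (if X < μ.rowLen R ∧ a ≤ R ∧ b ≤ X then 1 else 0) =
      if a ≤ R then 1 * (μ.rowLen R - b) else 0 := by
    intro R _
    by_cases hR : a ≤ R
    · rw [if_pos hR, ← Finset.card_filter]
      have e3 : (range (μ.rowLen 0)).filter (fun X => X < μ.rowLen R ∧ a ≤ R ∧ b ≤ X) =
          Ico b (μ.rowLen R) := by
        ext X
        have h2 := μ.rowLen_anti 0 R (Nat.zero_le R)
        simp only [Finset.mem_filter, Finset.mem_range, Finset.mem_Ico]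
        constructor
        · rintro ⟨_, h3, _, h4⟩; exact ⟨h4, h3⟩
        · rintro ⟨h4, h3⟩; exact ⟨by omega, h3, hR, h4⟩
      rw [e3, Nat.card_Ico, one_mul]
    · rw [if_neg hR]
      apply Finset.sum_eq_zero
      intro X _
      rw [if_neg]
      rintro ⟨_, h2, _⟩
      exact hR h2
  rw [Finset.sum_congr rfl e1, ← Finset.sum_filter]
  apply Finset.sum_congr _ (fun _ _ => rfl)
  ext i
  simp only [Finset.mem_filter, Finset.mem_range, Finset.mem_Ico]
  tauto

theorem ct_swap (μ : YoungDiagram) (k a b : ℕ) :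
    ct (μ.colLen 0) μ.rowLen 1 k a b = ct (μ.rowLen 0) μ.colLen 1 k b a := by
  classical
  have h1 := outside_card μ a b
  have h2 := outside_card μ.transpose b a
  rw [YoungDiagram.colLen_transpose] at h2
  have h3 : (μ.transpose.cells.filter (fun v => b ≤ v.1 ∧ a ≤ v.2)).card =
      (μ.cells.filter (fun v => a ≤ v.1 ∧ b ≤ v.2)).card := by
    apply Finset.card_bij (fun v _ => v.swap)
    · intro v hv
      rw [Finset.mem_filter, YoungDiagram.mem_cells, YoungDiagram.mem_transpose] at hv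
      rw [Finset.mem_filter, YoungDiagram.mem_cells]
      exact ⟨hv.1, hv.2.2, hv.2.1⟩
    · intro v _ w _ h
      exact Prod.swap_injective h
    · intro v hv
      rw [Finset.mem_filter, YoungDiagram.mem_cells] at hv
      refine ⟨v.swap, ?_, Prod.swap_swap v⟩
      rw [Finset.mem_filter, YoungDiagram.mem_cells, YoungDiagram.mem_transpose, Prod.swap_swap]
      exact ⟨hv.1, hv.2.2, hv.2.1⟩
  have h4 : ∑ i ∈ Ico b (μ.rowLen 0), 1 * (μ.transpose.rowLen i - a) =
      ∑ i ∈ Ico b (μ.rowLen 0), 1 * (μ.colLen i - a) := by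
    apply Finset.sum_congr rfl
    intro i _
    rw [YoungDiagram.rowLen_transpose]
  unfold ct
  rw [← h1, ← h3, h2, h4, Nat.add_comm a b]

/-- the grid of the corner coordinates -/
def grid (μ : YoungDiagram) : Finset (ℕ × ℕ) :=
  (insert 0 ((range (μ.rowLen 0)).image μ.colLen)) ×ˢ
    (insert 0 ((range (μ.colLen 0)).image μ.rowLen))

theorem grid_two (μ : YoungDiagram) (k a b : ℕ) :
    ∃ q ∈ grid μ, ct (μ.colLen 0) μ.rowLen 1 k q.1 q.2 ≤
      ct (μ.colLen 0) μ.rowLen 1 k a b := by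
  classical
  obtain ⟨b', hb', h1⟩ := grid_one (μ.colLen 0) μ.rowLen k a b
  obtain ⟨a', ha', h2⟩ := grid_one (μ.rowLen 0) μ.colLen k b' a
  rw [← ct_swap, ← ct_swap] at h2
  refine ⟨(a', b'), ?_, h2.trans h1⟩
  rw [grid, Finset.mem_product, Finset.mem_insert, Finset.mem_insert, Finset.mem_image,
    Finset.mem_image]
  constructor
  · rcases ha' with h | ⟨i, hi, h⟩
    · exact Or.inl h
    · exact Or.inr ⟨i, Finset.mem_range.mpr hi, h⟩
  · rcases hb' with h | ⟨i, hi, h⟩
    · exact Or.inl h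
    · exact Or.inr ⟨i, Finset.mem_range.mpr hi, h⟩

theorem gcut_grid (μ : YoungDiagram) (k : ℕ) :
    ∃ q ∈ grid μ, gcut (μ.colLen 0) μ.rowLen k = ct (μ.colLen 0) μ.rowLen 1 k q.1 q.2 := by
  obtain ⟨a, b, hab⟩ := gcut_attained (μ.colLen 0) μ.rowLen k
  obtain ⟨q, hq, h⟩ := grid_two μ k a b
  exact ⟨q, hq, le_antisymm (gcut_le _ _ k q.1 q.2) (by rw [hab]; exact h)⟩

theorem card_heights (μ : YoungDiagram) :
    ((range (μ.rowLen 0)).image μ.colLen).card ≤ ((range (μ.colLen 0)).image μ.rowLen).card := by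
  classical
  apply Finset.card_le_card_of_injOn (fun h => μ.rowLen (h - 1))
  · intro h hh
    rw [Finset.mem_coe, Finset.mem_image] at hh
    obtain ⟨x, hx, rfl⟩ := hh
    rw [Finset.mem_range] at hx
    refine Finset.mem_coe.mpr (Finset.mem_image.mpr ⟨μ.colLen x - 1, ?_, rfl⟩)
    have h1 : (0, x) ∈ μ := YoungDiagram.mem_iff_lt_rowLen.mpr hx
    have h2 := YoungDiagram.mem_iff_lt_colLen.mp h1
    have h3 := μ.colLen_anti 0 x (Nat.zero_le _)
    rw [Finset.mem_range]
    omega
  · have key : ∀ x y, x < μ.rowLen 0 → y < μ.rowLen 0 → μ.colLen x < μ.colLen y →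
        μ.rowLen (μ.colLen y - 1) < μ.rowLen (μ.colLen x - 1) := by
      intro x y hx hy hxy
      have h1 : (0, x) ∈ μ := YoungDiagram.mem_iff_lt_rowLen.mpr hx
      have h2 := YoungDiagram.mem_iff_lt_colLen.mp h1
      have h3 : (μ.colLen x - 1, x) ∈ μ := YoungDiagram.mem_iff_lt_colLen.mpr (by omega)
      have h4 := YoungDiagram.mem_iff_lt_rowLen.mp h3
      have h5 : ¬ (μ.colLen x, x) ∈ μ := by
        rw [YoungDiagram.mem_iff_lt_colLen]
        omega
      rw [YoungDiagram.mem_iff_lt_rowLen] at h5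
      have h6 := μ.rowLen_anti (μ.colLen x) (μ.colLen y - 1) (by omega)
      omega
    intro h hh h' hh' heq
    rw [Finset.mem_coe, Finset.mem_image] at hh hh'
    obtain ⟨x, hx, rfl⟩ := hh
    obtain ⟨y, hy, rfl⟩ := hh'
    rw [Finset.mem_range] at hx hy
    simp only at heq
    rcases lt_trichotomy (μ.colLen x) (μ.colLen y) with h1 | h1 | h1
    · have := key x y hx hy h1
      omega
    · exact h1
    · have := key y x hy hx h1
      omega

theorem card_grid (μ : YoungDiagram) (s : ℕ)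
    (hs : ((range (μ.colLen 0)).image μ.rowLen).card ≤ s) : (grid μ).card ≤ (s + 1) * (s + 1) := by
  classical
  rw [grid, Finset.card_product]
  apply Nat.mul_le_mul
  · exact le_trans (Finset.card_insert_le _ _)
      (Nat.add_le_add_right ((card_heights μ).trans hs) 1)
  · exact le_trans (Finset.card_insert_le _ _) (Nat.add_le_add_right hs 1)

/-- all row lengths and column lengths occur at least `g` times -/
def MultAtLeast (μ : YoungDiagram) (g : ℕ) : Prop :=
  (∀ i, i < μ.colLen 0 → g ≤ (rowsOf μ (μ.rowLen i)).card) ∧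
    ∀ j, j < μ.rowLen 0 → g ≤ (colsOf μ (μ.colLen j)).card

theorem grid_size (μ : YoungDiagram) (g : ℕ) (hg : MultAtLeast μ g) (q : ℕ × ℕ)
    (hq : q ∈ grid μ) (h0 : q ≠ (0, 0)) : g ≤ q.1 + q.2 := by
  classical
  obtain ⟨a, b⟩ := q
  rw [grid, Finset.mem_product, Finset.mem_insert, Finset.mem_insert, Finset.mem_image,
    Finset.mem_image] at hq
  simp only at hq ⊢
  obtain ⟨ha, hb⟩ := hq
  by_cases hb0 : b = 0
  · rcases ha with h | ⟨x, hx, h⟩
    · exact absurd (by rw [h, hb0]) h0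
    · rw [Finset.mem_range] at hx
      have h1 : (0, x) ∈ μ := YoungDiagram.mem_iff_lt_rowLen.mpr hx
      have h2 := YoungDiagram.mem_iff_lt_colLen.mp h1
      have h2' := μ.colLen_anti 0 x (Nat.zero_le _)
      have h3 : (a - 1, x) ∈ μ := YoungDiagram.mem_iff_lt_colLen.mpr (by omega)
      have h3' := YoungDiagram.mem_iff_lt_rowLen.mp h3
      have h4 := hg.1 (a - 1) (by omega)
      have h5 : rowsOf μ (μ.rowLen (a - 1)) ⊆ range a := by
        intro i hi
        rw [mem_rowsOf] at hi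
        rw [Finset.mem_range, ← h, ← YoungDiagram.mem_iff_lt_colLen,
          YoungDiagram.mem_iff_lt_rowLen]
        omega
      have h6 := Finset.card_le_card h5
      rw [Finset.card_range] at h6
      omega
  · rcases hb with h | ⟨i, hi, h⟩
    · exact absurd h hb0
    · rw [Finset.mem_range] at hi
      have h3 : (i, b - 1) ∈ μ := YoungDiagram.mem_iff_lt_rowLen.mpr (by omega)
      have h3' := YoungDiagram.mem_iff_lt_colLen.mp h3
      have h2' := μ.rowLen_anti 0 i (Nat.zero_le _)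
      have h4 := hg.2 (b - 1) (by omega)
      have h5 : colsOf μ (μ.colLen (b - 1)) ⊆ range b := by
        intro j hj
        rw [mem_colsOf] at hj
        rw [Finset.mem_range, ← h, ← YoungDiagram.mem_iff_lt_rowLen,
          YoungDiagram.mem_iff_lt_colLen]
        omega
      have h6 := Finset.card_le_card h5
      rw [Finset.card_range] at h6
      omega

theorem gcut_slope (μ : YoungDiagram) (g : ℕ) (hg : MultAtLeast μ g) (k d : ℕ)
    (h : gcut (μ.colLen 0) μ.rowLen (k + d) < ∑ i ∈ range (μ.colLen 0), μ.rowLen i) :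
    gcut (μ.colLen 0) μ.rowLen k + d * g ≤ gcut (μ.colLen 0) μ.rowLen (k + d) := by
  obtain ⟨q, hq, hqe⟩ := gcut_grid μ (k + d)
  have h0 : q ≠ (0, 0) := by
    intro h0
    subst h0
    rw [hqe] at h
    unfold ct at h
    simp at h
  have h1 := grid_size μ g hg q hq h0
  rw [hqe, ct_add]
  have h2 := gcut_le (μ.colLen 0) μ.rowLen k q.1 q.2
  have h3 : d * g ≤ d * (q.1 + q.2) := Nat.mul_le_mul_left _ h1
  omega

theorem gcut_lt_total (μ : YoungDiagram) (k : ℕ) (hk : k < max (μ.colLen 0) (μ.rowLen 0)) :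
    gcut (μ.colLen 0) μ.rowLen k < ∑ i ∈ range (μ.colLen 0), μ.rowLen i := by
  have key : ∀ (ν : YoungDiagram) (k : ℕ), k < ν.rowLen 0 →
      ct (ν.colLen 0) ν.rowLen 1 k 1 0 < ∑ i ∈ range (ν.colLen 0), ν.rowLen i := by
    intro ν k hk
    have h1 : (0, 0) ∈ ν := YoungDiagram.mem_iff_lt_rowLen.mpr (by omega)
    have h2 := YoungDiagram.mem_iff_lt_colLen.mp h1
    rw [Finset.range_eq_Ico, ← Finset.sum_Ico_consecutive _ (Nat.zero_le 1) h2]
    unfold ct
    simp only [Nat.sub_zero, one_mul, Nat.Ico_succ_singleton, Finset.sum_singleton, add_zero,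
      mul_one]
    simp
    exact hk
  rcases lt_max_iff.mp hk with h | h
  · have h1 := gcut_le (μ.colLen 0) μ.rowLen k 0 1
    rw [ct_swap] at h1
    have h2 := key μ.transpose k (by rw [YoungDiagram.rowLen_transpose]; exact h)
    have h3 : ct (μ.transpose.colLen 0) μ.transpose.rowLen 1 k 1 0 =
        ct (μ.rowLen 0) μ.colLen 1 k 1 0 := by
      rw [YoungDiagram.colLen_transpose]
      unfold ct
      congr 1
      apply Finset.sum_congr rfl
      intro i _
      rw [YoungDiagram.rowLen_transpose]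
    rw [h3] at h2
    have h4 : ∑ i ∈ range (μ.transpose.colLen 0), μ.transpose.rowLen i =
        ∑ i ∈ range (μ.colLen 0), μ.rowLen i := by
      have h5 := ct_swap μ 0 0 0
      unfold ct at h5
      simp only [Nat.sub_zero, one_mul, zero_mul, zero_add] at h5
      rw [YoungDiagram.colLen_transpose, Finset.range_eq_Ico, Finset.range_eq_Ico, h5]
      apply Finset.sum_congr rfl
      intro i _
      rw [YoungDiagram.rowLen_transpose]
    omega
  · exact lt_of_le_of_lt (gcut_le (μ.colLen 0) μ.rowLen k 1 0) (key μ k h)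

/-- the levels at which the sets are needed -/
theorem exists_levels (μ : YoungDiagram) (E : ℕ) :
    ∃ K : Finset ℕ, K.card ≤ 2 * (grid μ).card ∧ (∀ k ∈ K, k ≤ E) ∧
      ∀ k, k ≤ E → ∃ k1 ∈ K, ∃ k2 ∈ K, ∃ s d : ℕ, k1 ≤ k ∧ k ≤ k2 ∧
        gcut (μ.colLen 0) μ.rowLen k1 = k1 * s + d ∧ gcut (μ.colLen 0) μ.rowLen k = k * s + d ∧
        gcut (μ.colLen 0) μ.rowLen k2 = k2 * s + d := by
  classical
  set A : ℕ × ℕ → Finset ℕ := fun q => (range (E + 1)).filter
    (fun k => gcut (μ.colLen 0) μ.rowLen k = ct (μ.colLen 0) μ.rowLen 1 k q.1 q.2) with hA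
  set lo : ℕ × ℕ → ℕ := fun q => if h : (A q).Nonempty then (A q).min' h else 0 with hlo
  set hi : ℕ × ℕ → ℕ := fun q => if h : (A q).Nonempty then (A q).max' h else 0 with hhi
  have hAm : ∀ q k, k ∈ A q → k ≤ E ∧
      gcut (μ.colLen 0) μ.rowLen k = ct (μ.colLen 0) μ.rowLen 1 k q.1 q.2 := by
    intro q k hk
    simp only [hA, Finset.mem_filter, Finset.mem_range] at hk
    exact ⟨by omega, hk.2⟩
  refine ⟨(grid μ).image lo ∪ (grid μ).image hi, ?_, ?_, ?_⟩
  · refine le_trans (Finset.card_union_le _ _) ?_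
    have h1 : ((grid μ).image lo).card ≤ (grid μ).card := Finset.card_image_le
    have h2 : ((grid μ).image hi).card ≤ (grid μ).card := Finset.card_image_le
    omega
  · intro k hk
    rw [Finset.mem_union, Finset.mem_image, Finset.mem_image] at hk
    rcases hk with ⟨q, _, rfl⟩ | ⟨q, _, rfl⟩
    · simp only [hlo]
      split_ifs with h
      · exact (hAm q _ (Finset.min'_mem _ h)).1
      · exact Nat.zero_le _
    · simp only [hhi]
      split_ifs with h
      · exact (hAm q _ (Finset.max'_mem _ h)).1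
      · exact Nat.zero_le _
  · intro k hk
    obtain ⟨q, hq, hqe⟩ := gcut_grid μ k
    have hkA : k ∈ A q := by
      simp only [hA, Finset.mem_filter, Finset.mem_range]
      exact ⟨by omega, hqe⟩
    have hne : (A q).Nonempty := ⟨k, hkA⟩
    have hlo' : lo q = (A q).min' hne := by simp only [hlo]; rw [dif_pos hne]
    have hhi' : hi q = (A q).max' hne := by simp only [hhi]; rw [dif_pos hne]
    have h1 := hAm q _ (Finset.min'_mem _ hne)
    have h2 := hAm q _ (Finset.max'_mem _ hne)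
    rw [← hlo'] at h1
    rw [← hhi'] at h2
    have hct : ∀ k', ct (μ.colLen 0) μ.rowLen 1 k' q.1 q.2 =
        k' * (q.1 + q.2) + ∑ i ∈ Ico q.1 (μ.colLen 0), 1 * (μ.rowLen i - q.2) := fun k' => rfl
    refine ⟨lo q, Finset.mem_union_left _ (Finset.mem_image_of_mem _ hq), hi q,
      Finset.mem_union_right _ (Finset.mem_image_of_mem _ hq), q.1 + q.2,
      ∑ i ∈ Ico q.1 (μ.colLen 0), 1 * (μ.rowLen i - q.2), ?_, ?_, ?_, ?_, ?_⟩
    · rw [hlo']
      exact Finset.min'_le _ _ hkA
    · rw [hhi']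
      exact Finset.le_max' _ _ hkA
    · rw [← hct]; exact h1.2
    · rw [← hct]; exact hqe
    · rw [← hct]; exact h2.2

end Pool.MP_d56194_co
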