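import Mathlib
import Pool.Agent.Lib.MP_d56194_co.H.H1

set_option autoImplicit false

namespace Pool.MP_d56194_co

open Finset

theorem sum_le_sum_range (a : ℕ → ℕ) (ha : Antitone a) (T : Finset ℕ) :
    ∑ j ∈ T, a j ≤ ∑ j ∈ range T.card, a j := by
  classical
  set R := range T.card with hR
  have h1 : (T \ R).card = (R \ T).card := by
    have e1 := Finset.card_sdiff_add_card_inter T R
    have e2 := Finset.card_sdiff_add_card_inter R T
    have e3 : R.card = T.card := Finset.card_range _
    rw [Finset.inter_comm] at e2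
    omega
  have h2 : ∑ j ∈ T \ R, a j ≤ (T \ R).card * a T.card := by
    rw [← smul_eq_mul, ← Finset.sum_const]
    apply Finset.sum_le_sum
    intro j hj
    rw [Finset.mem_sdiff, hR, Finset.mem_range] at hj
    exact ha (by omega)
  have h3 : (R \ T).card * a T.card ≤ ∑ j ∈ R \ T, a j := by
    rw [← smul_eq_mul, ← Finset.sum_const]
    apply Finset.sum_le_sum
    intro j hj
    rw [Finset.mem_sdiff, hR, Finset.mem_range] at hj
    exact ha (by omega)
  have h4 := Finset.sum_inter_add_sum_sdiff T R a
  have h5 := Finset.sum_inter_add_sum_sdiff R T a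
  rw [Finset.inter_comm] at h5
  rw [h1] at h2
  omega

/-- prefix sums of an antitone sequence are concave -/
theorem prefix_concave (a : ℕ → ℕ) (ha : Antitone a) (x y z : ℕ) (hxy : x ≤ y) (hyz : y ≤ z) :
    (z - y) * ∑ i ∈ range x, a i + (y - x) * ∑ i ∈ range z, a i ≤
      (z - x) * ∑ i ∈ range y, a i := by
  have h1 := Finset.sum_range_add_sum_Ico a hxy
  have h2 := Finset.sum_range_add_sum_Ico a hyz
  have h3 : (y - x) * a y ≤ ∑ i ∈ Ico x y, a i := by
    rw [← Nat.card_Ico, ← smul_eq_mul, ← Finset.sum_const]
    apply Finset.sum_le_sum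
    intro i hi
    rw [Finset.mem_Ico] at hi
    exact ha (by omega)
  have h4 : ∑ i ∈ Ico y z, a i ≤ (z - y) * a y := by
    rw [← Nat.card_Ico, ← smul_eq_mul, ← Finset.sum_const]
    apply Finset.sum_le_sum
    intro i hi
    rw [Finset.mem_Ico] at hi
    exact ha (by omega)
  obtain ⟨u, rfl⟩ := Nat.exists_eq_add_of_le hxy
  obtain ⟨w, rfl⟩ := Nat.exists_eq_add_of_le hyz
  have e1 : x + u + w - (x + u) = w := by omega
  have e2 : x + u - x = u := by omega
  have e3 : x + u + w - x = u + w := by omega
  rw [e1] at h4 ⊢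
  rw [e2] at h3 ⊢
  rw [e3, ← h2, ← h1]
  have h5 := Nat.mul_le_mul_left u h4
  have h6 := Nat.mul_le_mul_left w h3
  nlinarith

/-- Sorting the colour classes. -/
theorem sort_col (V : Finset (ℕ × ℕ)) (c : ℕ × ℕ → ℕ) (hc : ProperOn V c) (D : ℕ)
    (hD : ∀ x ∈ V, c x < D) :
    ∃ c' : ℕ × ℕ → ℕ, ProperOn V c' ∧ (∀ x ∈ V, c' x < D) ∧
      (∀ k, (V.filter (fun x => c x < k)).card ≤ (V.filter (fun x => c' x < k)).card) ∧
      ∀ x y z, x ≤ y → y ≤ z →
        (z - y) * (V.filter (fun v => c' v < x)).card +
          (y - x) * (V.filter (fun v => c' v < z)).card ≤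
        (z - x) * (V.filter (fun v => c' v < y)).card := by
  classical
  set sz : Fin D → ℕ := fun i => (V.filter (fun e => c e = i.1)).card with hsz
  set σ : Equiv.Perm (Fin D) := Tuple.sort (fun i => OrderDual.toDual (sz i)) with hσ
  have hmono : ∀ i j : Fin D, i ≤ j → sz (σ j) ≤ sz (σ i) := by
    intro i j hij
    have := Tuple.monotone_sort (fun i => OrderDual.toDual (sz i)) hij
    exact this
  set c' : ℕ × ℕ → ℕ := fun e => if h : c e < D then (σ.symm ⟨c e, h⟩).1 else D with hc'
  have hc'V : ∀ e (h : c e < D), c' e = (σ.symm ⟨c e, h⟩).1 := by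
    intro e h
    simp only [hc']
    rw [dif_pos h]
  have hlt : ∀ x ∈ V, c' x < D := by
    intro x hx
    rw [hc'V x (hD x hx)]
    exact (σ.symm ⟨c x, hD x hx⟩).2
  set a : ℕ → ℕ := fun i => (V.filter (fun e => c' e = i)).card with ha
  have ha' : ∀ (i : ℕ) (hi : i < D), a i = sz (σ ⟨i, hi⟩) := by
    intro i hi
    simp only [ha, hsz]
    congr 1
    apply Finset.filter_congr
    intro e he
    rw [hc'V e (hD e he)]
    constructor
    · intro h
      have h5 : σ.symm ⟨c e, hD e he⟩ = ⟨i, hi⟩ := Fin.ext h
      rw [Equiv.symm_apply_eq] at h5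
      rw [← h5]
    · intro h
      have h5 : (⟨c e, hD e he⟩ : Fin D) = σ ⟨i, hi⟩ := Fin.ext h
      rw [h5, Equiv.symm_apply_apply]
  have ha0 : ∀ i, D ≤ i → a i = 0 := by
    intro i hi
    simp only [ha]
    rw [Finset.card_eq_zero, Finset.filter_eq_empty_iff]
    intro e he h
    have := hlt e he
    omega
  have hanti : Antitone a := by
    intro i j hij
    rcases Nat.lt_or_ge j D with h | h
    · rw [ha' j h, ha' i (by omega)]
      exact hmono _ _ (by exact hij)
    · rw [ha0 j h]
      exact Nat.zero_le _
  have hP : ∀ k, (V.filter (fun v => c' v < k)).card = ∑ i ∈ range k, a i := fun k =>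
    card_lt_eq_sum V c' k
  refine ⟨c', ?_, hlt, ?_, ?_⟩
  · intro x hx y hy hne hxy h
    rw [hc'V x (hD x hx), hc'V y (hD y hy)] at h
    have h5 := σ.symm.injective (Fin.ext h)
    exact hc x hx y hy hne hxy (congrArg Fin.val h5)
  · intro k
    rw [hP k, card_lt_eq_sum]
    -- the classes below `k` of `c` are classes of `c'`
    set T : Finset ℕ := (univ.filter (fun i : Fin D => (σ i).1 < k)).image (fun i => i.1)
      with hT
    have hTc : T.card ≤ k := by
      refine le_trans Finset.card_image_le ?_
      have h1 : (univ.filter (fun i : Fin D => (σ i).1 < k)).card ≤ (range k).card := by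
        apply Finset.card_le_card_of_injOn (fun i => (σ i).1)
        · intro i hi
          rw [Finset.mem_coe, Finset.mem_filter] at hi
          exact Finset.mem_coe.mpr (Finset.mem_range.mpr hi.2)
        · intro i _ j _ h
          exact σ.injective (Fin.ext h)
      rwa [Finset.card_range] at h1
    have h1 : ∑ j ∈ range k, (V.filter (fun x => c x = j)).card = ∑ j ∈ T, a j := by
      have h2 : ∑ j ∈ range k, (V.filter (fun x => c x = j)).card =
          ∑ j ∈ (range k).filter (fun j => j < D), (V.filter (fun x => c x = j)).card := by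
        rw [Finset.sum_filter]
        apply Finset.sum_congr rfl
        intro j _
        split_ifs with h
        · rfl
        · rw [Finset.card_eq_zero, Finset.filter_eq_empty_iff]
          intro e he h3
          have := hD e he
          omega
      rw [h2, hT, Finset.sum_image (by intro i _ j _ h; exact Fin.ext h)]
      symm
      apply Finset.sum_bij (fun (i : Fin D) _ => (σ i).1)
      · intro i hi
        rw [Finset.mem_filter] at hi
        rw [Finset.mem_filter, Finset.mem_range]
        exact ⟨hi.2, (σ i).2⟩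
      · intro i _ j _ h
        exact σ.injective (Fin.ext h)
      · intro j hj
        rw [Finset.mem_filter, Finset.mem_range] at hj
        refine ⟨σ.symm ⟨j, hj.2⟩, ?_, ?_⟩
        · rw [Finset.mem_filter, Equiv.apply_symm_apply]
          exact ⟨Finset.mem_univ _, hj.1⟩
        · rw [Equiv.apply_symm_apply]
      · intro i _
        rw [ha' i.1 i.2]
    rw [h1]
    refine le_trans (sum_le_sum_range a hanti T) ?_
    exact Finset.sum_le_sum_of_subset (Finset.range_subset_range.mpr hTc)
  · intro x y z hxy hyz
    rw [hP, hP, hP]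
    exact prefix_concave a hanti x y z hxy hyz

end Pool.MP_d56194_co
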