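import Mathlib
import Pool.Agent.Lib.MP_d56194_co.H.H3
import Pool.Agent.Lib.MP_d56194_co.H.H4
import Pool.Agent.Lib.MP_d56194_co.H.H7
import Pool.Agent.Lib.MP_d56194_co.H.H8

set_option autoImplicit false

namespace Pool.MP_d56194_co

open Finset

theorem phases_enough2 (s V : ℕ) (hV : V ≤ s * s * (2 * ((s + 1) * (s + 1)) + 1)) :
    V * 3 ^ (13 * (Nat.log 2 s + 1)) < 4 ^ (13 * (Nat.log 2 s + 1)) := by
  set l := Nat.log 2 s + 1 with hl
  have hl1 : 1 ≤ l := by omega
  have h1 : s < 2 ^ l := Nat.lt_pow_succ_log_self (by norm_num) s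
  have h2 : s * s * (2 * ((s + 1) * (s + 1)) + 1) ≤ 2 * (s + 1) ^ 4 := by
    have h3 : 2 * (s + 1) ^ 4 = s * s * (2 * ((s + 1) * (s + 1)) + 1) +
        (4 * s ^ 3 + 9 * s ^ 2 + 8 * s + 2) := by ring
    omega
  have h4 : (s + 1) ^ 4 ≤ (2 ^ l) ^ 4 := Nat.pow_le_pow_left (by omega) 4
  have h5 : 2 ≤ 2 ^ l := by
    calc 2 = 2 ^ 1 := by norm_num
      _ ≤ 2 ^ l := Nat.pow_le_pow_right (by norm_num) hl1
  have h6 : V ≤ 32 ^ l := by
    calc V ≤ 2 * (s + 1) ^ 4 := le_trans hV h2
      _ ≤ 2 ^ l * (2 ^ l) ^ 4 := Nat.mul_le_mul h5 h4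
      _ = (2 ^ l) ^ 5 := by ring
      _ = 32 ^ l := by
        rw [← pow_mul, mul_comm, pow_mul]
        norm_num
  calc V * 3 ^ (13 * l) ≤ 32 ^ l * 3 ^ (13 * l) := Nat.mul_le_mul_right _ h6
    _ = 51018336 ^ l := by
        rw [pow_mul, ← Nat.mul_pow]
        norm_num
    _ < 67108864 ^ l := Nat.pow_lt_pow_left (by norm_num) (by omega)
    _ = 4 ^ (13 * l) := by
        rw [pow_mul]
        norm_num

/-- The real solution in terms of the cells. -/
theorem real_cells (μ : YoungDiagram) :
    ∃ (T : ℕ) (y : μ.cells → ℕ → ℝ), (∀ e j, 0 ≤ y e j) ∧ (∀ e j, T ≤ j → y e j = 0) ∧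
      (∀ e, ∑ j ∈ range T, y e j = 1) ∧
      (∀ i j, (∑ e : μ.cells, if e.1.1 = i then y e j else 0) ≤ 1) ∧
      (∀ x j, (∑ e : μ.cells, if e.1.2 = x then y e j else 0) ≤ 1) ∧
      (∀ t, (gcut (μ.colLen 0) μ.rowLen t : ℝ) ≤ ∑ j ∈ range t, ∑ e : μ.cells, y e j) := by
  classical
  set m := μ.colLen 0 with hmdef
  set N := μ.rowLen 0 with hNdef
  set lam := μ.rowLen with hlam
  set n := μ.cells.card with hn
  have hm : ∀ i, m ≤ i → lam i = 0 := by
    intro i hi
    by_contra hne
    have h1 : (i, 0) ∈ μ := YoungDiagram.mem_iff_lt_rowLen.mpr (Nat.pos_of_ne_zero hne)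
    have h2 := YoungDiagram.mem_iff_lt_colLen.mp h1
    omega
  have hanti : Antitone lam := fun i j hij => μ.rowLen_anti i j hij
  have hN : ∀ i, lam i ≤ N := fun i => hanti (Nat.zero_le i)
  have hcardR : (n : ℝ) = ((∑ i ∈ range m, lam i : ℕ) : ℝ) := by
    have h1 := cell_sum μ (fun _ => (1 : ℝ))
    rw [Finset.sum_const, nsmul_eq_mul, mul_one] at h1
    rw [h1, Nat.cast_sum]
    apply Finset.sum_congr rfl
    intro i _
    have h9 : (range N).filter (fun x => x < lam i) = range (lam i) := by
      ext x
      have := hN i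
      simp only [Finset.mem_filter, Finset.mem_range]
      omega
    rw [← Finset.sum_filter, Finset.sum_const, nsmul_eq_mul, h9, Finset.card_range, mul_one]
  have hcard : n = ∑ i ∈ range m, lam i := by exact_mod_cast hcardR
  obtain ⟨T, Y, hY0, hY1, hYr, hYc, hYt⟩ := real_groups m N lam hanti hm hN (fun _ => 1)
    (fun _ => le_rfl)
  have hYz : ∀ i x j, i < m → x < N → ¬ x < lam i → j < T → Y i x j = 0 := by
    intro i x j hi hx hxl hj
    have h1 := hY1 i x hi hx
    rw [if_neg hxl, Finset.sum_eq_zero_iff_of_nonneg (fun j _ => hY0 i x j)] at h1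
    exact h1 j (Finset.mem_range.mpr hj)
  set y : μ.cells → ℕ → ℝ := fun e j => if j < T then Y e.1.1 e.1.2 j else 0 with hy
  have hy0 : ∀ e j, 0 ≤ y e j := by
    intro e j
    simp only [hy]
    split_ifs
    · exact hY0 _ _ _
    · exact le_rfl
  have hcell1 : ∀ e : μ.cells, ∑ j ∈ range T, y e j = 1 := by
    intro e
    obtain ⟨a, b, c⟩ := cell_lt μ e.1 e.2
    have h1 := hY1 e.1.1 e.1.2 a b
    rw [if_pos c] at h1
    rw [← h1]
    apply Finset.sum_congr rfl
    intro j hj
    rw [Finset.mem_range] at hj
    simp only [hy]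
    rw [if_pos hj]
  have htot1 : ∀ j, j < T → (∑ e : μ.cells, y e j) =
      ∑ i ∈ range m, ∑ x ∈ range N, Y i x j := by
    intro j hj
    have e2 : (∑ e : μ.cells, y e j) = ∑ v ∈ μ.cells, Y v.1 v.2 j := by
      have h3 : ∀ e : μ.cells, y e j = (fun v : ℕ × ℕ => Y v.1 v.2 j) e.1 := by
        intro e
        simp only [hy]
        rw [if_pos hj]
      rw [Finset.sum_congr rfl (fun e _ => h3 e)]
      exact Finset.sum_coe_sort μ.cells (fun v => Y v.1 v.2 j)
    rw [e2, cell_sum]
    apply Finset.sum_congr rfl
    intro i hi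
    rw [Finset.mem_range] at hi
    apply Finset.sum_congr rfl
    intro x hx
    rw [Finset.mem_range] at hx
    split_ifs with h
    · rfl
    · exact (hYz i x j hi hx h hj).symm
  refine ⟨T, y, hy0, ?_, hcell1, ?_, ?_, ?_⟩
  · intro e j hj
    simp only [hy]
    rw [if_neg (by omega)]
  · intro i j
    by_cases hj : j < T
    · by_cases hi : i < m
      · have e2 : (∑ e : μ.cells, if e.1.1 = i then y e j else 0) =
            ∑ v ∈ μ.cells, if v.1 = i then Y v.1 v.2 j else 0 := by
          have h3 : ∀ e : μ.cells, (if e.1.1 = i then y e j else 0) =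
              (fun v : ℕ × ℕ => if v.1 = i then Y v.1 v.2 j else 0) e.1 := by
            intro e
            simp only [hy]
            rw [if_pos hj]
          rw [Finset.sum_congr rfl (fun e _ => h3 e)]
          exact Finset.sum_coe_sort μ.cells (fun v => if v.1 = i then Y v.1 v.2 j else 0)
        rw [e2, cell_sum, Finset.sum_eq_single i]
        · have h1 := hYr i j hi
          simp only [Nat.cast_one] at h1
          refine le_trans ?_ h1
          apply Finset.sum_le_sum
          intro x _
          have := hY0 i x j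
          split_ifs <;> first | exact le_rfl | exact this
        · intro i' _ hne
          apply Finset.sum_eq_zero
          intro x _
          simp [hne]
        · intro h
          exact absurd (Finset.mem_range.mpr hi) h
      · rw [Finset.sum_eq_zero]
        · exact zero_le_one
        · intro e _
          rw [if_neg]
          intro h
          have := (cell_lt μ e.1 e.2).1
          omega
    · rw [Finset.sum_eq_zero]
      · exact zero_le_one
      · intro e _
        simp only [hy]
        rw [if_neg hj, ite_self]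
  · intro x j
    by_cases hj : j < T
    · by_cases hx : x < N
      · have e2 : (∑ e : μ.cells, if e.1.2 = x then y e j else 0) =
            ∑ v ∈ μ.cells, if v.2 = x then Y v.1 v.2 j else 0 := by
          have h3 : ∀ e : μ.cells, (if e.1.2 = x then y e j else 0) =
              (fun v : ℕ × ℕ => if v.2 = x then Y v.1 v.2 j else 0) e.1 := by
            intro e
            simp only [hy]
            rw [if_pos hj]
          rw [Finset.sum_congr rfl (fun e _ => h3 e)]
          exact Finset.sum_coe_sort μ.cells (fun v => if v.2 = x then Y v.1 v.2 j else 0)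
        rw [e2, cell_sum, Finset.sum_comm, Finset.sum_eq_single x]
        · have h1 := hYc x j hx
          simp only [Nat.cast_one] at h1
          refine le_trans ?_ h1
          apply Finset.sum_le_sum
          intro i _
          have := hY0 i x j
          split_ifs <;> first | exact le_rfl | exact this
        · intro x' _ hne
          apply Finset.sum_eq_zero
          intro i _
          simp [hne]
        · intro h
          exact absurd (Finset.mem_range.mpr hx) h
      · rw [Finset.sum_eq_zero]
        · exact zero_le_one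
        · intro e _
          rw [if_neg]
          intro h
          have := (cell_lt μ e.1 e.2).2.1
          omega
    · rw [Finset.sum_eq_zero]
      · exact zero_le_one
      · intro e _
        simp only [hy]
        rw [if_neg hj, ite_self]
  · intro t
    have hTt : ∀ t, t ≤ T → (gcut m lam t : ℝ) ≤ ∑ j ∈ range t, ∑ e : μ.cells, y e j := by
      intro t ht
      have h1 := hYt t
      rw [Finset.sum_const, Finset.card_range, smul_eq_mul, mul_one] at h1
      refine le_trans h1 (le_of_eq ?_)
      apply Finset.sum_congr rfl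
      intro j hj
      rw [Finset.mem_range] at hj
      exact (htot1 j (by omega)).symm
    rcases Nat.lt_or_ge T t with h | h
    · have h1 : ∑ j ∈ range T, ∑ e : μ.cells, y e j = n := by
        rw [Finset.sum_comm, Finset.sum_congr rfl (fun e _ => hcell1 e), Finset.sum_const,
          Finset.card_univ, Fintype.card_coe, nsmul_eq_mul, mul_one]
      have h2 : ∑ j ∈ range T, ∑ e : μ.cells, y e j ≤
          ∑ j ∈ range t, ∑ e : μ.cells, y e j := by
        apply Finset.sum_le_sum_of_subset_of_nonneg
        · exact Finset.range_subset_range.mpr h.le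
        · intro j _ _
          exact Finset.sum_nonneg (fun e _ => hy0 e j)
      refine le_trans ?_ h2
      rw [h1, hcard]
      exact_mod_cast gcut_le_total m lam t
    · exact hTt t h

/-- An assignment of the elements of the blocks with given numbers. -/
theorem assign {E A : Type} [Fintype E] [DecidableEq E] [DecidableEq A] (f : E → A) (J : ℕ)
    (W : A → ℕ → ℕ)
    (h : ∀ a, ∑ j ∈ range J, W a j = (univ.filter (fun e => f e = a)).card) :
    ∃ ψ : E → ℕ, (∀ e, ψ e < J) ∧
      ∀ a j, j < J → (univ.filter (fun e => f e = a ∧ ψ e = j)).card = W a j := by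
  classical
  obtain ⟨rk, hrk, hinj⟩ := exists_rank f
  have hex : ∀ e, ∃ j, rk e < ∑ i ∈ range (j + 1), W (f e) i := by
    intro e
    refine ⟨J, ?_⟩
    have h1 := hrk e
    rw [← h (f e)] at h1
    rw [Finset.sum_range_succ]
    omega
  set ψ : E → ℕ := fun e => Nat.find (hex e) with hψ
  have hψ1 : ∀ e, rk e < ∑ i ∈ range (ψ e + 1), W (f e) i := fun e => Nat.find_spec (hex e)
  have hψ2 : ∀ e j, j < ψ e → ∑ i ∈ range (j + 1), W (f e) i ≤ rk e := fun e j hj =>
    not_lt.mp (Nat.find_min (hex e) hj)
  have hmono : ∀ a i j, i ≤ j → ∑ x ∈ range i, W a x ≤ ∑ x ∈ range j, W a x := by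
    intro a i j hij
    exact Finset.sum_le_sum_of_subset (Finset.range_subset_range.mpr hij)
  have hψJ : ∀ e, ψ e < J := by
    intro e
    have h1 := hrk e
    rw [← h (f e)] at h1
    have hJ0 : 0 < J := by
      by_contra hcon
      have : J = 0 := by omega
      subst this
      simp at h1
    by_contra hcon
    have h2 := hψ2 e (J - 1) (by omega)
    rw [Nat.sub_add_cancel hJ0] at h2
    omega
  have hiff : ∀ e j, ψ e = j ↔ ∑ i ∈ range j, W (f e) i ≤ rk e ∧
      rk e < ∑ i ∈ range (j + 1), W (f e) i := by
    intro e j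
    constructor
    · rintro rfl
      refine ⟨?_, hψ1 e⟩
      rcases Nat.eq_zero_or_pos (ψ e) with h0 | h0
      · rw [h0]; simp
      · have h2 := hψ2 e (ψ e - 1) (by omega)
        rw [Nat.sub_add_cancel h0] at h2
        exact h2
    · rintro ⟨h1, h2⟩
      rcases lt_trichotomy (ψ e) j with h3 | h3 | h3
      · have h4 := hψ1 e
        have h5 := hmono (f e) (ψ e + 1) j (by omega)
        omega
      · exact h3
      · have h4 := hψ2 e j h3
        omega
  refine ⟨ψ, hψJ, ?_⟩
  intro a j hj
  have himg : (univ.filter (fun e => f e = a)).image rk =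
      range (univ.filter (fun e => f e = a)).card := by
    apply Finset.eq_of_subset_of_card_le
    · intro r hr
      rw [Finset.mem_image] at hr
      obtain ⟨e, he, rfl⟩ := hr
      rw [Finset.mem_filter] at he
      have h1 := hrk e
      rw [he.2] at h1
      exact Finset.mem_range.mpr h1
    · rw [Finset.card_range, Finset.card_image_of_injOn]
      intro e he e' he' hee
      rw [Finset.mem_coe, Finset.mem_filter] at he he'
      exact hinj e e' (by rw [he.2, he'.2]) hee
  have h1 : ((univ.filter (fun e => f e = a ∧ ψ e = j)).image rk) =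
      Finset.Ico (∑ i ∈ range j, W a i) (∑ i ∈ range (j + 1), W a i) := by
    ext r
    rw [Finset.mem_image, Finset.mem_Ico]
    constructor
    · rintro ⟨e, he, rfl⟩
      rw [Finset.mem_filter] at he
      have h2 := (hiff e j).mp he.2.2
      rw [he.2.1] at h2
      exact h2
    · rintro ⟨h2, h3⟩
      have h4 : r ∈ range (univ.filter (fun e => f e = a)).card := by
        rw [Finset.mem_range, ← h a]
        have h5 := hmono a (j + 1) J (by omega)
        omega
      rw [← himg, Finset.mem_image] at h4
      obtain ⟨e, he, rfl⟩ := h4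
      rw [Finset.mem_filter] at he
      refine ⟨e, ?_, rfl⟩
      rw [Finset.mem_filter]
      refine ⟨he.1, he.2, (hiff e j).mpr ?_⟩
      rw [he.2]
      exact ⟨h2, h3⟩
  have h2 := Finset.card_image_of_injOn (s := univ.filter (fun e => f e = a ∧ ψ e = j))
    (f := rk) (by
      intro e he e' he' hee
      rw [Finset.mem_coe, Finset.mem_filter] at he he'
      exact hinj e e' (by rw [he.2.1, he'.2.1]) hee)
  rw [← h2, h1, Nat.card_Ico, Finset.sum_range_succ]
  omega

theorem half_sum (f : ℕ → ℝ) (n : ℕ) :
    ∑ v ∈ range (2 * n), f (v / 2) / 2 = ∑ j ∈ range n, f j := by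
  induction n with
  | zero => simp
  | succ n ih =>
    have h1 : 2 * (n + 1) = 2 * n + 1 + 1 := by ring
    rw [h1, Finset.sum_range_succ, Finset.sum_range_succ, ih, Finset.sum_range_succ]
    have h2 : (2 * n) / 2 = n := by omega
    have h3 : (2 * n + 1) / 2 = n := by omega
    rw [h2, h3]
    ring

end Pool.MP_d56194_co
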