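import Mathlib
import Pool.Agent.Lib.MP_d56194_co.H.H9

set_option autoImplicit false

namespace Pool.MP_d56194_co

open Finset

theorem fib_sum {E Q : Type} [Fintype E] [Fintype Q] [DecidableEq Q] (f : E → Q) (J : ℕ)
    (X : E → ℕ → ℝ) (G : Q → ℕ → Prop) [∀ q j, Decidable (G q j)] :
    ∑ p : Q × Fin J, (if G p.1 p.2.1 then ∑ e, (if f e = p.1 then X e p.2.1 else 0) else 0) =
      ∑ e, ∑ j ∈ range J, (if G (f e) j then X e j else 0) := by
  classical
  have h1 : ∀ p : Q × Fin J,
      (if G p.1 p.2.1 then ∑ e, (if f e = p.1 then X e p.2.1 else 0) else 0) =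
      ∑ e, (if f e = p.1 then (if G (f e) p.2.1 then X e p.2.1 else 0) else 0) := by
    intro p
    by_cases hG : G p.1 p.2.1
    · rw [if_pos hG]
      apply Finset.sum_congr rfl
      intro e _
      by_cases he : f e = p.1
      · rw [if_pos he, if_pos he, he, if_pos hG]
      · rw [if_neg he, if_neg he]
    · rw [if_neg hG]
      symm
      apply Finset.sum_eq_zero
      intro e _
      by_cases he : f e = p.1
      · rw [if_pos he, he, if_neg hG]
      · rw [if_neg he]
  rw [Finset.sum_congr rfl (fun p _ => h1 p), Finset.sum_comm]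
  apply Finset.sum_congr rfl
  intro e _
  rw [Fintype.sum_prod_type, Finset.sum_comm, Finset.sum_range]
  apply Finset.sum_congr rfl
  intro j _
  rw [Finset.sum_ite_eq, if_pos (Finset.mem_univ _)]

theorem block_round {E Q C : Type} [Fintype E] [DecidableEq E] [Fintype Q] [DecidableEq Q]
    [Fintype C] [DecidableEq C] (f : E → Q) (good : C → Q → Prop) [∀ c q, Decidable (good c q)]
    (hgood : ∀ q, (univ.filter (fun c => good c q)).card ≤ 3)
    (T : ℕ) (w : E → ℕ → ℝ) (hw0 : ∀ e v, 0 ≤ w e v) (hw1 : ∀ e, ∑ v ∈ range T, w e v = 1)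
    (γ : ℕ → ℕ) (J : ℕ) (hγ : ∀ v, γ v < J) (L : ℕ)
    (hL : Fintype.card Q * J * 3 ^ L < 4 ^ L) :
    ∃ ψ : E → ℕ, ∀ c κ, κ ≤ J →
      |((univ.filter (fun e => good c (f e) ∧ ψ e < κ)).card : ℝ) -
        ∑ e, ∑ v ∈ range T, (if good c (f e) ∧ γ v < κ then w e v else 0)| ≤ 11 * L := by
  classical
  set X : E → ℕ → ℝ := fun e j => ∑ v ∈ range T, if γ v = j then w e v else 0 with hX
  have hX1 : ∀ e, ∑ j ∈ range J, X e j = 1 := by
    intro e
    simp only [hX]
    rw [Finset.sum_comm, ← hw1 e]
    apply Finset.sum_congr rfl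
    intro v _
    rw [Finset.sum_ite_eq, if_pos (Finset.mem_range.mpr (hγ v))]
  have hX0 : ∀ e j, 0 ≤ X e j := by
    intro e j
    apply Finset.sum_nonneg
    intro v _
    split_ifs
    · exact hw0 e v
    · exact le_rfl
  set M : Q × Fin J → ℝ := fun p => ∑ e, if f e = p.1 then X e p.2.1 else 0 with hM
  have hM0 : ∀ p, 0 ≤ M p := by
    intro p
    apply Finset.sum_nonneg
    intro e _
    split_ifs
    · exact hX0 _ _
    · exact le_rfl
  set b := Fintype.card Q with hb
  set idx := Fintype.equivFin Q with hidx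
  set key : Q × Fin J → ℕ := fun p => p.2.1 * b + (idx p.1).1 with hkeydef
  have hkeylt : ∀ p κ, key p < κ * b ↔ p.2.1 < κ := by
    intro p κ
    have h1 : (idx p.1).1 < b := (idx p.1).2
    simp only [hkeydef]
    constructor
    · intro h2
      by_contra h3
      have h4 : κ * b ≤ p.2.1 * b := Nat.mul_le_mul_right b (by omega)
      omega
    · intro h2
      have h4 : (p.2.1 + 1) * b ≤ κ * b := Nat.mul_le_mul_right b h2
      rw [Nat.add_mul, Nat.one_mul] at h4
      omega
  have hkey : Function.Injective key := by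
    intro p q hpq
    have h1 : p.2.1 < q.2.1 + 1 := by
      rw [← hkeylt p, hpq, hkeylt q]
      omega
    have h2 : q.2.1 < p.2.1 + 1 := by
      rw [← hkeylt q, ← hpq, hkeylt p]
      omega
    have h3 : p.2.1 = q.2.1 := by omega
    have h4 : (idx p.1).1 = (idx q.1).1 := by
      simp only [hkeydef] at hpq
      rw [h3] at hpq
      omega
    have h5 : p.1 = q.1 := idx.injective (Fin.ext h4)
    exact Prod.ext h5 (Fin.ext h3)
  set S : C → Finset (Q × Fin J) := fun c => univ.filter (fun p => good c p.1) with hSdef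
  have hS : ∀ p, (univ.filter (fun c => p ∈ S c)).card ≤ 3 := by
    intro p
    have h1 : (univ.filter (fun c => p ∈ S c)) = univ.filter (fun c => good c p.1) := by
      ext c
      simp [hSdef]
    rw [h1]
    exact hgood p.1
  -- sums over a block
  have hcell : ∀ q, ∑ p ∈ univ.filter (fun p : Q × Fin J => p.1 = q), M p =
      ((univ.filter (fun e => f e = q)).card : ℝ) := by
    intro q
    have h1 := fib_sum f J X (fun q' _ => q' = q)
    rw [Finset.sum_filter]
    refine h1.trans ?_
    rw [Finset.card_filter, Nat.cast_sum]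
    apply Finset.sum_congr rfl
    intro e _
    by_cases he : f e = q
    · simp only [he, if_true]
      rw [hX1 e]
      simp
    · simp [he]
  set y : Q × Fin J → ℝ := fun p => Int.fract (M p) with hy
  have hyM : ∀ p, y p = M p - (⌊M p⌋₊ : ℝ) := by
    intro p
    have h1 : ((⌊M p⌋₊ : ℕ) : ℝ) = ((⌊M p⌋ : ℤ) : ℝ) := natCast_floor_eq_intCast_floor (hM0 p)
    rw [h1]
    rfl
  have hycell : ∀ q, ∃ k : ℤ, ∑ p ∈ univ.filter (fun p : Q × Fin J => p.1 = q), y p = k := by
    intro q
    refine ⟨((univ.filter (fun e => f e = q)).card : ℤ) -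
      ∑ p ∈ univ.filter (fun p : Q × Fin J => p.1 = q), (⌊M p⌋₊ : ℤ), ?_⟩
    rw [Finset.sum_congr rfl (fun p _ => hyM p), Finset.sum_sub_distrib, hcell q]
    push_cast
    rfl
  have hfrac : (frac y).card * 3 ^ L < 4 ^ L := by
    refine lt_of_le_of_lt (Nat.mul_le_mul_right _ ?_) hL
    refine le_trans (Finset.card_le_univ _) ?_
    rw [Fintype.card_prod, Fintype.card_fin]
  obtain ⟨z, hz1, hz2⟩ := chain_round_int (fun p : Q × Fin J => p.1) key hkey S hS L y
    (fun p => Int.fract_nonneg _) (fun p => (Int.fract_lt_one _).le) hycell hfrac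
  set W : Q → ℕ → ℕ := fun q j => if h : j < J then ⌊M (q, ⟨j, h⟩)⌋₊ + z (q, ⟨j, h⟩) else 0
    with hW
  have hWp : ∀ p : Q × Fin J, ((W p.1 p.2.1 : ℕ) : ℝ) = M p + ((z p : ℝ) - y p) := by
    intro p
    simp only [hW]
    rw [dif_pos p.2.2]
    have h1 : (p.1, (⟨p.2.1, p.2.2⟩ : Fin J)) = p := rfl
    rw [h1, hyM p]
    push_cast
    ring
  have hWsum : ∀ q, ∑ j ∈ range J, W q j = (univ.filter (fun e => f e = q)).card := by
    intro q
    have h1 : ((∑ j ∈ range J, W q j : ℕ) : ℝ) = ((univ.filter (fun e => f e = q)).card : ℝ) := by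
      rw [Finset.sum_range, Nat.cast_sum]
      have h2 : ∑ j : Fin J, ((W q j.1 : ℕ) : ℝ) =
          ∑ p ∈ univ.filter (fun p : Q × Fin J => p.1 = q), ((W p.1 p.2.1 : ℕ) : ℝ) := by
        rw [Finset.sum_filter, Fintype.sum_prod_type, Finset.sum_comm]
        apply Finset.sum_congr rfl
        intro j _
        rw [Finset.sum_ite_eq' Finset.univ q, if_pos (Finset.mem_univ _)]
      rw [h2, Finset.sum_congr rfl (fun p _ => hWp p), Finset.sum_add_distrib, hcell q,
        Finset.sum_sub_distrib, hz1 q, sub_self, add_zero]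
    exact_mod_cast h1
  obtain ⟨ψ, hψ1, hψ2⟩ := assign f J W hWsum
  refine ⟨ψ, ?_⟩
  intro c κ hκ
  have hfilt : (S c).filter (fun p => key p < κ * b) =
      univ.filter (fun p : Q × Fin J => good c p.1 ∧ p.2.1 < κ) := by
    ext p
    simp only [hSdef, Finset.mem_filter, Finset.mem_univ, true_and]
    rw [hkeylt p κ]
  have h1 := hz2 c (κ * b)
  rw [hfilt] at h1
  -- the real sum
  have h2 : ∑ p ∈ univ.filter (fun p : Q × Fin J => good c p.1 ∧ p.2.1 < κ), M p =
      ∑ e, ∑ v ∈ range T, (if good c (f e) ∧ γ v < κ then w e v else 0) := by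
    rw [Finset.sum_filter]
    have h3 := fib_sum f J X (fun q j => good c q ∧ j < κ)
    refine h3.trans ?_
    apply Finset.sum_congr rfl
    intro e _
    by_cases he : good c (f e)
    · simp only [he, true_and]
      have h4 : ∀ j ∈ range J, (if j < κ then X e j else 0) =
          ∑ v ∈ range T, (if γ v = j then (if γ v < κ then w e v else 0) else 0) := by
        intro j _
        by_cases hj : j < κ
        · rw [if_pos hj]
          simp only [hX]
          apply Finset.sum_congr rfl
          intro v _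
          by_cases hv : γ v = j
          · rw [if_pos hv, if_pos hv, if_pos (by omega)]
          · rw [if_neg hv, if_neg hv]
        · rw [if_neg hj]
          symm
          apply Finset.sum_eq_zero
          intro v _
          by_cases hv : γ v = j
          · rw [if_pos hv, if_neg (by omega)]
          · rw [if_neg hv]
      rw [Finset.sum_congr rfl h4, Finset.sum_comm]
      apply Finset.sum_congr rfl
      intro v _
      rw [Finset.sum_ite_eq, if_pos (Finset.mem_range.mpr (hγ v))]
    · simp [he]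
  -- the integral sum
  have h5 : ∑ p ∈ univ.filter (fun p : Q × Fin J => good c p.1 ∧ p.2.1 < κ),
      ((W p.1 p.2.1 : ℕ) : ℝ) =
      ((univ.filter (fun e => good c (f e) ∧ ψ e < κ)).card : ℝ) := by
    have h6 : ∀ p : Q × Fin J, ((W p.1 p.2.1 : ℕ) : ℝ) =
        ∑ e, if f e = p.1 then (if ψ e = p.2.1 then (1 : ℝ) else 0) else 0 := by
      intro p
      rw [← hψ2 p.1 p.2.1 p.2.2, Finset.card_filter, Nat.cast_sum]
      apply Finset.sum_congr rfl
      intro e _
      by_cases h7 : f e = p.1
      · by_cases h8 : ψ e = p.2.1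
        · simp [h7, h8]
        · simp [h7, h8]
      · simp [h7]
    rw [Finset.sum_filter, Finset.sum_congr rfl (fun p _ => by rw [h6 p])]
    have h3 := fib_sum f J (fun e j => if ψ e = j then (1 : ℝ) else 0)
      (fun q j => good c q ∧ j < κ)
    refine h3.trans ?_
    rw [Finset.card_filter, Nat.cast_sum]
    apply Finset.sum_congr rfl
    intro e _
    have h4 : ∀ j ∈ range J, (if good c (f e) ∧ j < κ then (if ψ e = j then (1 : ℝ) else 0) else 0) =
        if ψ e = j then (if good c (f e) ∧ ψ e < κ then (1 : ℝ) else 0) else 0 := by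
      intro j _
      by_cases h8 : ψ e = j
      · rw [if_pos h8, if_pos h8, h8]
      · rw [if_neg h8, if_neg h8, ite_self]
    rw [Finset.sum_congr rfl h4, Finset.sum_ite_eq, if_pos (Finset.mem_range.mpr (hψ1 e))]
    push_cast
    rfl
  rw [← h5, ← h2, ← Finset.sum_sub_distrib]
  rw [Finset.sum_congr rfl (fun p _ => show ((W p.1 p.2.1 : ℕ) : ℝ) - M p = (z p : ℝ) - y p by
    rw [hWp p]; ring)]
  exact h1

end Pool.MP_d56194_co
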