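import Mathlib
import Pool.Agent.Lib.MP_d56194_co.H.H10

set_option autoImplicit false

namespace Pool.MP_d56194_co

open Finset

theorem label_bound {E : Type} [Fintype E] (w : E → ℕ → ℝ) (hw0 : ∀ e v, 0 ≤ w e v)
    (ix : E → ℕ) (hix : ∀ i v, (∑ e, if ix e = i then w e v else 0) ≤ 1 / 2) (RS : Finset ℕ)
    (p : E → Prop) [DecidablePred p] (hp : ∀ e, p e → ix e ∈ RS) (T B : ℕ) (q : ℕ → Prop)
    [DecidablePred q] (hq : ∀ v, q v → v < B) :
    ∑ e, ∑ v ∈ range T, (if p e ∧ q v then w e v else 0) ≤ (B : ℝ) * ((RS.card : ℝ) / 2) := by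
  classical
  have h1 : ∀ v, (∑ e, if ix e ∈ RS then w e v else 0) ≤ (RS.card : ℝ) / 2 := by
    intro v
    have h2 : ∀ e, (if ix e ∈ RS then w e v else 0) = ∑ i ∈ RS, if ix e = i then w e v else 0 := by
      intro e
      rw [Finset.sum_ite_eq]
    rw [Finset.sum_congr rfl (fun e _ => h2 e), Finset.sum_comm]
    refine le_trans (Finset.sum_le_sum (fun i _ => hix i v)) ?_
    rw [Finset.sum_const, nsmul_eq_mul]
    linarith
  have h0 : ∀ v, 0 ≤ ∑ e, if ix e ∈ RS then w e v else 0 := by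
    intro v
    apply Finset.sum_nonneg
    intro e _
    split_ifs
    · exact hw0 e v
    · exact le_rfl
  calc ∑ e, ∑ v ∈ range T, (if p e ∧ q v then w e v else 0)
      ≤ ∑ e, ∑ v ∈ range T, (if v < B then (if ix e ∈ RS then w e v else 0) else 0) := by
        apply Finset.sum_le_sum
        intro e _
        apply Finset.sum_le_sum
        intro v _
        have := hw0 e v
        by_cases h : p e ∧ q v
        · rw [if_pos h, if_pos (hq v h.2), if_pos (hp e h.1)]
        · rw [if_neg h]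
          split_ifs <;> first | exact le_rfl | exact this
    _ = ∑ v ∈ range T, (if v < B then ∑ e, (if ix e ∈ RS then w e v else 0) else 0) := by
        rw [Finset.sum_comm]
        apply Finset.sum_congr rfl
        intro v _
        split_ifs
        · rfl
        · simp
    _ = ∑ v ∈ (range T).filter (fun v => v < B), ∑ e, (if ix e ∈ RS then w e v else 0) := by
        rw [Finset.sum_filter]
    _ ≤ ∑ v ∈ range B, ∑ e, (if ix e ∈ RS then w e v else 0) := by
        apply Finset.sum_le_sum_of_subset_of_nonneg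
        · intro v hv
          rw [Finset.mem_filter] at hv
          exact Finset.mem_range.mpr hv.2
        · intro v _ _
          exact h0 v
    _ ≤ ∑ _v ∈ range B, (RS.card : ℝ) / 2 := Finset.sum_le_sum (fun v _ => h1 v)
    _ = (B : ℝ) * ((RS.card : ℝ) / 2) := by
        rw [Finset.sum_const, Finset.card_range, nsmul_eq_mul]

/-- the real total in the first `2 K + S` half slots -/
theorem half_total (μ : YoungDiagram) (g S K : ℕ) (hg : MultAtLeast μ g)
    (hKD : K + S < max (μ.colLen 0) (μ.rowLen 0)) (F : ℕ → ℝ)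
    (hF : ∀ t, (gcut (μ.colLen 0) μ.rowLen t : ℝ) ≤ ∑ j ∈ range t, F j) :
    (gcut (μ.colLen 0) μ.rowLen K : ℝ) + (g : ℝ) * S / 2 ≤
      ∑ v ∈ range (2 * K + S), F (v / 2) / 2 := by
  rcases Nat.even_or_odd' S with ⟨d, hd | hd⟩
  · have e1 : 2 * K + S = 2 * (K + d) := by omega
    rw [e1, half_sum]
    refine le_trans ?_ (hF (K + d))
    have h1 := gcut_slope μ g hg K d (gcut_lt_total μ (K + d) (by omega))
    have h2 : ((gcut (μ.colLen 0) μ.rowLen K + d * g : ℕ) : ℝ) ≤
        (gcut (μ.colLen 0) μ.rowLen (K + d) : ℝ) := by exact_mod_cast h1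
    push_cast at h2
    have h3 : (S : ℝ) = 2 * d := by exact_mod_cast hd
    rw [h3]
    linarith
  · have e1 : 2 * K + S = 2 * (K + d) + 1 := by omega
    rw [e1, Finset.sum_range_succ, half_sum]
    have e2 : (2 * (K + d)) / 2 = K + d := by omega
    rw [e2]
    have h1 := gcut_slope μ g hg K d (gcut_lt_total μ (K + d) (by omega))
    have h1' := gcut_slope μ g hg K (d + 1) (gcut_lt_total μ (K + (d + 1)) (by omega))
    have h2 : ((gcut (μ.colLen 0) μ.rowLen K + d * g : ℕ) : ℝ) ≤
        (gcut (μ.colLen 0) μ.rowLen (K + d) : ℝ) := by exact_mod_cast h1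
    have h2' : ((gcut (μ.colLen 0) μ.rowLen K + (d + 1) * g : ℕ) : ℝ) ≤
        (gcut (μ.colLen 0) μ.rowLen (K + (d + 1)) : ℝ) := by exact_mod_cast h1'
    push_cast at h2 h2'
    have h3 : (S : ℝ) = 2 * d + 1 := by exact_mod_cast hd
    have h4 := hF (K + d)
    have h5 := hF (K + (d + 1))
    rw [← Nat.add_assoc, Finset.sum_range_succ] at h5
    rw [h3]
    rw [← Nat.add_assoc] at h2'
    linarith

theorem level_iff (Ks : Finset ℕ) (S K v : ℕ) (hK : K ∈ Ks) :
    (Ks.filter (fun K' => 2 * K' + S ≤ v)).card < (Ks.filter (fun K' => K' ≤ K)).card ↔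
      v < 2 * K + S := by
  classical
  constructor
  · intro h
    by_contra hcon
    have h1 : (Ks.filter (fun K' => K' ≤ K)) ⊆ (Ks.filter (fun K' => 2 * K' + S ≤ v)) := by
      intro K' hK'
      rw [Finset.mem_filter] at hK' ⊢
      exact ⟨hK'.1, by omega⟩
    have h2 := Finset.card_le_card h1
    omega
  · intro h
    apply Finset.card_lt_card
    rw [Finset.ssubset_iff_of_subset]
    · refine ⟨K, Finset.mem_filter.mpr ⟨hK, le_rfl⟩, ?_⟩
      intro h1
      rw [Finset.mem_filter] at h1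
      omega
    · intro K' hK'
      rw [Finset.mem_filter] at hK' ⊢
      exact ⟨hK'.1, by omega⟩

theorem arith_end (cnt c0 r K S g l X : ℝ) (h9 : cnt * r ≤ c0 + (r - 1))
    (h8 : c0 - X ≤ 11 * (13 * l)) (h3 : X ≤ (2 * K + S) * (r / 2))
    (h12 : (K + S + 1) * r ≤ cnt * r) (h13 : g * S ≤ r * S) (hSr : 286 * l ≤ g * S) : False := by
  have e1 : (K + S + 1) * r = K * r + r * S + r := by ring
  have e2 : (2 * K + S) * (r / 2) = K * r + r * S / 2 := by ring
  rw [e1] at h12
  rw [e2] at h3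
  linarith

/-- the chains of the rounding: the row lengths, the column lengths and everything -/
def goodC {A B : Type} : A ⊕ (B ⊕ Unit) → A × B → Prop
  | Sum.inl l, q => q.1 = l
  | Sum.inr (Sum.inl h), q => q.2 = h
  | Sum.inr (Sum.inr _), _ => True

/-- The balanced block colouring at the levels. -/
theorem block_prefix (μ : YoungDiagram) (g S : ℕ) (hg : MultAtLeast μ g)
    (hS : 286 * (Nat.log 2 ((range (μ.colLen 0)).image μ.rowLen).card + 1) ≤ g * S)
    (Ks : Finset ℕ) (hK : Ks.card ≤ 2 * (grid μ).card)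
    (hKD : ∀ K ∈ Ks, K + S < max (μ.colLen 0) (μ.rowLen 0)) :
    ∃ ψ : μ.cells → ℕ, ∀ K ∈ Ks,
      (∀ i, i < μ.colLen 0 → (univ.filter (fun v : μ.cells => v.1.1 = i ∧
        ψ v < (Ks.filter (fun K' => K' ≤ K)).card)).card ≤ K + S) ∧
      (∀ x, x < μ.rowLen 0 → (univ.filter (fun v : μ.cells => v.1.2 = x ∧
        ψ v < (Ks.filter (fun K' => K' ≤ K)).card)).card ≤ K + S) ∧
      gcut (μ.colLen 0) μ.rowLen K ≤ (univ.filter (fun v : μ.cells =>
        ψ v < (Ks.filter (fun K' => K' ≤ K)).card)).card := by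
  classical
  set s := ((range (μ.colLen 0)).image μ.rowLen).card with hs
  obtain ⟨T, y, hy0, hyT, hy1, hyr, hyc, hyt⟩ := real_cells μ
  set w : μ.cells → ℕ → ℝ := fun e v => y e (v / 2) / 2 with hw
  have hw0 : ∀ e v, 0 ≤ w e v := by
    intro e v
    simp only [hw]
    have := hy0 e (v / 2)
    linarith
  have hw1 : ∀ e, ∑ v ∈ range (2 * T), w e v = 1 := by
    intro e
    rw [← hy1 e]
    exact half_sum (y e) T
  set γ : ℕ → ℕ := fun v => (Ks.filter (fun K' => 2 * K' + S ≤ v)).card with hγ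
  have hγJ : ∀ v, γ v < Ks.card + 1 := by
    intro v
    have := Finset.card_filter_le Ks (fun K' => 2 * K' + S ≤ v)
    simp only [hγ]
    omega
  set Ls := (range (μ.colLen 0)).image μ.rowLen with hLs
  set Hs := (range (μ.rowLen 0)).image μ.colLen with hHs
  have hLm : ∀ e : μ.cells, μ.rowLen e.1.1 ∈ Ls := fun e =>
    Finset.mem_image_of_mem _ (Finset.mem_range.mpr (cell_lt μ e.1 e.2).1)
  have hHm : ∀ e : μ.cells, μ.colLen e.1.2 ∈ Hs := fun e =>
    Finset.mem_image_of_mem _ (Finset.mem_range.mpr (cell_lt μ e.1 e.2).2.1)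
  set f : μ.cells → Ls × Hs := fun e => (⟨μ.rowLen e.1.1, hLm e⟩, ⟨μ.colLen e.1.2, hHm e⟩) with hf
  have hgood : ∀ q : Ls × Hs, (univ.filter (fun c => goodC c q)).card ≤ 3 := by
    intro q
    have h1 : (univ.filter (fun c => goodC c q)) ⊆
        {Sum.inl q.1, Sum.inr (Sum.inl q.2), Sum.inr (Sum.inr ())} := by
      intro c hc
      rw [Finset.mem_filter] at hc
      rcases c with l | h | u
      · have h2 : q.1 = l := hc.2
        simp [h2]
      · have h2 : q.2 = h := hc.2
        simp [h2]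
      · simp
    exact le_trans (Finset.card_le_card h1) Finset.card_le_three
  have hL : Fintype.card (Ls × Hs) * (Ks.card + 1) * 3 ^ (13 * (Nat.log 2 s + 1)) <
      4 ^ (13 * (Nat.log 2 s + 1)) := by
    apply phases_enough2
    have h1 : Fintype.card (Ls × Hs) ≤ s * s := by
      rw [Fintype.card_prod, Fintype.card_coe, Fintype.card_coe]
      exact Nat.mul_le_mul le_rfl (card_heights μ)
    have h2 := card_grid μ s le_rfl
    have h3 : Ks.card + 1 ≤ 2 * ((s + 1) * (s + 1)) + 1 := by omega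
    exact Nat.mul_le_mul h1 h3
  obtain ⟨ψ0, hψ0⟩ := block_round f goodC hgood (2 * T) w hw0 hw1 γ (Ks.card + 1) hγJ
    (13 * (Nat.log 2 s + 1)) hL
  obtain ⟨ψ, hψr, hψc, hψt⟩ := detach_chain μ ψ0
  refine ⟨ψ, ?_⟩
  intro K hKK
  set ρ := (Ks.filter (fun K' => K' ≤ K)).card with hρ
  have hρJ : ρ ≤ Ks.card + 1 := by
    have := Finset.card_filter_le Ks (fun K' => K' ≤ K)
    omega
  have hlev : ∀ v, γ v < ρ ↔ v < 2 * K + S := fun v => level_iff Ks S K v hKK
  have hSr : (286 : ℝ) * ((Nat.log 2 s + 1 : ℕ) : ℝ) ≤ (g : ℝ) * S := by exact_mod_cast hS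
  refine ⟨?_, ?_, ?_⟩
  · intro i hi
    have hri : i ∈ rowsOf μ (μ.rowLen i) := (mem_rowsOf _ _ _).mpr ⟨hi, rfl⟩
    set r := (rowsOf μ (μ.rowLen i)).card with hr
    have hr1 : 1 ≤ r := Finset.card_pos.mpr ⟨i, hri⟩
    have hgr : g ≤ r := hg.1 i hi
    have hmem : μ.rowLen i ∈ Ls := Finset.mem_image_of_mem _ (Finset.mem_range.mpr hi)
    have h1 := hψ0 (Sum.inl ⟨μ.rowLen i, hmem⟩) ρ hρJ
    have h2 : (univ.filter (fun e : μ.cells => goodC (Sum.inl ⟨μ.rowLen i, hmem⟩) (f e) ∧
        ψ0 e < ρ)).card = (univ.filter (fun e : μ.cells => μ.rowLen e.1.1 = μ.rowLen i ∧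
        ψ0 e < ρ)).card := by
      congr 1
      ext e
      simp only [Finset.mem_filter, Finset.mem_univ, true_and, goodC, hf, Subtype.mk.injEq]
    rw [h2] at h1
    have h3 := label_bound w hw0 (fun e => e.1.1) (by
        intro i' v
        have h4 := hyr i' (v / 2)
        have h5 : (∑ e : μ.cells, if e.1.1 = i' then w e v else 0) =
            (∑ e : μ.cells, if e.1.1 = i' then y e (v / 2) else 0) / 2 := by
          rw [Finset.sum_div]
          apply Finset.sum_congr rfl
          intro e _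
          simp only [hw]
          split_ifs
          · rfl
          · simp
        rw [h5]
        linarith) (rowsOf μ (μ.rowLen i)) (fun e => goodC (Sum.inl ⟨μ.rowLen i, hmem⟩) (f e))
        (by
          intro e he
          have h6 : μ.rowLen e.1.1 = μ.rowLen i := by
            simp only [goodC, hf, Subtype.mk.injEq] at he
            exact he
          exact (mem_rowsOf _ _ _).mpr ⟨(cell_lt μ e.1 e.2).1, h6⟩)
        (2 * T) (2 * K + S) (fun v => γ v < ρ) (fun v hv => (hlev v).mp hv)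
    have h7 := hψr i ρ hi
    rw [← hr] at h7 h3
    have h8 := (abs_le.mp h1).2
    have h9 : ((univ.filter (fun v : μ.cells => v.1.1 = i ∧ ψ v < ρ)).card : ℝ) * (r : ℝ) ≤
        ((univ.filter (fun e : μ.cells => μ.rowLen e.1.1 = μ.rowLen i ∧ ψ0 e < ρ)).card : ℝ) +
        ((r : ℝ) - 1) := by
      have h10 : (((univ.filter (fun v : μ.cells => v.1.1 = i ∧ ψ v < ρ)).card * r : ℕ) : ℝ) ≤
          (((univ.filter (fun e : μ.cells => μ.rowLen e.1.1 = μ.rowLen i ∧ ψ0 e < ρ)).card +
            (r - 1) : ℕ) : ℝ) := by exact_mod_cast h7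
      rw [Nat.cast_mul, Nat.cast_add, Nat.cast_sub hr1, Nat.cast_one] at h10
      exact h10
    by_contra hcon
    have h11 : K + S + 1 ≤ (univ.filter (fun v : μ.cells => v.1.1 = i ∧ ψ v < ρ)).card := by omega
    have h12 : ((K : ℝ) + S + 1) * r ≤
        ((univ.filter (fun v : μ.cells => v.1.1 = i ∧ ψ v < ρ)).card : ℝ) * (r : ℝ) := by
      have : (((K + S + 1) * r : ℕ) : ℝ) ≤
          (((univ.filter (fun v : μ.cells => v.1.1 = i ∧ ψ v < ρ)).card * r : ℕ) : ℝ) := by
        exact_mod_cast Nat.mul_le_mul_right r h11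
      push_cast at this
      exact this
    have h13 : (g : ℝ) * S ≤ (r : ℝ) * S := by
      exact_mod_cast Nat.mul_le_mul_right S hgr
    have h8' : ((univ.filter (fun e : μ.cells => μ.rowLen e.1.1 = μ.rowLen i ∧ ψ0 e < ρ)).card : ℝ) -
        ∑ e, ∑ v ∈ range (2 * T), (if goodC (Sum.inl ⟨μ.rowLen i, hmem⟩) (f e) ∧
        γ v < ρ then w e v else 0) ≤ 11 * (13 * ((Nat.log 2 s + 1 : ℕ) : ℝ)) := by
      have e1 : ((13 * (Nat.log 2 s + 1) : ℕ) : ℝ) = 13 * ((Nat.log 2 s + 1 : ℕ) : ℝ) := by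
        push_cast; ring
      rw [← e1]
      exact h8
    have h3' : ∑ e, ∑ v ∈ range (2 * T), (if goodC (Sum.inl ⟨μ.rowLen i, hmem⟩) (f e) ∧
        γ v < ρ then w e v else 0) ≤ (2 * (K : ℝ) + S) * ((r : ℝ) / 2) := by
      have e1 : ((2 * K + S : ℕ) : ℝ) = 2 * (K : ℝ) + S := by push_cast; ring
      rw [← e1]
      exact h3
    exact arith_end _ _ _ _ _ _ _ _ h9 h8' h3' h12 h13 hSr
  · intro x hx
    have hri : x ∈ colsOf μ (μ.colLen x) := (mem_colsOf _ _ _).mpr ⟨hx, rfl⟩
    set r := (colsOf μ (μ.colLen x)).card with hr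
    have hr1 : 1 ≤ r := Finset.card_pos.mpr ⟨x, hri⟩
    have hgr : g ≤ r := hg.2 x hx
    have hmem : μ.colLen x ∈ Hs := Finset.mem_image_of_mem _ (Finset.mem_range.mpr hx)
    have h1 := hψ0 (Sum.inr (Sum.inl ⟨μ.colLen x, hmem⟩)) ρ hρJ
    have h2 : (univ.filter (fun e : μ.cells => goodC (Sum.inr (Sum.inl ⟨μ.colLen x, hmem⟩)) (f e) ∧
        ψ0 e < ρ)).card = (univ.filter (fun e : μ.cells => μ.colLen e.1.2 = μ.colLen x ∧
        ψ0 e < ρ)).card := by
      congr 1
      ext e
      simp only [Finset.mem_filter, Finset.mem_univ, true_and, goodC, hf, Subtype.mk.injEq]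
    rw [h2] at h1
    have h3 := label_bound w hw0 (fun e => e.1.2) (by
        intro i' v
        have h4 := hyc i' (v / 2)
        have h5 : (∑ e : μ.cells, if e.1.2 = i' then w e v else 0) =
            (∑ e : μ.cells, if e.1.2 = i' then y e (v / 2) else 0) / 2 := by
          rw [Finset.sum_div]
          apply Finset.sum_congr rfl
          intro e _
          simp only [hw]
          split_ifs
          · rfl
          · simp
        rw [h5]
        linarith) (colsOf μ (μ.colLen x))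
        (fun e => goodC (Sum.inr (Sum.inl ⟨μ.colLen x, hmem⟩)) (f e))
        (by
          intro e he
          have h6 : μ.colLen e.1.2 = μ.colLen x := by
            simp only [goodC, hf, Subtype.mk.injEq] at he
            exact he
          exact (mem_colsOf _ _ _).mpr ⟨(cell_lt μ e.1 e.2).2.1, h6⟩)
        (2 * T) (2 * K + S) (fun v => γ v < ρ) (fun v hv => (hlev v).mp hv)
    have h7 := hψc x ρ hx
    rw [← hr] at h7 h3
    have h8 := (abs_le.mp h1).2
    have h9 : ((univ.filter (fun v : μ.cells => v.1.2 = x ∧ ψ v < ρ)).card : ℝ) * (r : ℝ) ≤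
        ((univ.filter (fun e : μ.cells => μ.colLen e.1.2 = μ.colLen x ∧ ψ0 e < ρ)).card : ℝ) +
        ((r : ℝ) - 1) := by
      have h10 : (((univ.filter (fun v : μ.cells => v.1.2 = x ∧ ψ v < ρ)).card * r : ℕ) : ℝ) ≤
          (((univ.filter (fun e : μ.cells => μ.colLen e.1.2 = μ.colLen x ∧ ψ0 e < ρ)).card +
            (r - 1) : ℕ) : ℝ) := by exact_mod_cast h7
      rw [Nat.cast_mul, Nat.cast_add, Nat.cast_sub hr1, Nat.cast_one] at h10
      exact h10
    by_contra hcon
    have h11 : K + S + 1 ≤ (univ.filter (fun v : μ.cells => v.1.2 = x ∧ ψ v < ρ)).card := by omega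
    have h12 : ((K : ℝ) + S + 1) * r ≤
        ((univ.filter (fun v : μ.cells => v.1.2 = x ∧ ψ v < ρ)).card : ℝ) * (r : ℝ) := by
      have : (((K + S + 1) * r : ℕ) : ℝ) ≤
          (((univ.filter (fun v : μ.cells => v.1.2 = x ∧ ψ v < ρ)).card * r : ℕ) : ℝ) := by
        exact_mod_cast Nat.mul_le_mul_right r h11
      push_cast at this
      exact this
    have h13 : (g : ℝ) * S ≤ (r : ℝ) * S := by
      exact_mod_cast Nat.mul_le_mul_right S hgr
    have h8' : ((univ.filter (fun e : μ.cells => μ.colLen e.1.2 = μ.colLen x ∧ ψ0 e < ρ)).card : ℝ) -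
        ∑ e, ∑ v ∈ range (2 * T), (if goodC (Sum.inr (Sum.inl ⟨μ.colLen x, hmem⟩)) (f e) ∧
        γ v < ρ then w e v else 0) ≤ 11 * (13 * ((Nat.log 2 s + 1 : ℕ) : ℝ)) := by
      have e1 : ((13 * (Nat.log 2 s + 1) : ℕ) : ℝ) = 13 * ((Nat.log 2 s + 1 : ℕ) : ℝ) := by
        push_cast; ring
      rw [← e1]
      exact h8
    have h3' : ∑ e, ∑ v ∈ range (2 * T), (if goodC (Sum.inr (Sum.inl ⟨μ.colLen x, hmem⟩)) (f e) ∧
        γ v < ρ then w e v else 0) ≤ (2 * (K : ℝ) + S) * ((r : ℝ) / 2) := by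
      have e1 : ((2 * K + S : ℕ) : ℝ) = 2 * (K : ℝ) + S := by push_cast; ring
      rw [← e1]
      exact h3
    exact arith_end _ _ _ _ _ _ _ _ h9 h8' h3' h12 h13 hSr
  · rw [hψt ρ]
    have h1 := hψ0 (Sum.inr (Sum.inr ())) ρ hρJ
    have h2 : (univ.filter (fun e : μ.cells => goodC (Sum.inr (Sum.inr ())) (f e) ∧
        ψ0 e < ρ)).card = (univ.filter (fun e : μ.cells => ψ0 e < ρ)).card := by
      congr 1
      ext e
      simp only [Finset.mem_filter, Finset.mem_univ, true_and, goodC]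
    rw [h2] at h1
    have h3 := (abs_le.mp h1).1
    have h4 : ∑ e, ∑ v ∈ range (2 * T), (if goodC (Sum.inr (Sum.inr ())) (f e) ∧ γ v < ρ
        then w e v else 0) = ∑ v ∈ range (2 * K + S), (∑ e, y e (v / 2)) / 2 := by
      rw [Finset.sum_comm]
      have h5 : ∀ v ∈ range (2 * T), (∑ e, if goodC (Sum.inr (Sum.inr ())) (f e) ∧ γ v < ρ
          then w e v else 0) = if v < 2 * K + S then (∑ e, y e (v / 2)) / 2 else 0 := by
        intro v _
        by_cases hv : v < 2 * K + S
        · rw [if_pos hv, Finset.sum_div]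
          apply Finset.sum_congr rfl
          intro e _
          rw [if_pos ⟨trivial, (hlev v).mpr hv⟩]
        · rw [if_neg hv]
          apply Finset.sum_eq_zero
          intro e _
          rw [if_neg]
          rintro ⟨_, h6⟩
          exact hv ((hlev v).mp h6)
      rw [Finset.sum_congr rfl h5, ← Finset.sum_filter]
      apply Finset.sum_subset_zero_on_sdiff
      · intro v hv
        rw [Finset.mem_filter] at hv
        exact Finset.mem_range.mpr hv.2
      · intro v hv
        rw [Finset.mem_sdiff, Finset.mem_filter, Finset.mem_range, Finset.mem_range] at hv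
        have h6 : T ≤ v / 2 := by omega
        rw [Finset.sum_eq_zero (fun e _ => hyT e (v / 2) h6)]
        simp
      · intro v _
        rfl
    rw [h4] at h3
    have h5 := half_total μ g S K hg (hKD K hKK) (fun j => ∑ e, y e j) hyt
    have h6 : (gcut (μ.colLen 0) μ.rowLen K : ℝ) ≤
        ((univ.filter (fun e : μ.cells => ψ0 e < ρ)).card : ℝ) := by
      push_cast at h3 hSr
      linarith
    exact_mod_cast h6

end Pool.MP_d56194_co
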