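import Mathlib
import Pool.Agent.Lib.MP_d56194_co.H.H11

set_option autoImplicit false

namespace Pool.MP_d56194_co

open Finset

theorem cells_card_eq (μ : YoungDiagram) :
    μ.cells.card = ∑ i ∈ range (μ.colLen 0), μ.rowLen i := by
  have h1 := cell_sum μ (fun _ => (1 : ℝ))
  rw [Finset.sum_const, nsmul_eq_mul, mul_one] at h1
  have h2 : ((∑ i ∈ range (μ.colLen 0), μ.rowLen i : ℕ) : ℝ) =
      ∑ i ∈ range (μ.colLen 0), ∑ x ∈ range (μ.rowLen 0),
        if x < μ.rowLen i then (1 : ℝ) else 0 := by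
    rw [Nat.cast_sum]
    apply Finset.sum_congr rfl
    intro i _
    have h9 : (range (μ.rowLen 0)).filter (fun x => x < μ.rowLen i) = range (μ.rowLen i) := by
      ext x
      have := μ.rowLen_anti 0 i (Nat.zero_le _)
      simp only [Finset.mem_filter, Finset.mem_range]
      omega
    rw [← Finset.sum_filter, Finset.sum_const, nsmul_eq_mul, h9, Finset.card_range, mul_one]
  rw [← h2] at h1
  exact_mod_cast h1

theorem row_card_le (μ : YoungDiagram) (i : ℕ) :
    (μ.cells.filter (fun x => x.1 = i)).card ≤ max (μ.colLen 0) (μ.rowLen 0) := by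
  have h1 : (μ.cells.filter (fun x => x.1 = i)).card = μ.rowLen i := (μ.rowLen_eq_card).symm
  have h2 := μ.rowLen_anti 0 i (Nat.zero_le _)
  have h3 := le_max_right (μ.colLen 0) (μ.rowLen 0)
  omega

theorem col_card_le (μ : YoungDiagram) (i : ℕ) :
    (μ.cells.filter (fun x => x.2 = i)).card ≤ max (μ.colLen 0) (μ.rowLen 0) := by
  have h1 : (μ.cells.filter (fun x => x.2 = i)).card = μ.colLen i := (μ.colLen_eq_card).symm
  have h2 := μ.colLen_anti 0 i (Nat.zero_le _)
  have h3 := le_max_left (μ.colLen 0) (μ.rowLen 0)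
  omega

/-- From a chain of sets of cells at the levels to a colouring. -/
theorem levels_col (μ : YoungDiagram) (S E : ℕ) (Ks : Finset ℕ)
    (hE : E + S < max (μ.colLen 0) (μ.rowLen 0))
    (ψ : μ.cells → ℕ) (hψ : ∀ K ∈ Ks,
      (∀ i, i < μ.colLen 0 → (univ.filter (fun v : μ.cells => v.1.1 = i ∧
        ψ v < (Ks.filter (fun K' => K' ≤ K)).card)).card ≤ K + S) ∧
      (∀ x, x < μ.rowLen 0 → (univ.filter (fun v : μ.cells => v.1.2 = x ∧
        ψ v < (Ks.filter (fun K' => K' ≤ K)).card)).card ≤ K + S) ∧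
      gcut (μ.colLen 0) μ.rowLen K ≤ (univ.filter (fun v : μ.cells =>
        ψ v < (Ks.filter (fun K' => K' ≤ K)).card)).card)
    (hKE : ∀ K ∈ Ks, K ≤ E)
    (hlev : ∀ k, k ≤ E → ∃ k1 ∈ Ks, ∃ k2 ∈ Ks, ∃ s d : ℕ, k1 ≤ k ∧ k ≤ k2 ∧
        gcut (μ.colLen 0) μ.rowLen k1 = k1 * s + d ∧ gcut (μ.colLen 0) μ.rowLen k = k * s + d ∧
        gcut (μ.colLen 0) μ.rowLen k2 = k2 * s + d)
    (hEtop : ∀ k, E < k → max (μ.colLen 0) (μ.rowLen 0) ≤ k + S) :
    ∃ c : ℕ × ℕ → ℕ, ProperOn μ.cells c ∧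
      (∀ x ∈ μ.cells, c x < max (μ.colLen 0) (μ.rowLen 0)) ∧
      ∀ k, gcut (μ.colLen 0) μ.rowLen k ≤ (μ.cells.filter (fun x => c x < k + S)).card := by
  classical
  set D := max (μ.colLen 0) (μ.rowLen 0) with hD
  set ρ : ℕ → ℕ := fun k => (Ks.filter (fun K' => K' ≤ k)).card with hρ
  have hρmono : ∀ k, ρ k ≤ ρ (k + 1) := by
    intro k
    apply Finset.card_le_card
    intro K' hK'
    rw [Finset.mem_filter] at hK' ⊢
    exact ⟨hK'.1, by omega⟩
  have hlast : ∀ k, ρ k = 0 ∨ ∃ K ∈ Ks, K ≤ k ∧ ρ k = ρ K := by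
    intro k
    rcases Nat.eq_zero_or_pos (ρ k) with h | h
    · exact Or.inl h
    · right
      have hne : (Ks.filter (fun K' => K' ≤ k)).Nonempty := Finset.card_pos.mp h
      have hKm := Finset.max'_mem _ hne
      rw [Finset.mem_filter] at hKm
      refine ⟨(Ks.filter (fun K' => K' ≤ k)).max' hne, hKm.1, hKm.2, ?_⟩
      simp only [hρ]
      congr 1
      ext K'
      rw [Finset.mem_filter, Finset.mem_filter]
      constructor
      · rintro ⟨h1, h2⟩
        exact ⟨h1, Finset.le_max' _ _ (Finset.mem_filter.mpr ⟨h1, h2⟩)⟩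
      · rintro ⟨h1, h2⟩
        exact ⟨h1, le_trans h2 hKm.2⟩
  set U : ℕ → Finset (ℕ × ℕ) := fun k =>
    (univ.filter (fun e : μ.cells => ψ e < ρ k)).image Subtype.val with hU
  have hUmono : ∀ t, U t ⊆ U (t + 1) := by
    intro t
    apply Finset.image_subset_image
    intro e he
    rw [Finset.mem_filter] at he ⊢
    exact ⟨he.1, lt_of_lt_of_le he.2 (hρmono t)⟩
  have hUcells : ∀ t, U t ⊆ μ.cells := by
    intro t x hx
    simp only [hU, Finset.mem_image] at hx
    obtain ⟨e, _, rfl⟩ := hx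
    exact e.2
  have hUcard : ∀ k, (U k).card = (univ.filter (fun e : μ.cells => ψ e < ρ k)).card := fun k =>
    Finset.card_image_of_injective _ Subtype.val_injective
  have hUrow : ∀ k i, ((U k).filter (fun x => x.1 = i)).card =
      (univ.filter (fun v : μ.cells => v.1.1 = i ∧ ψ v < ρ k)).card := by
    intro k i
    rw [← Finset.card_image_of_injective (univ.filter (fun v : μ.cells => v.1.1 = i ∧ ψ v < ρ k))
      Subtype.val_injective]
    congr 1
    ext x
    simp only [hU, Finset.mem_filter, Finset.mem_image, Finset.mem_univ, true_and]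
    constructor
    · rintro ⟨⟨e, h1, rfl⟩, h2⟩
      exact ⟨e, ⟨h2, h1⟩, rfl⟩
    · rintro ⟨e, ⟨h1, h2⟩, rfl⟩
      exact ⟨⟨e, h2, rfl⟩, h1⟩
  have hUcol : ∀ k i, ((U k).filter (fun x => x.2 = i)).card =
      (univ.filter (fun v : μ.cells => v.1.2 = i ∧ ψ v < ρ k)).card := by
    intro k i
    rw [← Finset.card_image_of_injective (univ.filter (fun v : μ.cells => v.1.2 = i ∧ ψ v < ρ k))
      Subtype.val_injective]
    congr 1
    ext x
    simp only [hU, Finset.mem_filter, Finset.mem_image, Finset.mem_univ, true_and]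
    constructor
    · rintro ⟨⟨e, h1, rfl⟩, h2⟩
      exact ⟨e, ⟨h2, h1⟩, rfl⟩
    · rintro ⟨e, ⟨h1, h2⟩, rfl⟩
      exact ⟨⟨e, h2, rfl⟩, h1⟩
  have hrow : ∀ t i, ((U t).filter (fun x => x.1 = i)).card ≤ t + S := by
    intro t i
    rw [hUrow]
    rcases hlast t with h | ⟨K, hK, hKt, h⟩
    · have h1 : (univ.filter (fun v : μ.cells => v.1.1 = i ∧ ψ v < ρ t)) = ∅ := by
        apply Finset.filter_eq_empty_iff.mpr
        intro e _ he
        omega
      rw [h1]
      simp
    · by_cases hi : i < μ.colLen 0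
      · have h1 := (hψ K hK).1 i hi
        rw [h]
        exact h1.trans (by omega)
      · have h1 : (univ.filter (fun v : μ.cells => v.1.1 = i ∧ ψ v < ρ t)) = ∅ := by
          apply Finset.filter_eq_empty_iff.mpr
          intro e _ he
          have := (cell_lt μ e.1 e.2).1
          omega
        rw [h1]
        simp
  have hcol : ∀ t i, ((U t).filter (fun x => x.2 = i)).card ≤ t + S := by
    intro t i
    rw [hUcol]
    rcases hlast t with h | ⟨K, hK, hKt, h⟩
    · have h1 : (univ.filter (fun v : μ.cells => v.1.2 = i ∧ ψ v < ρ t)) = ∅ := by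
        apply Finset.filter_eq_empty_iff.mpr
        intro e _ he
        omega
      rw [h1]
      simp
    · by_cases hi : i < μ.rowLen 0
      · have h1 := (hψ K hK).2.1 i hi
        rw [h]
        exact h1.trans (by omega)
      · have h1 : (univ.filter (fun v : μ.cells => v.1.2 = i ∧ ψ v < ρ t)) = ∅ := by
          apply Finset.filter_eq_empty_iff.mpr
          intro e _ he
          have := (cell_lt μ e.1 e.2).2.1
          omega
        rw [h1]
        simp
  obtain ⟨c1, h1, h2, h3⟩ := chain_col U hUmono S hrow hcol E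
  obtain ⟨c2, h4, h5, h6⟩ := extend_col μ.cells D (row_card_le μ) (col_card_le μ) _ (U E) c1
    le_rfl (hUcells E) h1 (fun x hx => lt_of_lt_of_le (h2 x hx) (by omega))
  obtain ⟨c3, h7, h8, h9, h10⟩ := sort_col μ.cells c2 h4 D h5
  have hPK : ∀ K ∈ Ks, gcut (μ.colLen 0) μ.rowLen K ≤
      (μ.cells.filter (fun x => c3 x < K + S)).card := by
    intro K hK
    refine le_trans (hψ K hK).2.2 ?_
    have h11 : (univ.filter (fun v : μ.cells =>
        ψ v < (Ks.filter (fun K' => K' ≤ K)).card)).card = (U K).card := (hUcard K).symm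
    rw [h11]
    refine le_trans (h3 K (hKE K hK)) (le_trans ?_ (h9 (K + S)))
    rw [card_lt_eq_sum, card_lt_eq_sum]
    exact Finset.sum_le_sum (fun j _ => h6 j)
  refine ⟨c3, h7, h8, ?_⟩
  intro k
  rcases Nat.lt_or_ge E k with hk | hk
  · rw [Finset.filter_true_of_mem (fun x hx => lt_of_lt_of_le (h8 x hx) (hEtop k hk)),
      cells_card_eq]
    exact gcut_le_total _ _ k
  · obtain ⟨k1, hk1, k2, hk2, s, d, a1, a2, a3, a4, a5⟩ := hlev k hk
    have b1 := hPK k1 hk1
    have b2 := hPK k2 hk2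
    rw [a3] at b1
    rw [a5] at b2
    rw [a4]
    obtain ⟨u, rfl⟩ := Nat.exists_eq_add_of_le a1
    obtain ⟨w, rfl⟩ := Nat.exists_eq_add_of_le a2
    rcases Nat.eq_zero_or_pos (u + w) with h0 | h0
    · have hu : u = 0 := by omega
      subst hu
      simpa using b1
    · have b3 := h10 (k1 + S) (k1 + u + S) (k1 + u + w + S) (by omega) (by omega)
      have e1 : k1 + u + w + S - (k1 + u + S) = w := by omega
      have e2 : k1 + u + S - (k1 + S) = u := by omega
      have e3 : k1 + u + w + S - (k1 + S) = u + w := by omega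
      rw [e1, e2, e3] at b3
      apply Nat.le_of_mul_le_mul_left _ h0
      refine le_trans ?_ b3
      calc (u + w) * ((k1 + u) * s + d)
          = w * (k1 * s + d) + u * ((k1 + u + w) * s + d) := by ring
        _ ≤ _ := Nat.add_le_add (Nat.mul_le_mul_left w b1) (Nat.mul_le_mul_left u b2)

/-- The conjecture up to a shift of the colours. -/
theorem log_shift_blocks (μ : YoungDiagram) (g S : ℕ) (hg : MultAtLeast μ g)
    (hS : 286 * (Nat.log 2 ((range (μ.colLen 0)).image μ.rowLen).card + 1) ≤ g * S) :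
    ∃ c : ℕ × ℕ → ℕ, ProperOn μ.cells c ∧
      (∀ x ∈ μ.cells, c x < max (μ.colLen 0) (μ.rowLen 0)) ∧
      ∀ k, gcut (μ.colLen 0) μ.rowLen k ≤ (μ.cells.filter (fun x => c x < k + S)).card := by
  classical
  rcases Nat.lt_or_ge S (max (μ.colLen 0) (μ.rowLen 0)) with hSD | hSD
  · obtain ⟨Ks, hK1, hK2, hK3⟩ := exists_levels μ (max (μ.colLen 0) (μ.rowLen 0) - S - 1)
    obtain ⟨ψ, hψ⟩ := block_prefix μ g S hg hS Ks hK1 (by
      intro K hK
      have := hK2 K hK
      omega)
    exact levels_col μ S (max (μ.colLen 0) (μ.rowLen 0) - S - 1) Ks (by omega) ψ hψ hK2 hK3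
      (by intro k hk; omega)
  · obtain ⟨c, h1, h2, _⟩ := extend_col μ.cells (max (μ.colLen 0) (μ.rowLen 0)) (row_card_le μ)
      (col_card_le μ) _ ∅ (fun _ => 0) le_rfl (Finset.empty_subset _)
      (by intro x hx; simp at hx) (by intro x hx; simp at hx)
    refine ⟨c, h1, h2, ?_⟩
    intro k
    rw [Finset.filter_true_of_mem (fun x hx => lt_of_lt_of_le (h2 x hx) (by omega)),
      cells_card_eq]
    exact gcut_le_total _ _ k

end Pool.MP_d56194_co
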